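import Pool.Agent.THJ.GasE
import Pool.Agent.PLT.AnP
import Pool.Agent.PLT.NrmT

/-!
# TH-J: the normaliser of a staircase and the physical function (helper62)

* `bulkG_U`: `bulkG` of the rows `q :: (x ++ p :: y)` is `bulkU x y p q`;
* `nrmS S N`: the normaliser; `nrmS_gas`;
* **`phys_S`**: `‖preY x y p q * ∑ E11‖ = nrmS S N * (WPS S h).re`.
-/

set_option autoImplicit false
set_option linter.unusedSectionVars false
set_option linter.unusedVariables false

noncomputable section

open Complex Filter Topology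

namespace Pool.Agent.THJ

open NUP1 PBX PBZ
open NUP1.N (E11)
open NUP1.Leg (Bp cc)
open Pool.Agent.PLX (RU)
open Pool.Agent.MXR (XR XL MajW)
open Pool.Agent.NUBD (BD BD_shift)
open HexObs (xc)
open PLT (bulkU preY)
open PLT.Nr (bulkG nrmG vz)
open DRX (PP PP_cons PP_perm PP_mul PP_congr ku)
open PBR (rh rh_neg)

/-! ### the pair factor -/

theorem ku_vz (a b : ℂ) : ku (vz a - vz b) = 2 * rh (a - b) := by
  have e1 : (vz a - vz b) / 4 = -(2 * (a - b) / 3 * I) := by
    unfold PLT.Nr.vz
    ring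
  have e2 : (vz a - vz b) / 8 = -((a - b) / 3 * I) := by
    unfold PLT.Nr.vz
    ring
  unfold DRX.ku PBR.rh PBR.cc PBR.r2
  rw [e1, e2, cosh_neg, cosh_neg, cosh_mul_I, cosh_mul_I]
  have h : (2 * cos (2 * (a - b) / 3) + 1) * (2 * cos (2 * (a - b) / 3) + ((Real.sqrt 2 : ℝ) : ℂ)) =
      2 * ((cos (2 * (a - b) / 3) + ((Real.sqrt 2 : ℝ) : ℂ) / 2) * (2 * cos (2 * (a - b) / 3) + 1)) := by ring
  rw [h, div_mul_eq_div_div]
  ring

/-! ### products over pairs -/

theorem PP_append (f : ℂ → ℂ → ℂ) (V W : List ℂ) :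
    PP f (V ++ W) = PP f V * (V.map fun v => (W.map (f v)).prod).prod * PP f W := by
  induction V with
  | nil => simp [DRX.PP]
  | cons v V ih =>
    rw [List.cons_append, PP_cons, ih, PP_cons, List.map_append, List.prod_append, List.map_cons, List.prod_cons]
    ring

theorem PP_const (c : ℂ) (V : List ℂ) : PP (fun _ _ => c ^ 2) V = c ^ (V.length * (V.length - 1)) := by
  induction V with
  | nil => simp [DRX.PP]
  | cons v V ih =>
    rw [PP_cons, ih, List.map_const', List.prod_replicate, ← pow_mul, ← pow_add, List.length_cons]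
    congr 1
    rcases V.length with _ | n
    · rfl
    · simp only [Nat.add_sub_cancel]
      ring

theorem PP_map {g : ℂ → ℂ} (f : ℂ → ℂ → ℂ) (V : List ℂ) : PP f (V.map g) = PP (fun a b => f (g a) (g b)) V := by
  induction V with
  | nil => rfl
  | cons v V ih => rw [List.map_cons, PP_cons, PP_cons, ih, List.map_map]; rfl

/-- the square product over all ordered pairs -/
theorem PP_ofFn {g : ℂ → ℂ → ℂ} (hg : ∀ a b, g a b = g b a) {m : ℕ} (x : Fin m → ℂ) :
    PP (fun a b => g a b ^ 2) (List.ofFn x) = ∏ i, ∏ j, if i = j then 1 else g (x i) (x j) := by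
  induction m with
  | zero => simp [DRX.PP]
  | succ m ih =>
    rw [List.ofFn_succ, PP_cons, ih, List.map_ofFn, List.prod_ofFn, Fin.prod_univ_succ, Fin.prod_univ_succ]
    have e1 : ∀ i : Fin m, (∏ j : Fin (m + 1), if i.succ = j then 1 else g (x i.succ) (x j)) =
        g (x i.succ) (x 0) * ∏ j : Fin m, if i = j then 1 else g (x i.succ) (x j.succ) := by
      intro i
      rw [Fin.prod_univ_succ, if_neg (Fin.succ_ne_zero i)]
      simp only [Fin.succ_inj]
    rw [Finset.prod_congr rfl fun i _ => e1 i, Finset.prod_mul_distrib]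
    have e2 : ∀ j : Fin m, (if (0 : Fin (m + 1)) = j.succ then (1 : ℂ) else g (x 0) (x j.succ)) = g (x 0) (x j.succ) :=
      fun j => if_neg (Fin.succ_ne_zero j).symm
    simp only [e2, if_true, one_mul, Function.comp_apply]
    have e4 : ∏ i : Fin m, g (x i.succ) (x 0) = ∏ i : Fin m, g (x 0) (x i.succ) :=
      Finset.prod_congr rfl fun i _ => hg _ _
    rw [e4]
    have e3 : ∏ i : Fin m, g (x 0) (x i.succ) ^ 2 = (∏ i : Fin m, g (x 0) (x i.succ)) * ∏ i : Fin m, g (x 0) (x i.succ) := by
      rw [← Finset.prod_mul_distrib]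
      exact Finset.prod_congr rfl fun i _ => sq _
    rw [e3]
    ring

variable {m M : ℕ}

/-- **the bulk term of the rows** -/
theorem bulkG_U (x : Fin m → ℂ) (y : Fin M → ℂ) (p q : ℂ) :
    bulkG ((q :: (List.ofFn x ++ p :: List.ofFn y)).map vz) = bulkU x y p q := by
  have hlen : (q :: (List.ofFn x ++ p :: List.ofFn y)).length = m + M + 2 := by
    simp
    omega
  have hs : ∀ a b : ℂ, rh (a - b) = rh (b - a) := fun a b => by rw [← rh_neg, neg_sub]
  unfold PLT.Nr.bulkG
  rw [PP_map, List.length_map]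
  have e0 : PP (fun a b => ku (vz a - vz b) ^ 2) (q :: (List.ofFn x ++ p :: List.ofFn y)) =
      PP (fun _ _ => (2 : ℂ) ^ 2) (q :: (List.ofFn x ++ p :: List.ofFn y)) *
        PP (fun a b => rh (a - b) ^ 2) (q :: (List.ofFn x ++ p :: List.ofFn y)) := by
    rw [PP_mul]
    refine PP_congr fun a _ b _ => ?_
    rw [ku_vz]
    ring
  rw [e0, PP_const, hlen, PP_cons, PP_append, PP_cons, List.map_append, List.prod_append, List.map_cons, List.prod_cons,
    PP_ofFn (g := fun a b => rh (a - b)) hs, PP_ofFn (g := fun a b => rh (a - b)) hs]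
  simp only [List.map_ofFn, List.prod_ofFn, Function.comp_def, List.map_cons, List.prod_cons]
  unfold PLT.bulkU
  have e1 : ∏ i, (rh (p - x i) * rh (q - x i)) ^ 2 = (∏ i, rh (x i - p) ^ 2) * ∏ i, rh (q - x i) ^ 2 := by
    rw [← Finset.prod_mul_distrib]
    refine Finset.prod_congr rfl fun i _ => ?_
    rw [hs p, mul_pow]
  have e2 : ∏ j, (rh (p - y j) * rh (q - y j)) ^ 2 = (∏ j, rh (p - y j) ^ 2) * ∏ j, rh (q - y j) ^ 2 := by
    rw [← Finset.prod_mul_distrib]
    exact Finset.prod_congr rfl fun i _ => mul_pow _ _ _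
  have e3 : ∏ i : Fin m, (rh (x i - p) ^ 2 * ∏ j : Fin M, rh (x i - y j) ^ 2) =
      (∏ i, rh (x i - p) ^ 2) * ∏ i, ∏ j, rh (x i - y j) ^ 2 := Finset.prod_mul_distrib
  rw [e1, e2, e3, hs q p, show m + M + 2 - 1 = m + M + 1 by omega]
  ring

/-! ### the staircase -/

variable {S : Stair}

/-- the rows in the frame of the shift s -/
theorem XR_vS (s : ℝ) (S : Stair) (N : ℕ) : ((XR N).map fun k => vz (zS S N k + (-s : ℝ))) =
    ((List.range N).map fun j => vS s S j).map vz := by
  unfold Pool.Agent.MXR.XR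
  rw [List.map_map, List.map_map]
  apply List.ext_getElem
  · simp
  · intro i h1 h2
    simp only [List.getElem_map, List.getElem_finRange, List.getElem_range, Function.comp_apply]
    congr 1
    have := zS_ph (S := S) (N := N) (s : ℂ) ⟨i, by simpa using h1⟩ false
    unfold vS
    have e : (zS S N (Sum.inl ((⟨i, by simpa using h1⟩ : Fin N), false))) + ((-s : ℝ) : ℂ) = -phS s S i := by
      rw [this]
      push_cast
      ring
    exact e

/-- **the normaliser of a staircase** -/
def nrmS (S : Stair) (N : ℕ) : ℝ := nrmG (zS S N) (XR N)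

theorem nrmG_shift {ι : Type*} (z : ι → ℂ) (X : List ι) (c : ℂ) : nrmG (fun k => z k + c) X = nrmG z X := by
  unfold PLT.Nr.nrmG
  rw [BD_shift]
  congr 2
  have e1 : (X.map fun k => vz (z k + c)) = (X.map fun k => vz (z k)).map fun v => v + vz c := by
    rw [List.map_map]
    refine List.map_congr_left fun k _ => ?_
    simp only [Function.comp_apply]
    unfold PLT.Nr.vz
    ring
  rw [e1]
  unfold PLT.Nr.bulkG
  rw [PP_map, List.length_map]
  congr 1
  exact PP_congr fun a _ b _ => by ring_nf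

theorem range_split (f : ℕ → ℂ) (m M : ℕ) : ((List.range (m + M + 2)).map f) =
    f 0 :: ((List.ofFn fun i : Fin m => f (1 + i.val)) ++ f (m + 1) :: List.ofFn fun i : Fin M => f (m + 1 + 1 + i.val)) := by
  apply List.ext_getElem
  · simp
    omega
  · intro i h1 h2
    simp only [List.getElem_map, List.getElem_range]
    rcases i with _ | i
    · rfl
    rw [List.getElem_cons_succ]
    rcases lt_trichotomy i m with h | h | h
    · rw [List.getElem_append_left (by simpa using h)]
      simp only [List.getElem_ofFn]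
      congr 1
      omega
    · subst h
      rw [List.getElem_append_right (by simp)]
      simp
    · rw [List.getElem_append_right (by simp; omega)]
      simp only [List.length_ofFn]
      obtain ⟨d, rfl⟩ : ∃ d, i = m + 1 + d := ⟨i - (m + 1), by omega⟩
      have e : m + 1 + d - m = d + 1 := by omega
      simp only [e, List.getElem_cons_succ, List.getElem_ofFn]
      congr 1
      omega

theorem nrmS_eq {s : ℝ} {D : RU m M} (Z : RUS s S D) : nrmS S (m + M + 2) =
    2 ^ ((m + M + 2) * (m + M + 1)) * ‖BDS S (m + M + 2)‖ ^ 2 / ‖bulkU D.x D.y D.p D.q‖ := by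
  have h := nrmG_shift (zS S (m + M + 2)) (XR (m + M + 2)) ((-s : ℝ) : ℂ)
  unfold nrmS
  rw [← h]
  unfold PLT.Nr.nrmG
  rw [BD_shift, XR_vS, range_split]
  have e1 : (List.ofFn fun i : Fin m => vS s S (1 + i.val)) = List.ofFn D.x := by
    congr 1
    funext i
    exact (Z.x i).symm
  have e2 : (List.ofFn fun i : Fin M => vS s S (m + 1 + 1 + i.val)) = List.ofFn D.y := by
    congr 1
    funext i
    exact (Z.y i).symm
  rw [e1, e2, ← Z.p, ← Z.q, bulkG_U]
  have e3 : (XR (m + M + 2)).length = m + M + 2 := by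
    unfold Pool.Agent.MXR.XR
    simp
  rw [e3]
  rfl

/-- **The physical function.** -/
theorem phys_S {s : ℝ} {m M N r : ℕ} (hr : r = m + 1) (hN : N = m + M + 2) (hmM : m ≤ M) (h : r < N) (hS : S.Per N)
    (hMR : MajW (wS S xc N) (Sum.inr 0) (Sum.inr 1) (XR N)) (hML : MajW (wS S xc N) (Sum.inr 0) (Sum.inr 1) (XL N)) {a : ℝ}
    (ha : a = 31 / 50 ∨ a = 5 / 4) {D : RU m M} (O : D.Ok) (hβ : 1 < D.β)
    (hc : D.c = cc m) (hc' : D.c' = cc M) (Z : RUS s S D) :
    ‖preY D.x D.y D.p D.q * ∑ n ∈ Finset.range (2 * m + 1),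
        E11 (3 / 5 * l) (-(17 / 10) * l) D.p D.q D.x D.y D.hX D.hY n (n + (M - m)) (a * l)
          (-(11 / 4) * l)‖ = nrmS S N * (WPS S h).re := by
  have h1 := W_gasS hr hN hmM h hMR hML ha O hβ hc hc' Z
  obtain ⟨E, hE⟩ : ∃ E, E = ∑ n ∈ Finset.range (2 * m + 1),
        E11 (3 / 5 * l) (-(17 / 10) * l) D.p D.q D.x D.y D.hX D.hY n (n + (M - m)) (a * l)
          (-(11 / 4) * l) := ⟨_, rfl⟩
  rw [← hE] at h1 ⊢
  have hW := WPS_real (S := S) (by omega) h hS hMR hML
  have e : preY D.x D.y D.p D.q * E = 2 ^ ((m + M + 2) * (m + M + 1)) * (BDS S N ^ 2 * WPS S h) /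
      bulkU D.x D.y D.p D.q := by
    rw [h1]
    unfold PLT.preY
    ring
  subst hN
  rw [e, norm_div, norm_mul, norm_mul, norm_pow, norm_pow, nrmS_eq Z]
  have h2 : ‖(2 : ℂ)‖ = 2 := by norm_num
  have h3 : ‖WPS S h‖ = (WPS S h).re := by
    conv_lhs => rw [hW.1]
    rw [Complex.norm_real, Real.norm_of_nonneg hW.2.1]
  rw [h2, h3]
  ring

end Pool.Agent.THJ

end
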