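import Pool.Agent.THJ.Plane

/-!
# TH-J: the public form, every direction (helper62)

**`plane_all`**: from the transfer `RayD (A q) q κ a b` for a set of arbitrarily large `q` and all directions `1 ≤ a < b`, the
limits `A q` the same in all directions, and the theorems (T), (E), (R) of the plane: `G zc x |x| ^ (5 / 24) -> A` as `|x| -> ∞`.
-/

set_option autoImplicit false

open scoped Classical

namespace Pool.Agent.THJ

open Filter Topology MeasureTheory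
open Pool.Agent.IW.Res Pool.Agent.PLC.Res Pool.Agent.PLC
open Pool.Agent.PLN (uj uj_norm G_nn share_of)
open NTF (JJ)
open HexObs (Pt)

/-! ### the share of the ends -/

lemma share_lim {E g v : ℕ → ℝ} {B : ℝ} (hg : ∀ k, 0 ≤ g k) (hv : ∀ k, 0 ≤ v k)
    (hE : Tendsto (fun k => E k * v k) atTop (𝓝 B)) (h : ∀ ε : ℝ, 0 < ε → ∀ᶠ k in atTop, |E k - 4 / 9 * g k| ≤ ε * g k) :
    Tendsto (fun k => g k * v k) atTop (𝓝 (9 / 4 * B)) := by
  have hB : ∀ᶠ k : ℕ in atTop, E k * v k < |B| + 1 :=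
    hE.eventually (gt_mem_nhds (by have := le_abs_self B; linarith))
  have h5 : Tendsto (fun k : ℕ => g k * v k - 9 / 4 * (E k * v k)) atTop (𝓝 0) := by
    rw [Metric.tendsto_atTop]
    intro ε hε
    obtain ⟨b, hb⟩ : ∃ b : ℝ, b = |B| + 1 := ⟨_, rfl⟩
    have hb0 : 0 < b := by rw [hb]; positivity
    have hη : 0 < min (1 / 3) (ε / (81 * b)) := lt_min (by norm_num) (by positivity)
    obtain ⟨N, hN⟩ := ((h _ hη).and hB).exists_forall_of_atTop
    refine ⟨N, fun k hk => ?_⟩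
    obtain ⟨h7, h8⟩ := hN k hk
    rw [← hb] at h8
    have h10 : |E k - 4 / 9 * g k| ≤ 1 / 3 * g k := h7.trans (mul_le_mul_of_nonneg_right (min_le_left _ _) (hg k))
    have h11 : g k ≤ 9 * E k := by
      have := (abs_le.1 h10).1
      linarith
    have h12 : |E k - 4 / 9 * g k| ≤ ε / (81 * b) * (9 * E k) :=
      (h7.trans (mul_le_mul_of_nonneg_right (min_le_right _ _) (hg k))).trans
        (mul_le_mul_of_nonneg_left h11 (by positivity))
    rw [Real.dist_eq, sub_zero]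
    have e1 : g k * v k - 9 / 4 * (E k * v k) = -(9 / 4) * ((E k - 4 / 9 * g k) * v k) := by ring
    rw [e1, abs_mul, abs_mul, abs_of_nonneg (hv k)]
    have e2 : |(-(9 / 4) : ℝ)| = 9 / 4 := by norm_num
    rw [e2]
    calc 9 / 4 * (|E k - 4 / 9 * g k| * v k) ≤ 9 / 4 * (ε / (81 * b) * (9 * E k) * v k) := by
          have := mul_le_mul_of_nonneg_right h12 (hv k)
          linarith
      _ = ε / (4 * b) * (E k * v k) := by
          field_simp
          ring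
      _ ≤ ε / (4 * b) * b := mul_le_mul_of_nonneg_left h8.le (by positivity)
      _ = ε / 4 := by field_simp
      _ < ε := by linarith
  have h6 := h5.add (hE.const_mul (9 / 4))
  rw [zero_add] at h6
  exact h6.congr fun r => by ring

/-! ### the points -/

lemma JJ_xv (m n : ℕ) : JJ (yR (xv m n)) = pt 2 n m := by
  have h := JJ_comb (-(m : ℤ) - n) n
  have e : yR (xv m n) = (-(-(m : ℤ) - n) - 2 * (n : ℤ), 2 * (-(m : ℤ) - n) + n) := by
    unfold yR xv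
    refine Prod.ext ?_ ?_ <;> simp only <;> ring
  rw [e, h]
  unfold pt
  have h2 : uj 2 = uj 1 - uj 0 := by
    have := Pool.Agent.THJ.uj_pred 0
    norm_num at this
    exact this.symm
  have h3 : uj (2 + 1) = -uj 0 := by
    have := uj_three 0
    norm_num at this ⊢
    exact this
  rw [h2, h3]
  push_cast
  ring

lemma G_xv (z : ℝ) (m n : ℕ) : G z (JJ (yR (xv m n))) = G z (pt 0 m n) := by
  rw [JJ_xv, G_pt, G_swap]

lemma norm_xv (m n : ℕ) : ‖JJ (yR (xv m n))‖ = ‖pt 0 m n‖ := by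
  rw [JJ_xv, norm_pt, norm_pt]
  congr 2
  ring

lemma vert_xv (m n : ℕ) : JJ (yR (xv m n)) ∈ vertices := by
  refine vert_JJ ?_
  unfold yR xv
  simp only
  omega

/-- the words of the plane -/
noncomputable def PV (m n : ℕ) : ℝ := (HexObs.gf (HexObs.DirT.PX (HexObs.up + xv m n) (-HexObs.up))).toReal

lemma PV_eq (m n : ℕ) (hn : 1 ≤ n) : PV m n = HexObs.xc * ends zc (JJ (yR (xv m n))) 1 {W | W 0 ≠ 2} {W | W 0 ≠ 2} := by
  unfold PV
  rw [PX_ends (x := xv m n) (by unfold xv; simp only; omega) (fun h => ?_), zc_eq]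
  have := congrArg Prod.fst h
  unfold xv at this
  simp only [Prod.fst_zero] at this
  omega

lemma pt_lin (K a b : ℕ) : ‖pt 0 (K * a) (K * b)‖ = Real.sqrt 3 * (K * Real.sqrt ((a : ℝ) ^ 2 + a * b + (b : ℝ) ^ 2)) := by
  have h0 : (0 : ℝ) ≤ K := Nat.cast_nonneg _
  rw [norm_pt, show 3 * ((((K * a : ℕ) : ℝ)) ^ 2 + ((K * a : ℕ) : ℝ) * ((K * b : ℕ) : ℝ) + (((K * b : ℕ) : ℝ)) ^ 2) =
    3 * ((K : ℝ) ^ 2 * ((a : ℝ) ^ 2 + a * b + (b : ℝ) ^ 2)) by push_cast; ring,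
    Real.sqrt_mul (by norm_num), Real.sqrt_mul (sq_nonneg _), Real.sqrt_sq h0]

/-- the length in the unit of the normaliser -/
noncomputable def vk (κ a b k : ℕ) : ℝ := (κ * k : ℝ) * Real.sqrt ((a : ℝ) ^ 2 + a * b + (b : ℝ) ^ 2)

lemma vk_nn (κ a b k : ℕ) : 0 ≤ vk κ a b k := by unfold vk; positivity

lemma vk_ge {κ a b : ℕ} (hκ : 1 ≤ κ) (ha : 1 ≤ a) (k : ℕ) : (k : ℝ) ≤ vk κ a b k := by
  unfold vk
  have h1 : (1 : ℝ) ≤ Real.sqrt ((a : ℝ) ^ 2 + a * b + (b : ℝ) ^ 2) := by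
    apply Real.le_sqrt_of_sq_le
    have : (1 : ℝ) ≤ a := by exact_mod_cast ha
    have h2 : (0 : ℝ) ≤ b := Nat.cast_nonneg _
    nlinarith
  have h2 : (1 : ℝ) ≤ κ := by exact_mod_cast hκ
  have h3 : (0 : ℝ) ≤ k := Nat.cast_nonneg _
  have h4 : (k : ℝ) ≤ κ * k := by nlinarith
  nlinarith

lemma vk_le (κ a b k : ℕ) : vk κ a b k ≤ (κ * k : ℝ) * (a + b) := by
  unfold vk
  refine mul_le_mul_of_nonneg_left ?_ (by positivity)
  rw [Real.sqrt_le_left (by positivity)]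
  have h1 : (0 : ℝ) ≤ a := Nat.cast_nonneg _
  have h2 : (0 : ℝ) ≤ b := Nat.cast_nonneg _
  nlinarith [mul_nonneg h1 h2]

lemma norm_vk {κ a b : ℕ} (k : ℕ) : |‖pt 0 (κ * k * a) (κ * k * b + 1)‖ - Real.sqrt 3 * vk κ a b k| ≤ 2 := by
  have h1 := pt_lin (κ * k) a b
  have h2 : Real.sqrt 3 * vk κ a b k = ‖pt 0 (κ * k * a) (κ * k * b)‖ := by
    rw [h1]
    unfold vk
    push_cast
    ring
  rw [h2]
  refine (abs_norm_sub_norm_le _ _).trans ((pt_sub _ _ _ _).trans ?_)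
  push_cast
  rw [sub_self, abs_zero, add_sub_cancel_left, abs_one]
  norm_num

lemma ratio_vk {κ a b : ℕ} (hκ : 1 ≤ κ) (ha : 1 ≤ a) :
    Tendsto (fun k => ‖pt 0 (κ * k * a) (κ * k * b + 1)‖ / vk κ a b k) atTop (𝓝 (Real.sqrt 3)) := by
  rw [Metric.tendsto_atTop]
  intro ε hε
  obtain ⟨K, hK⟩ := exists_nat_gt (2 / ε)
  refine ⟨K + 1, fun k hk => ?_⟩
  have h1 : ((K + 1 : ℕ) : ℝ) ≤ k := by exact_mod_cast hk
  push_cast at h1
  have h2 := vk_ge (b := b) hκ ha k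
  have h3 : 0 < 2 / ε := by positivity
  have h4 : 0 < vk κ a b k := by linarith
  rw [Real.dist_eq]
  have e : ‖pt 0 (κ * k * a) (κ * k * b + 1)‖ / vk κ a b k - Real.sqrt 3 =
      (‖pt 0 (κ * k * a) (κ * k * b + 1)‖ - Real.sqrt 3 * vk κ a b k) / vk κ a b k := by
    field_simp
  rw [e, abs_div, abs_of_pos h4, div_lt_iff₀ h4]
  have h5 : 2 < ε * vk κ a b k := by
    rw [div_lt_iff₀ hε] at hK
    nlinarith
  exact (norm_vk k).trans_lt h5

/-! ### one direction -/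

/-- **from the words of the plane to the two-point function** -/
theorem dirLim_of {P : Measure (ℕ → Fin 3)} [IsProbabilityMeasure P] (hb : BP P) (hE : EP P) (hz : 0 ≤ zc) {κ a b : ℕ}
    (hκ : 1 ≤ κ) (ha : 1 ≤ a) {B : ℝ}
    (h : Tendsto (fun k : ℕ => PV (κ * k * a) (κ * k * b + 1) * vk κ a b k ^ (5 / 24 : ℝ)) atTop (𝓝 B)) :
    DirLim (Real.sqrt 3 ^ (5 / 24 : ℝ) * (9 / 4 * (B / HexObs.xc))) a b := by
  refine ⟨κ, 1, fun k => κ * k * a, fun k => κ * k * b + 1, hκ, fun k => ⟨?_, ?_⟩, ?_⟩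
  · push_cast
    rw [sub_self, abs_zero]
    norm_num
  · push_cast
    rw [add_sub_cancel_left, abs_one]
  obtain ⟨y, hy⟩ : ∃ y : ℕ → ℂ, y = fun k => JJ (yR (xv (κ * k * a) (κ * k * b + 1))) := ⟨_, rfl⟩
  obtain ⟨E, hEd⟩ : ∃ E : ℕ → ℝ, E = fun k => ends zc (y k) 1 {W | W 0 ≠ 2} {W | W 0 ≠ 2} := ⟨_, rfl⟩
  have hx : (0 : ℝ) < HexObs.xc := HexObs.xc_pos
  have hR := ratio_vk (b := b) hκ ha
  have h1 : Tendsto (fun k => E k * vk κ a b k ^ (5 / 24 : ℝ)) atTop (𝓝 (B / HexObs.xc)) := by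
    refine (h.div_const HexObs.xc).congr fun k => ?_
    rw [PV_eq _ _ (by omega), hEd, hy]
    field_simp
  have h2 : ∀ ε : ℝ, 0 < ε → ∀ᶠ k in atTop, |E k - 4 / 9 * G zc (y k)| ≤ ε * G zc (y k) := by
    intro ε hε
    obtain ⟨R, hR⟩ := share_of hb hE ε hε
    obtain ⟨n, hn⟩ := exists_nat_ge (R + 2)
    filter_upwards [eventually_ge_atTop n] with k hk
    rw [hEd]
    refine hR _ (by rw [hy]; exact vert_xv _ _) ?_
    have h3 := abs_le.1 (norm_vk (κ := κ) (a := a) (b := b) k)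
    have h4 := vk_ge (b := b) hκ ha k
    have h5 : (n : ℝ) ≤ k := by exact_mod_cast hk
    have h6 : (1 : ℝ) ≤ Real.sqrt 3 := by
      rw [show (1 : ℝ) = Real.sqrt 1 by simp]
      exact Real.sqrt_le_sqrt (by norm_num)
    have h7 := vk_nn κ a b k
    have h8 : vk κ a b k ≤ Real.sqrt 3 * vk κ a b k := by nlinarith
    rw [hy]
    show R ≤ ‖JJ (yR (xv (κ * k * a) (κ * k * b + 1)))‖
    rw [norm_xv]
    linarith [h3.1]
  have h3 := share_lim (g := fun k => G zc (y k)) (fun k => G_nn hz _) (fun k => by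
    have := vk_nn κ a b k
    positivity) h1 h2
  have h4 : Tendsto (fun k => (‖pt 0 (κ * k * a) (κ * k * b + 1)‖ / vk κ a b k) ^ (5 / 24 : ℝ)) atTop
      (𝓝 (Real.sqrt 3 ^ (5 / 24 : ℝ))) := hR.rpow_const (Or.inl (by positivity))
  refine (h4.mul h3).congr' ?_
  filter_upwards [eventually_ge_atTop 1] with k hk
  have h5 : 0 < vk κ a b k := by
    have h6 := vk_ge (b := b) hκ ha k
    have h7 : (1 : ℝ) ≤ k := by exact_mod_cast hk
    linarith
  show _ = FF (pt 0 (κ * k * a) (κ * k * b + 1))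
  unfold FF
  rw [hy]
  simp only
  rw [G_xv, Real.div_rpow (norm_nonneg _) h5.le]
  have : vk κ a b k ^ (5 / 24 : ℝ) ≠ 0 := by positivity
  field_simp

/-! ### all directions -/

lemma hm_mul (c m n : ℕ) : hm (c * m) (c * n) = c * hm m n := by
  unfold hm
  rcases le_total (m + 2 * n) (2 * m + n) with h | h
  · rw [max_eq_right h, max_eq_right]
    · ring
    · calc c * m + 2 * (c * n) = c * (m + 2 * n) := by ring
        _ ≤ c * (2 * m + n) := Nat.mul_le_mul_left _ h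
        _ = 2 * (c * m) + c * n := by ring
  · rw [max_eq_left h, max_eq_left]
    · ring
    · calc 2 * (c * m) + c * n = c * (2 * m + n) := by ring
        _ ≤ c * (m + 2 * n) := Nat.mul_le_mul_left _ h
        _ = c * m + 2 * (c * n) := by ring

lemma hm_ge (m n : ℕ) : m + n ≤ hm m n := by
  unfold hm
  omega

/-- the directions: fewer mirrored rows than normal ones -/
abbrev Dir := {p : ℕ × ℕ // 1 ≤ p.1 ∧ p.1 < p.2}

/-- the mirror image -/
lemma dirLim_swap {A : ℝ} {a b : ℕ} (h : DirLim A a b) : DirLim A b a := by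
  obtain ⟨κ, C0, M, N, h1, h2, h3⟩ := h
  refine ⟨κ, C0, N, M, h1, fun k => ⟨(h2 k).2, (h2 k).1⟩, h3.congr fun k => ?_⟩
  have e : ‖pt 0 (N k) (M k)‖ = ‖pt 0 (M k) (N k)‖ := by
    rw [norm_pt, norm_pt]
    congr 2
    ring
  unfold FF
  rw [G_swap, e]

/-- **the transfer on the rays gives the words of the plane** -/
theorem words_all {A : ℕ → ℝ} {Q : Set ℕ} (hQ : ∀ B : ℕ, ∃ q ∈ Q, B ≤ q) {κ : Dir → ℕ} (hκ : ∀ d, 1 ≤ κ d)
    (h : ∀ d : Dir, ∀ q ∈ Q, RayD (A q) q (κ d) d.1.1 d.1.2) :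
    ∃ B : ℝ, ∀ d : Dir, Tendsto (fun k : ℕ => PV (κ d * k * d.1.1) (κ d * k * d.1.2 + 1) *
      vk (κ d) d.1.1 d.1.2 k ^ (5 / 24 : ℝ)) atTop (𝓝 B) := by
  obtain ⟨C, k0, hC, hS⟩ := cyl_plane
  have h' : ∀ d : Dir, ∀ q : ℕ, ∃ J I : ℕ → List Bool, q ∈ Q →
      (∀ k, (J k).count true = κ d * k * d.1.1 ∧ (J k).count false = κ d * k * d.1.2 ∧
        (I k).count true = q * (κ d * k * d.1.1) ∧ (I k).count false = q * (κ d * k * d.1.2)) ∧
      Tendsto (fun k : ℕ => WL false (J k) (I k) *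
        ((κ d * k : ℝ) * Real.sqrt ((d.1.1 : ℝ) ^ 2 + d.1.1 * d.1.2 + (d.1.2 : ℝ) ^ 2)) ^ (5 / 24 : ℝ)) atTop (𝓝 (A q)) := by
    intro d q
    by_cases hq : q ∈ Q
    · obtain ⟨J, I, h1, h2⟩ := h d q hq
      exact ⟨J, I, fun _ => ⟨h1, h2⟩⟩
    · exact ⟨fun _ => [], fun _ => [], fun h1 => absurd h1 hq⟩
  choose J I hJI using h'
  refine approx_lim (Q := {q | q ∈ Q ∧ 3 ≤ q}) (A := A) (fun B => ?_)
    (fun d k => PV (κ d * k * d.1.1) (κ d * k * d.1.2 + 1) * vk (κ d) d.1.1 d.1.2 k ^ (5 / 24 : ℝ))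
    (fun d q k => WL false (J d q k) (I d q k) * vk (κ d) d.1.1 d.1.2 k ^ (5 / 24 : ℝ))
    (fun _ q => C * ((q : ℝ) + 1) ^ (-(5 / 24) : ℝ)) (fun d => ?_) (fun d q hq => ?_) (fun d q hq => ?_)
  · obtain ⟨q, h1, h2⟩ := hQ (max B 3)
    exact ⟨q, ⟨h1, (le_max_right _ _).trans h2⟩, (le_max_left _ _).trans h2⟩
  · have h2 : Tendsto (fun q : ℕ => (q : ℝ) + 1) atTop atTop :=
      tendsto_atTop_add_const_right _ _ tendsto_natCast_atTop_atTop
    have h3 := (tendsto_rpow_neg_atTop (by norm_num : (0 : ℝ) < 5 / 24)).comp h2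
    simpa using h3.const_mul C
  · exact (hJI d q hq.1).2
  · obtain ⟨hcnt, -⟩ := hJI d q hq.1
    have hd1 : 1 ≤ d.1.1 := d.2.1
    filter_upwards [eventually_ge_atTop (k0 + 4)] with k hk
    obtain ⟨c1, c2, c3, c4⟩ := hcnt k
    obtain ⟨m, hm'⟩ : ∃ m, m = κ d * k * d.1.1 := ⟨_, rfl⟩
    obtain ⟨n, hn'⟩ : ∃ n, n = κ d * k * d.1.2 := ⟨_, rfl⟩
    rw [← hm'] at c1 c3 ⊢
    rw [← hn'] at c2 c4 ⊢
    have e1 : (J d q k ++ I d q k).count false = (q + 1) * n := by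
      rw [List.count_append, c2, c4]
      ring
    have e2 : (J d q k ++ I d q k).count true = (q + 1) * m := by
      rw [List.count_append, c1, c3]
      ring
    have e3 : hm ((J d q k ++ I d q k).count false) ((J d q k ++ I d q k).count true) = (q + 1) * hm n m := by
      rw [e1, e2, hm_mul]
    have hkm : k ≤ m := by
      rw [hm']
      have h1 : 1 * k * 1 ≤ κ d * k * d.1.1 := Nat.mul_le_mul (Nat.mul_le_mul_right _ (hκ d)) hd1
      omega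
    have h1 := hm_ge n m
    have h2 : 4 * hm n m ≤ (q + 1) * hm n m := Nat.mul_le_mul_right _ (by have := hq.2; omega)
    have h3 := hS false (J d q k) (I d q k) (by rw [e3]; omega) (by rw [e3, c1, c2]; omega)
    rw [e3] at h3
    have e4 : vs' false (false :: J d q k) = xv m (n + 1) := by
      rw [vs_xv]
      simp [c1, c2]
    rw [e4] at h3
    obtain ⟨V, hV⟩ : ∃ V, V = vk (κ d) d.1.1 d.1.2 k := ⟨_, rfl⟩
    rw [← hV, ← sub_mul, abs_mul]
    have hV0 : (k : ℝ) ≤ V := by rw [hV]; exact vk_ge (hκ d) hd1 k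
    have hk1 : (1 : ℝ) ≤ k := by
      have : 1 ≤ k := by omega
      exact_mod_cast this
    have hVp : 0 < V := by linarith
    have hVH : V ≤ hm n m := by
      have h4 := vk_le (κ d) d.1.1 d.1.2 k
      have h5 : ((n + m : ℕ) : ℝ) ≤ (hm n m : ℕ) := by exact_mod_cast h1
      rw [hn', hm'] at h5
      push_cast at h5
      rw [hV, hn', hm']
      linarith
    rw [abs_of_pos (show (0 : ℝ) < V ^ (5 / 24 : ℝ) by positivity)]
    have h6 : (((q + 1) * hm n m : ℕ) : ℝ) ^ (-(5 / 24) : ℝ) * V ^ (5 / 24 : ℝ) ≤ ((q : ℝ) + 1) ^ (-(5 / 24) : ℝ) := by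
      have h7 : ((q : ℝ) + 1) * V ≤ (((q + 1) * hm n m : ℕ) : ℝ) := by
        push_cast
        exact mul_le_mul_of_nonneg_left hVH (by positivity)
      have h8 := Real.rpow_le_rpow_of_nonpos (show (0 : ℝ) < ((q : ℝ) + 1) * V by positivity) h7
        (by norm_num : (-(5 / 24) : ℝ) ≤ 0)
      rw [Real.mul_rpow (by positivity) hVp.le] at h8
      have h9 : V ^ (-(5 / 24) : ℝ) * V ^ (5 / 24 : ℝ) = 1 := by
        rw [← Real.rpow_add hVp]
        norm_num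
      calc (((q + 1) * hm n m : ℕ) : ℝ) ^ (-(5 / 24) : ℝ) * V ^ (5 / 24 : ℝ) ≤
          ((q : ℝ) + 1) ^ (-(5 / 24) : ℝ) * V ^ (-(5 / 24) : ℝ) * V ^ (5 / 24 : ℝ) :=
            mul_le_mul_of_nonneg_right h8 (by positivity)
        _ = _ := by rw [mul_assoc, h9, mul_one]
    calc |PV m (n + 1) - WL false (J d q k) (I d q k)| * V ^ (5 / 24 : ℝ) ≤
        C * (((q + 1) * hm n m : ℕ) : ℝ) ^ (-(5 / 24) : ℝ) * V ^ (5 / 24 : ℝ) :=
          mul_le_mul_of_nonneg_right h3 (by positivity)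
      _ = C * ((((q + 1) * hm n m : ℕ) : ℝ) ^ (-(5 / 24) : ℝ) * V ^ (5 / 24 : ℝ)) := by ring
      _ ≤ C * ((q : ℝ) + 1) ^ (-(5 / 24) : ℝ) := mul_le_mul_of_nonneg_left h6 hC.le

/-- **the two-point function of the plane in every direction**: from the transfer on the rays. -/
theorem plane_all {P : Measure (ℕ → Fin 3)} [IsProbabilityMeasure P] (hT : TPb) (hb : BP P) (hE : EP P) (hR : RV)
    {A : ℕ → ℝ} {Q : Set ℕ} (hQ : ∀ B : ℕ, ∃ q ∈ Q, B ≤ q)
    (h : ∀ a b : ℕ, 1 ≤ a → a < b → ∃ κ : ℕ, 1 ≤ κ ∧ ∀ q ∈ Q, RayD (A q) q κ a b) :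
    ∃ A0 : ℝ, 0 < A0 ∧ ∀ ε : ℝ, 0 < ε → ∃ δ : ℝ, 0 < δ ∧ ∀ x ∈ vertices, 1 / δ ≤ ‖x‖ →
      |G zc x * ‖x‖ ^ (5 / 24 : ℝ) - A0| ≤ ε := by
  have hz : 0 ≤ zc := by
    rw [zc_eq]
    exact HexObs.xc_pos.le
  have h' : ∀ d : Dir, ∃ κ : ℕ, 1 ≤ κ ∧ ∀ q ∈ Q, RayD (A q) q κ d.1.1 d.1.2 := fun d => h _ _ d.2.1 d.2.2
  choose κ hκ hray using h'
  obtain ⟨B, hB⟩ := words_all hQ hκ hray
  obtain ⟨A0, hA0⟩ : ∃ A0, A0 = Real.sqrt 3 ^ (5 / 24 : ℝ) * (9 / 4 * (B / HexObs.xc)) := ⟨_, rfl⟩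
  have hD : ∀ a b : ℕ, 1 ≤ b → b < a → DirLim A0 a b := by
    intro a b h1 h2
    rw [hA0]
    exact dirLim_swap (dirLim_of hb hE hz (hκ ⟨(b, a), h1, h2⟩) (by omega) (hB ⟨(b, a), h1, h2⟩))
  -- the constant is positive
  have hpos : 0 < A0 := by
    obtain ⟨κ', C0, M, N, h1, h2, h3⟩ := hD 2 1 le_rfl (by norm_num)
    obtain ⟨c, hc, hT⟩ := hT
    refine lt_of_lt_of_le hc (ge_of_tendsto h3 ?_)
    filter_upwards [eventually_ge_atTop (C0 + 1)] with k hk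
    obtain ⟨h4, -⟩ := h2 k
    have h5 := (abs_le.1 h4).1
    have h6 : (1 : ℝ) ≤ κ' := by exact_mod_cast h1
    have h7 : ((C0 + 1 : ℕ) : ℝ) ≤ k := by exact_mod_cast hk
    push_cast at h5 h7
    have h8 : (1 : ℝ) ≤ M k := by
      have h9 : (0 : ℝ) ≤ C0 := Nat.cast_nonneg _
      have h10 : (k : ℝ) ≤ κ' * k := by nlinarith
      nlinarith
    have h9 : (0 : ℝ) ≤ N k := Nat.cast_nonneg _
    have h10 := norm_pt_ge (M k) (N k)
    have h11 : 0 < ‖pt 0 (M k) (N k)‖ := by linarith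
    have h12 := (hT (pt 0 (M k) (N k)) (by
      rw [pt_zero]
      exact vert_JJ (by simp only; omega)) (norm_pos_iff.1 h11)).1
    unfold FF
    have h13 : ‖pt 0 (M k) (N k)‖ ^ (-(5 / 24) : ℝ) * ‖pt 0 (M k) (N k)‖ ^ (5 / 24 : ℝ) = 1 := by
      rw [← Real.rpow_add h11]
      norm_num
    calc c = c * ‖pt 0 (M k) (N k)‖ ^ (-(5 / 24) : ℝ) * ‖pt 0 (M k) (N k)‖ ^ (5 / 24 : ℝ) := by
          rw [mul_assoc, h13, mul_one]
      _ ≤ _ := mul_le_mul_of_nonneg_right h12 (by positivity)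
  exact ⟨A0, hpos, all_dir hpos hz hD hR⟩

end Pool.Agent.THJ
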