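import Pool.Agent.THJ.Phys
import Pool.Agent.PLT.ClsSh

/-!
# TH-J: the physical function as the class sum; the content of the direction `(a, b)` (helper62)

* `physL6`: `physL` for the data `Ok6`; **`physF`**: with the class sum `RU.fin` on the lines of any `P`;
* `fl A B`: the list of `A` mirrored and `B` normal rows; `count_fl`, `count_yq`; **`rayD_of`**: `RayD` from the limit of
  `WF (fl (κ k a) (κ k b)) q`.
-/

set_option autoImplicit false
set_option linter.unusedSectionVars false
set_option linter.unusedVariables false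

noncomputable section

open Complex Filter Topology

namespace Pool.Agent.THJ

open NUP1 PBX PBZ
open NUP1.N (E11)
open NUP1.Leg (Bp cc)
open Pool.Agent.PLX (RU yqn)
open HexObs HexObs.LP HexObs.DirT
open PLT (preY)

/-- **The physical function of the list `f`**, data `Ok6`. -/
theorem physL6 : ∃ k0 : ℕ, ∀ (m q : ℕ) (f : Fin m → Bool), k0 ≤ m → 1 ≤ q → ∀ (s a : ℝ), a = 31 / 50 ∨ a = 5 / 4 →
    ∀ D : RU m (q * m), D.Ok6 → 1 < D.β → D.c = cc m → D.c' = cc (q * m) → RUL s f q D →
    ‖preY D.x D.y D.p D.q * ∑ n ∈ Finset.range (2 * m + 1),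
        E11 (3 / 5 * l) (-(17 / 10) * l) D.p D.q D.x D.y D.hX D.hY n (n + (q * m - m)) (a * l)
          (-(11 / 4) * l)‖ = nrmS (SL f q) (m + q * m + 2) * WF f q := by
  obtain ⟨k0, h⟩ := physL
  refine ⟨k0, fun m q f hm hq s a ha D O hβ hc hc' Z => ?_⟩
  exact h m q f hm hq s a ha D.one O.base hβ hc hc' ⟨Z.x, Z.y, Z.p, Z.q⟩

/-- **The physical function as the class sum** on the lines of `P`. -/
theorem physF : ∃ k0 : ℕ, ∀ (m q : ℕ) (f : Fin m → Bool), k0 ≤ m → 1 ≤ q → ∀ (s : ℝ) (P : PHK.Par6) (P0 : NUO.Par),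
    NURow.ParP P0 → NURow.LnH (NUP1S.lX P0) (NUP1S.lY P0) →
    (∀ k, PHK.lnP P k ∈ Set.Icc (PHK.loV (some k)) (PHK.hiV (some k))) →
    ∀ D : RU m (q * m), D.Ok6 → 1 < D.β → D.c = cc m → D.c' = cc (q * m) → RUL s f q D →
    ‖preY D.x D.y D.p D.q * ∑ n ∈ Finset.range (2 * m + 1), D.fin P n (n + (q * m - m))‖ =
      nrmS (SL f q) (m + q * m + 2) * WF f q := by
  obtain ⟨k0, h⟩ := physL6
  refine ⟨k0, fun m q f hm hq s P P0 hP0 L0 hL D O hβ hc hc' Z => ?_⟩
  rw [← h m q f hm hq s (31 / 50) (Or.inl rfl) D O hβ hc hc' Z]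
  congr 2
  refine Finset.sum_congr rfl fun n _ => ?_
  have hqm : m ≤ q * m := Nat.le_mul_of_pos_left _ hq
  exact (O.fin_eq hβ (by omega) hP0 L0 hL).symm

/-! ### the content of a direction -/

/-- `A` mirrored rows, then `B` normal rows -/
def fl (A B : ℕ) (i : Fin (A + B)) : Bool := decide (i.val < A)

theorem ofFn_fl (A B : ℕ) : List.ofFn (fl A B) = List.replicate A true ++ List.replicate B false := by
  apply List.ext_getElem
  · simp
  · intro i h1 h2
    rw [List.getElem_ofFn]
    unfold fl
    rcases lt_or_ge i A with h | h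
    · rw [List.getElem_append_left (by simpa using h), List.getElem_replicate]
      simpa using h
    · rw [List.getElem_append_right (by simpa using h), List.getElem_replicate]
      simpa using h

theorem count_fl (A B : ℕ) : (List.ofFn (fl A B)).count true = A ∧ (List.ofFn (fl A B)).count false = B := by
  rw [ofFn_fl, List.count_append, List.count_append]
  simp [List.count_replicate]

theorem ofFn_yqn_succ {m : ℕ} (q : ℕ) (f : Fin m → Bool) :
    List.ofFn (yqn (q + 1) f) = List.ofFn f ++ List.ofFn (yqn q f) := by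
  apply List.ext_getElem
  · simp
    ring
  · intro i h1 h2
    rw [List.getElem_ofFn]
    have h3 : i < (q + 1) * m := by simpa using h1
    have hm : 0 < m := by
      rcases Nat.eq_zero_or_pos m with h | h
      · rw [h, Nat.mul_zero] at h3
        omega
      · exact h
    have e1 : yqn (q + 1) f ⟨i, h3⟩ = f ⟨i % m, Nat.mod_lt _ hm⟩ := rfl
    rw [e1]
    rcases lt_or_ge i m with h | h
    · rw [List.getElem_append_left (by simpa using h), List.getElem_ofFn]
      congr 1
      exact Fin.ext (Nat.mod_eq_of_lt h)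
    · rw [List.getElem_append_right (by simpa using h), List.getElem_ofFn]
      simp only [List.length_ofFn]
      have h4 : i - m < q * m := by
        have : (q + 1) * m = q * m + m := by ring
        omega
      have e2 : yqn q f ⟨i - m, h4⟩ = f ⟨(i - m) % m, Nat.mod_lt _ hm⟩ := rfl
      rw [e2]
      congr 1
      refine Fin.ext ?_
      exact Nat.mod_eq_sub_mod h

theorem count_yq {m : ℕ} (q : ℕ) (f : Fin m → Bool) (b : Bool) :
    (List.ofFn (yqn q f)).count b = q * (List.ofFn f).count b := by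
  induction q with
  | zero =>
    have h : (List.ofFn (yqn 0 f)).length = 0 := by simp
    rw [List.length_eq_zero_iff.1 h]
    simp
  | succ q ih =>
    rw [ofFn_yqn_succ, List.count_append, ih]
    ring

/-- **`RayD` from the limit of the two-point functions of the contents** -/
theorem rayD_of {A : ℝ} {q κ a b : ℕ} (h : Tendsto (fun k : ℕ => WF (fl (κ * k * a) (κ * k * b)) q *
    ((κ * k : ℝ) * Real.sqrt ((a : ℝ) ^ 2 + a * b + (b : ℝ) ^ 2)) ^ (5 / 24 : ℝ)) atTop (𝓝 A)) : RayD A q κ a b := by
  refine ⟨fun k => List.ofFn (fl (κ * k * a) (κ * k * b)), fun k => List.ofFn (yqn q (fl (κ * k * a) (κ * k * b))),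
    fun k => ?_, h⟩
  obtain ⟨h1, h2⟩ := count_fl (κ * k * a) (κ * k * b)
  exact ⟨h1, h2, by rw [count_yq, h1], by rw [count_yq, h2]⟩

end Pool.Agent.THJ

end
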