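import Pool.Agent.THJ.Sym

/-!
# TH-J: from the limits along a dense set of directions to all directions (helper62)

`all_dir`: if `G zc x |x| ^ (5 / 24) -> A` along one sequence of points `pt 0 (M k) (N k)`, `M k ~ κ k a`, `N k ~ κ k b`, for
every pair `1 ≤ b < a`, and the two-point function varies regularly (R), then `G zc x |x| ^ (5 / 24) -> A` as `|x| -> ∞`.
-/

set_option autoImplicit false

open scoped Classical

namespace Pool.Agent.THJ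

open Filter Topology
open Pool.Agent.IW.Res Pool.Agent.PLC.Res
open Pool.Agent.PLN (uj uj_norm G_nn)
open NTF (JJ)
open HexObs (Pt)

/-- the regularity (R) -/
def RV : Prop := ∀ ε : ℝ, 0 < ε → ∃ δ : ℝ, 0 < δ ∧ ∀ x ∈ vertices, ∀ y ∈ vertices, 1 / δ ≤ ‖x‖ → ‖y - x‖ ≤ δ * ‖x‖ →
  |G zc y / G zc x - 1| ≤ ε

/-- the normalised two-point function -/
noncomputable def FF (x : ℂ) : ℝ := G zc x * ‖x‖ ^ (5 / 24 : ℝ)

lemma FF_nn (hz : 0 ≤ zc) (x : ℂ) : 0 ≤ FF x := mul_nonneg (G_nn hz x) (by positivity)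

/-- the power of a number near 1 -/
lemma pow_near {u d : ℝ} (h1 : 1 - d ≤ u) (h2 : u ≤ 1 + d) (h0 : 0 < u) (hd : 0 ≤ d) : |u ^ (5 / 24 : ℝ) - 1| ≤ d := by
  rw [abs_le]
  rcases le_or_gt 1 u with h | h
  · have e1 : 1 ≤ u ^ (5 / 24 : ℝ) := Real.one_le_rpow h (by norm_num)
    have e2 : u ^ (5 / 24 : ℝ) ≤ u ^ (1 : ℝ) := Real.rpow_le_rpow_of_exponent_le h (by norm_num)
    rw [Real.rpow_one] at e2
    constructor <;> linarith
  · have e1 : u ^ (5 / 24 : ℝ) ≤ 1 := Real.rpow_le_one h0.le h.le (by norm_num)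
    have e2 : u ^ (1 : ℝ) ≤ u ^ (5 / 24 : ℝ) := Real.rpow_le_rpow_of_exponent_ge h0 h.le (by norm_num)
    rw [Real.rpow_one] at e2
    constructor <;> linarith

/-- the normalised two-point function varies slowly -/
theorem slow (hz : 0 ≤ zc) (hR : RV) {η : ℝ} (h0 : 0 < η) (h1 : η ≤ 1) : ∃ d : ℝ, 0 < d ∧ d ≤ 1 ∧ ∀ x ∈ vertices, ∀ y ∈ vertices,
    1 / d ≤ ‖x‖ → ‖y - x‖ ≤ d * ‖x‖ → |FF y - FF x| ≤ η * FF x := by
  obtain ⟨d0, hd0, hR⟩ := hR (η / 4) (by positivity)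
  refine ⟨min d0 (η / 4), lt_min hd0 (by positivity), (min_le_right _ _).trans (by linarith), fun x hx y hy h2 h3 => ?_⟩
  obtain ⟨d, hd⟩ : ∃ d, d = min d0 (η / 4) := ⟨_, rfl⟩
  rw [← hd] at h2 h3
  have hdp : 0 < d := by rw [hd]; exact lt_min hd0 (by positivity)
  have hd1 : d ≤ d0 := by rw [hd]; exact min_le_left _ _
  have hd2 : d ≤ η / 4 := by rw [hd]; exact min_le_right _ _
  have hx0 : 0 < ‖x‖ := lt_of_lt_of_le (by positivity) h2
  have h4 : 1 / d0 ≤ ‖x‖ := (one_div_le_one_div_of_le hdp hd1).trans h2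
  have h5 : ‖y - x‖ ≤ d0 * ‖x‖ := h3.trans (mul_le_mul_of_nonneg_right hd1 hx0.le)
  have h6 := hR x hx y hy h4 h5
  have h7 := hR x hx x hx h4 (by rw [sub_self, norm_zero]; positivity)
  have hG : G zc x ≠ 0 := by
    intro h
    rw [h, div_zero, zero_sub, abs_neg, abs_one] at h7
    linarith
  obtain ⟨q, hq⟩ : ∃ q, q = G zc y / G zc x := ⟨_, rfl⟩
  have hGy : G zc y = q * G zc x := by rw [hq]; field_simp
  rw [← hq] at h6
  have h8 := norm_sub_norm_le y x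
  have h9 := norm_sub_norm_le x y
  rw [norm_sub_rev] at h9
  obtain ⟨u, hu⟩ : ∃ u, u = ‖y‖ / ‖x‖ := ⟨_, rfl⟩
  have hyu : ‖y‖ = u * ‖x‖ := by rw [hu]; field_simp
  have hu1 : 1 - d ≤ u := by
    rw [hu, le_div_iff₀ hx0]
    nlinarith
  have hu2 : u ≤ 1 + d := by
    rw [hu, div_le_iff₀ hx0]
    nlinarith
  have hu0 : 0 < u := by linarith
  obtain ⟨t, ht⟩ : ∃ t, t = u ^ (5 / 24 : ℝ) := ⟨_, rfl⟩
  have ht1 : |t - 1| ≤ d := by rw [ht]; exact pow_near hu1 hu2 hu0 hdp.le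
  have e1 : FF y = q * t * FF x := by
    unfold FF
    rw [hGy, hyu, Real.mul_rpow hu0.le hx0.le, ← ht]
    ring
  have e2 : FF y - FF x = (q * t - 1) * FF x := by rw [e1]; ring
  have e3 : |q * t - 1| ≤ η := by
    have e4 : q * t - 1 = (q - 1) * t + (t - 1) := by ring
    rw [e4]
    refine (abs_add_le _ _).trans ?_
    rw [abs_mul]
    have h10 := abs_le.1 ht1
    have h11 : |t| ≤ 2 := by
      rw [abs_le]
      constructor <;> linarith
    have h12 : |q - 1| * |t| ≤ η / 4 * 2 := mul_le_mul h6 h11 (abs_nonneg _) (by positivity)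
    linarith
  rw [e2, abs_mul, abs_of_nonneg (FF_nn hz x)]
  exact mul_le_mul_of_nonneg_right e3 (FF_nn hz x)

lemma norm_pt_ge (m n : ℕ) : 3 / 2 * ((m : ℝ) + n) ≤ ‖pt 0 m n‖ := by
  rw [norm_pt]
  apply Real.le_sqrt_of_sq_le
  have : 0 ≤ ((m : ℝ) - n) ^ 2 := sq_nonneg _
  nlinarith

lemma pt_sub (m n m' n' : ℕ) : ‖pt 0 m n - pt 0 m' n'‖ ≤ 2 * (|(m : ℝ) - m'| + |(n : ℝ) - n'|) := by
  have e : pt 0 m n - pt 0 m' n' = (Real.sqrt 3 : ℂ) * ((((m : ℝ) - m' : ℝ) : ℂ) * uj 0 +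
      (((n : ℝ) - n' : ℝ) : ℂ) * uj (0 + 1)) := by
    unfold pt
    push_cast
    ring
  rw [e, norm_mul]
  have h1 : ‖(Real.sqrt 3 : ℂ)‖ ≤ 2 := by
    rw [Complex.norm_real, Real.norm_of_nonneg (Real.sqrt_nonneg _), show (2 : ℝ) = Real.sqrt 4 by
      rw [show (4 : ℝ) = 2 ^ 2 by norm_num, Real.sqrt_sq (by norm_num)]]
    exact Real.sqrt_le_sqrt (by norm_num)
  refine mul_le_mul h1 ((norm_add_le _ _).trans ?_) (norm_nonneg _) (by norm_num)
  rw [norm_mul, norm_mul, uj_norm, uj_norm, mul_one, mul_one, Complex.norm_real, Complex.norm_real, Real.norm_eq_abs,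
    Real.norm_eq_abs]

/-- a limit along one sequence of the direction (a, b) -/
def DirLim (A : ℝ) (a b : ℕ) : Prop := ∃ (κ C0 : ℕ) (M N : ℕ → ℕ), 1 ≤ κ ∧
  (∀ k, |(M k : ℝ) - κ * k * a| ≤ C0 ∧ |(N k : ℝ) - κ * k * b| ≤ C0) ∧
  Tendsto (fun k => FF (pt 0 (M k) (N k))) atTop (𝓝 A)

/-- **one direction after the other, uniformly** -/
theorem grid {A : ℝ} (h : ∀ a b : ℕ, 1 ≤ b → b < a → DirLim A a b) {η d : ℝ} (hη : 0 < η) (hd : 0 < d) :
    ∃ L0 : ℕ, ∀ m n : ℕ, n ≤ m → L0 ≤ m + n → ∃ M N : ℕ, |FF (pt 0 M N) - A| ≤ η ∧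
      ‖pt 0 m n - pt 0 M N‖ ≤ d * ‖pt 0 m n‖ := by
  obtain ⟨H, hH1, hH2⟩ : ∃ H : ℕ, 1 ≤ H ∧ 8 / d ≤ H := by
    obtain ⟨H, hH⟩ := exists_nat_ge (max 1 (8 / d))
    exact ⟨H, by exact_mod_cast (le_max_left _ _).trans hH, (le_max_right _ _).trans hH⟩
  -- the data of the directions
  have hb : ∀ b : ℕ, ∃ (κ C0 K : ℕ) (M N : ℕ → ℕ), 1 ≤ b → b ≤ H → 1 ≤ κ ∧
      (∀ k, |(M k : ℝ) - κ * k * ((2 * H + 1 - b : ℕ) : ℝ)| ≤ C0 ∧ |(N k : ℝ) - κ * k * b| ≤ C0) ∧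
      ∀ k, K ≤ k → |FF (pt 0 (M k) (N k)) - A| ≤ η := by
    intro b
    by_cases h1 : 1 ≤ b ∧ b ≤ H
    · obtain ⟨κ, C0, M, N, h2, h3, h4⟩ := h (2 * H + 1 - b) b h1.1 (by omega)
      obtain ⟨K, hK⟩ := Metric.tendsto_atTop.1 h4 η hη
      refine ⟨κ, C0, K, M, N, fun _ _ => ⟨h2, h3, fun k hk => ?_⟩⟩
      have := hK k hk
      rw [Real.dist_eq] at this
      exact this.le
    · exact ⟨0, 0, 0, fun _ => 0, fun _ => 0, fun h2 h3 => absurd ⟨h2, h3⟩ h1⟩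
  choose κ C0 K M N hdat using hb
  obtain ⟨κm, hκm⟩ : ∃ κm, κm = ∑ b ∈ Finset.range (H + 1), κ b := ⟨_, rfl⟩
  obtain ⟨Cm, hCm⟩ : ∃ Cm, Cm = ∑ b ∈ Finset.range (H + 1), C0 b := ⟨_, rfl⟩
  obtain ⟨Km, hKm⟩ : ∃ Km, Km = ∑ b ∈ Finset.range (H + 1), K b := ⟨_, rfl⟩
  obtain ⟨B, hB⟩ := exists_nat_ge (8 * (2 * (Cm : ℝ) + 3 * κm * (2 * H + 1)) / d)
  refine ⟨max (B + 1) (κm * (2 * H + 1) * (Km + 1)), fun m n hnm hL => ?_⟩
  obtain ⟨L, hLd⟩ : ∃ L, L = m + n := ⟨_, rfl⟩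
  rw [← hLd] at hL
  have hL1 : B + 1 ≤ L := (le_max_left _ _).trans hL
  have hL2 : κm * (2 * H + 1) * (Km + 1) ≤ L := (le_max_right _ _).trans hL
  have hL0 : 0 < L := by omega
  -- the direction
  obtain ⟨b, hbd⟩ : ∃ b, b = max (n * (2 * H + 1) / L) 1 := ⟨_, rfl⟩
  have hb1 : 1 ≤ b := by rw [hbd]; exact le_max_right _ _
  have hb2 : b ≤ H := by
    rw [hbd, max_le_iff]
    refine ⟨?_, hH1⟩
    have : n * (2 * H + 1) / L < H + 1 := by
      rw [Nat.div_lt_iff_lt_mul hL0]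
      have : 2 * n ≤ L := by omega
      nlinarith
    omega
  obtain ⟨d1, d2, d3⟩ := hdat b hb1 hb2
  have hbm : b ∈ Finset.range (H + 1) := Finset.mem_range.2 (by omega)
  have k1 : κ b ≤ κm := by
    rw [hκm]
    exact Finset.single_le_sum (f := κ) (fun _ _ => Nat.zero_le _) hbm
  have k2 : C0 b ≤ Cm := by
    rw [hCm]
    exact Finset.single_le_sum (f := C0) (fun _ _ => Nat.zero_le _) hbm
  have k3 : K b ≤ Km := by
    rw [hKm]
    exact Finset.single_le_sum (f := K) (fun _ _ => Nat.zero_le _) hbm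
  -- the number
  obtain ⟨k, hk⟩ : ∃ k, k = L / (κ b * (2 * H + 1)) := ⟨_, rfl⟩
  have hp : 0 < κ b * (2 * H + 1) := by positivity
  have hk1 : κ b * (2 * H + 1) * k ≤ L := by
    rw [hk]
    exact Nat.mul_div_le _ _
  have hk2 : L < κ b * (2 * H + 1) * (k + 1) := by
    rw [hk]
    exact Nat.lt_mul_div_succ _ hp
  have hkK : K b ≤ k := by
    by_contra hcon
    push Not at hcon
    have h1 : κ b * (2 * H + 1) * (k + 1) ≤ κm * (2 * H + 1) * (Km + 1) :=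
      Nat.mul_le_mul (Nat.mul_le_mul_right _ k1) (by omega)
    omega
  refine ⟨M b k, N b k, d3 k hkK, ?_⟩
  obtain ⟨e1, e2⟩ := d2 k
  -- real numbers
  obtain ⟨h0, hh⟩ : ∃ h0 : ℝ, h0 = 2 * H + 1 := ⟨_, rfl⟩
  obtain ⟨Lr, hLr⟩ : ∃ Lr : ℝ, Lr = L := ⟨_, rfl⟩
  obtain ⟨nr, hnr⟩ : ∃ nr : ℝ, nr = n := ⟨_, rfl⟩
  obtain ⟨mr, hmr⟩ : ∃ mr : ℝ, mr = m := ⟨_, rfl⟩
  obtain ⟨br, hbr⟩ : ∃ br : ℝ, br = b := ⟨_, rfl⟩
  obtain ⟨kr, hkr⟩ : ∃ kr : ℝ, kr = κ b * k := ⟨_, rfl⟩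
  have hh1 : 1 ≤ h0 := by
    rw [hh]
    have : (0 : ℝ) ≤ H := Nat.cast_nonneg _
    linarith
  have hLp : 0 < Lr := by rw [hLr]; exact_mod_cast hL0
  have hsum : Lr = mr + nr := by rw [hLr, hmr, hnr, hLd]; push_cast; ring
  have hnn : 0 ≤ nr := by rw [hnr]; positivity
  have hmm : 0 ≤ mr := by rw [hmr]; positivity
  have hkr0 : 0 ≤ kr := by rw [hkr]; positivity
  have g1 : kr * h0 ≤ Lr := by
    rw [hkr, hh, hLr]
    have : ((κ b * (2 * H + 1) * k : ℕ) : ℝ) ≤ L := by exact_mod_cast hk1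
    push_cast at this
    linarith
  have g2 : Lr ≤ kr * h0 + κm * h0 := by
    rw [hkr, hh, hLr]
    have h1 : (L : ℝ) ≤ ((κ b * (2 * H + 1) * (k + 1) : ℕ) : ℝ) := by exact_mod_cast hk2.le
    have h2 : ((κ b : ℕ) : ℝ) ≤ κm := by exact_mod_cast k1
    have h3 : (κ b : ℝ) * (2 * H + 1) ≤ κm * (2 * H + 1) := mul_le_mul_of_nonneg_right h2 (by positivity)
    push_cast at h1
    linarith
  -- |b / h0 - n / L| <= 1 / h0
  have g3 : |br * Lr - nr * h0| ≤ Lr := by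
    have h1 : n * (2 * H + 1) / L * L ≤ n * (2 * H + 1) := Nat.div_mul_le_self _ _
    have h2 : n * (2 * H + 1) < (n * (2 * H + 1) / L + 1) * L :=
      (Nat.lt_mul_div_succ (n * (2 * H + 1)) hL0).trans_eq (mul_comm _ _)
    obtain ⟨Q, hQ⟩ : ∃ Q, Q = n * (2 * H + 1) / L := ⟨_, rfl⟩
    rw [← hQ] at h1 h2 hbd
    have h1' : (Q : ℝ) * L ≤ n * (2 * H + 1) := by exact_mod_cast h1
    have h2' : (n : ℝ) * (2 * H + 1) < ((Q : ℝ) + 1) * L := by exact_mod_cast h2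
    rw [abs_le, hbr, hLr, hnr, hh]
    rcases Nat.lt_or_ge Q 1 with h3 | h3
    · have h4 : Q = 0 := by omega
      have h5 : b = 1 := by rw [hbd, h4]; rfl
      rw [h4] at h1' h2'
      rw [h5]
      push_cast at h1' h2' ⊢
      have h6 : (0 : ℝ) ≤ (n : ℝ) * (2 * H + 1) := by positivity
      constructor <;> linarith
    · have h5 : b = Q := by rw [hbd]; exact max_eq_left h3
      rw [h5]
      have h6 : (0 : ℝ) ≤ L := Nat.cast_nonneg _
      constructor <;> linarith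
  have g4 : |kr * br - nr| ≤ Lr / h0 + κm * h0 := by
    have e3 : kr * br - nr = kr * h0 / Lr * ((br * Lr - nr * h0) / h0) - nr / Lr * (Lr - kr * h0) := by
      field_simp
      ring
    rw [e3]
    refine (abs_sub _ _).trans ?_
    have h1 : |kr * h0 / Lr * ((br * Lr - nr * h0) / h0)| ≤ 1 * (Lr / h0) := by
      rw [abs_mul]
      refine mul_le_mul ?_ ?_ (abs_nonneg _) (by norm_num)
      · rw [abs_of_nonneg (by positivity), div_le_one hLp]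
        exact g1
      · rw [abs_div, abs_of_pos (by linarith : 0 < h0)]
        exact div_le_div_of_nonneg_right g3 (by linarith)
    have h2 : |nr / Lr * (Lr - kr * h0)| ≤ 1 * (κm * h0) := by
      rw [abs_mul]
      refine mul_le_mul ?_ ?_ (abs_nonneg _) (by norm_num)
      · rw [abs_of_nonneg (by positivity), div_le_one hLp]
        linarith
      · rw [abs_of_nonneg (by linarith)]
        linarith
    linarith
  have g5 : |kr * (h0 - br) - mr| ≤ Lr / h0 + 2 * (κm * h0) := by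
    have e3 : kr * (h0 - br) - mr = -(Lr - kr * h0) - (kr * br - nr) := by
      rw [hsum]
      ring
    rw [e3]
    refine (abs_sub _ _).trans ?_
    rw [abs_neg, abs_of_nonneg (by linarith : 0 ≤ Lr - kr * h0)]
    linarith
  have c1 : |(N b k : ℝ) - n| ≤ Cm + (Lr / h0 + κm * h0) := by
    have h1 : |(N b k : ℝ) - n| ≤ |(N b k : ℝ) - κ b * k * b| + |kr * br - nr| := by
      have e3 : (N b k : ℝ) - n = ((N b k : ℝ) - κ b * k * b) + (kr * br - nr) := by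
        rw [hkr, hbr, hnr]
        ring
      rw [e3]
      exact abs_add_le _ _
    have h2 : ((C0 b : ℕ) : ℝ) ≤ Cm := by exact_mod_cast k2
    linarith
  have c2 : |(M b k : ℝ) - m| ≤ Cm + (Lr / h0 + 2 * (κm * h0)) := by
    have e4 : ((2 * H + 1 - b : ℕ) : ℝ) = h0 - br := by
      rw [hh, hbr, Nat.cast_sub (by omega)]
      push_cast
      ring
    rw [e4] at e1
    have h1 : |(M b k : ℝ) - m| ≤ |(M b k : ℝ) - κ b * k * (h0 - br)| + |kr * (h0 - br) - mr| := by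
      have e3 : (M b k : ℝ) - m = ((M b k : ℝ) - κ b * k * (h0 - br)) + (kr * (h0 - br) - mr) := by
        rw [hkr, hmr]
        ring
      rw [e3]
      exact abs_add_le _ _
    have h2 : ((C0 b : ℕ) : ℝ) ≤ Cm := by exact_mod_cast k2
    linarith
  -- the distance
  have h8 : 8 / d ≤ h0 := by
    rw [hh]
    have : (0 : ℝ) ≤ H := Nat.cast_nonneg _
    linarith
  have h8' : 8 ≤ d * h0 := by
    rw [div_le_iff₀ hd] at h8
    linarith
  have h9 : Lr / h0 ≤ d * Lr / 8 := by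
    rw [div_le_iff₀ (by linarith)]
    nlinarith
  have h10 : 8 * (2 * (Cm : ℝ) + 3 * κm * h0) ≤ d * Lr := by
    have h1 : 8 * (2 * (Cm : ℝ) + 3 * κm * (2 * H + 1)) / d ≤ Lr := by
      refine hB.trans ?_
      rw [hLr]
      exact_mod_cast (by omega : B ≤ L)
    rw [div_le_iff₀ hd] at h1
    rw [hh]
    linarith
  refine (pt_sub _ _ _ _).trans ?_
  rw [abs_sub_comm, abs_sub_comm (n : ℝ)]
  have h11 := norm_pt_ge m n
  have h12 : (m : ℝ) + n = Lr := by rw [hsum, hmr, hnr]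
  rw [h12] at h11
  have h13 : d * (3 / 2 * Lr) ≤ d * ‖pt 0 m n‖ := mul_le_mul_of_nonneg_left h11 hd.le
  linarith

/-- **all directions** -/
theorem all_dir {A : ℝ} (hA : 0 < A) (hz : 0 ≤ zc) (h : ∀ a b : ℕ, 1 ≤ b → b < a → DirLim A a b) (hR : RV) :
    ∀ ε : ℝ, 0 < ε → ∃ δ : ℝ, 0 < δ ∧ ∀ x ∈ vertices, 1 / δ ≤ ‖x‖ → |G zc x * ‖x‖ ^ (5 / 24 : ℝ) - A| ≤ ε := by
  intro ε hε
  obtain ⟨η, hη⟩ : ∃ η : ℝ, η = min 1 (ε / (3 * A + 4)) := ⟨_, rfl⟩
  have hη0 : 0 < η := by rw [hη]; exact lt_min one_pos (by positivity)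
  have hη1 : η ≤ 1 := by rw [hη]; exact min_le_left _ _
  have hη2 : η * (3 * A + 4) ≤ ε := by
    have : η ≤ ε / (3 * A + 4) := by rw [hη]; exact min_le_right _ _
    rwa [le_div_iff₀ (by positivity)] at this
  obtain ⟨d, hd, hd1, hs⟩ := slow hz hR hη0 hη1
  obtain ⟨L0, hL⟩ := grid h hη0 (half_pos hd)
  obtain ⟨D, hD⟩ : ∃ D : ℝ, D = 4 / d + 4 * L0 + 4 := ⟨_, rfl⟩
  have hD0 : 0 < D := by rw [hD]; positivity
  refine ⟨D⁻¹, inv_pos.2 hD0, fun x hx hxD => ?_⟩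
  rw [one_div, inv_inv] at hxD
  have hdp : 0 < 4 / d := by positivity
  have hL0 : (0 : ℝ) ≤ L0 := Nat.cast_nonneg _
  obtain ⟨v, hv, hvx⟩ := near hx
  obtain ⟨j, m, n, hjmn⟩ := pt_of hv
  have h1 : ‖x‖ - 1 ≤ ‖JJ v‖ := by
    have := norm_sub_norm_le x (JJ v)
    linarith
  have h2 : 1 / d ≤ ‖JJ v‖ := by
    have : 4 / d = 4 * (1 / d) := by ring
    have h3 : 0 < 1 / d := by positivity
    linarith
  have h3 : |FF x - FF (JJ v)| ≤ η * FF (JJ v) := by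
    refine hs _ (vert_JJ hv) _ hx h2 (hvx.trans ?_)
    rw [div_le_iff₀ hd] at h2
    linarith
  -- the reduction to one sector
  have h4 : ∃ m' n' : ℕ, n' ≤ m' ∧ FF (JJ v) = FF (pt 0 m' n') ∧ ‖JJ v‖ = ‖pt 0 m' n'‖ := by
    have h5 : ‖pt j m n‖ = ‖pt 0 m n‖ := by rw [norm_pt, norm_pt]
    have h6 : ‖pt 0 m n‖ = ‖pt 0 n m‖ := by
      rw [norm_pt, norm_pt]
      congr 2
      ring
    rcases le_total n m with h7 | h7
    · refine ⟨m, n, h7, ?_, ?_⟩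
      · unfold FF
        rw [hjmn, G_pt, h5]
      · rw [hjmn, h5]
    · refine ⟨n, m, h7, ?_, ?_⟩
      · unfold FF
        rw [hjmn, G_pt, h5, h6, G_swap]
      · rw [hjmn, h5, h6]
  obtain ⟨m', n', h5, h6, h7⟩ := h4
  have h8 : L0 ≤ m' + n' := by
    by_contra hcon
    push Not at hcon
    have h9 : ‖pt 0 m' n'‖ ≤ 2 * ((m' : ℝ) + n') := by
      have := pt_sub m' n' 0 0
      have e : pt 0 0 0 = 0 := by unfold pt; simp
      rw [e, sub_zero] at this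
      simpa [abs_of_nonneg] using this
    have h10 : ((m' : ℝ) + n') ≤ L0 := by exact_mod_cast hcon.le
    rw [← h7] at h9
    linarith
  obtain ⟨M, N, h9, h10⟩ := hL m' n' h5 h8
  obtain ⟨P, hP⟩ : ∃ P, P = ‖pt 0 m' n'‖ := ⟨_, rfl⟩
  rw [h7] at h2
  rw [← hP] at h10 h2
  have h11 : P / 2 ≤ ‖pt 0 M N‖ := by
    have h12 := norm_sub_norm_le (pt 0 m' n') (pt 0 M N)
    rw [← hP] at h12
    have h13 : d / 2 * P ≤ P / 2 := by
      have : 0 ≤ P := by rw [hP]; positivity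
      nlinarith
    linarith
  have hP0 : 0 < P := lt_of_lt_of_le (by positivity) h2
  have hv0 : pt 0 M N ∈ vertices := by
    rw [pt_zero]
    exact vert_JJ (by simp only; omega)
  have hv1 : pt 0 m' n' ∈ vertices := by
    rw [pt_zero]
    exact vert_JJ (by simp only; omega)
  have h12 : |FF (pt 0 m' n') - FF (pt 0 M N)| ≤ η * FF (pt 0 M N) := by
    refine hs _ hv0 _ hv1 ?_ ?_
    · have h13 : 2 / d ≤ P := by
        rw [hP, ← h7]
        have : 4 / d = 2 * (2 / d) := by ring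
        have h3 : 0 < 2 / d := by positivity
        linarith
      have e : 1 / d = (2 / d) / 2 := by ring
      rw [e]
      linarith
    · have : d * (P / 2) ≤ d * ‖pt 0 M N‖ := mul_le_mul_of_nonneg_left h11 hd.le
      linarith
  have n1 := FF_nn hz (pt 0 M N)
  have n2 := FF_nn hz (pt 0 m' n')
  rw [h6] at h3
  show |FF x - A| ≤ ε
  have a1 := abs_le.1 h9
  have a2 := abs_le.1 h12
  have a3 := abs_le.1 h3
  have b1 : FF (pt 0 M N) ≤ A + 1 := by linarith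
  have b2 : η * FF (pt 0 M N) ≤ η * (A + 1) := mul_le_mul_of_nonneg_left b1 hη0.le
  have b3 : FF (pt 0 m' n') ≤ 2 * (A + 1) := by nlinarith
  have b4 : η * FF (pt 0 m' n') ≤ η * (2 * (A + 1)) := mul_le_mul_of_nonneg_left b3 hη0.le
  rw [abs_le]
  constructor <;> linarith

end Pool.Agent.THJ
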