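import Pool.Agent.PLC.EndF
import Pool.Agent.PLN.DirF

/-!
# TH-J: the walks between two mid-edges that are translates, by the first and the last directions (helper62)

As `PLN/Two` and `PLC/EndF` (helper47), the end arbitrary: `PX_ends`: for `3 ∣ x.1 - x.2`, `x ≠ 0`,
`gf (PX (up + x) (-up)) = xc * ends xc (JJ (-x.2, x.1 + x.2)) 1 {W 0 ≠ 2} {W 0 ≠ 2}`.
-/

set_option autoImplicit false

open scoped Classical

namespace Pool.Agent.THJ

open Pool.Agent.IW.Res Pool.Agent.PLC.Res Finset
open HexObs (Pt oo up dx vx vx_succ turn rotL cl dirs cl_dx dx_mem dx_succ tf SawN xc xc_pos)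
open HexObs.PLN (FS dx_eq_sub gf_im)
open HexObs.DirT (PX)
open HexObs (gf wE)
open NTF (JJ sw aa)
open Pool.Agent.PLC.F1 (even_FS card_FS cj cj_cj cj_saw pos_cj cj_inj w3_ne)
open scoped ENNReal

/-! ### words -/

/-- the end of the rest of a word with the first turn to the right -/
def yR (x : Pt) : Pt := (-x.2, x.1 + x.2)

/-- the end of the rest of a word with the first turn to the left -/
def yL (x : Pt) : Pt := (-x.1 - x.2, x.2)

theorem PX_fr (x : Pt) (s : List Bool) : false :: s ∈ PX (up + x) (-up) ↔ s ∈ FS (1, -1) (yR x) := by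
  have hl : (false :: s).length = s.length + 1 := List.length_cons
  have hv : ∀ i, vx oo up (false :: s) (i + 1) = up + ((vx oo up s i).1 + (vx oo up s i).2, -(vx oo up s i).1) :=
    fun i => HexObs.TPC.vx_fr s i
  have hd : dx up (false :: s) (false :: s).length =
      ((dx up s s.length).1 + (dx up s s.length).2, -(dx up s s.length).1) := by
    rw [dx_eq_sub, hl, hv, hv, dx_eq_sub s]
    refine Prod.ext ?_ ?_ <;> simp only [Prod.fst_add, Prod.snd_add, Prod.fst_sub, Prod.snd_sub] <;> ring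
  constructor
  · rintro ⟨h1, h2, h3, h4⟩
    refine ⟨⟨fun i _ _ => Set.mem_univ _, fun i j hij hj he => ?_⟩, ?_, ?_⟩
    · refine h2 (i + 1) (j + 1) (by omega) (by omega) (by omega) ?_
      rw [hv, hv, he]
    · rw [hl, hv] at h3
      have h5 := add_left_cancel h3
      have h6 := congrArg Prod.fst h5
      have h7 := congrArg Prod.snd h5
      simp only at h6 h7
      refine Prod.ext ?_ ?_ <;> simp only [HexObs.TIW.en, yR] <;> omega
    · rw [hd, show (-up : Pt) = (0, -1) from rfl] at h4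
      have h6 := congrArg Prod.fst h4
      have h7 := congrArg Prod.snd h4
      simp only at h6 h7
      refine Prod.ext ?_ ?_ <;> simp only [HexObs.TIW.de] <;> omega
  · rintro ⟨⟨-, h2⟩, h3, h4⟩
    refine ⟨by omega, fun i j hi hij hj he => ?_, ?_, ?_⟩
    · obtain ⟨i, rfl⟩ := Nat.exists_eq_add_of_le' hi
      obtain ⟨j, rfl⟩ : ∃ j', j = j' + 1 := ⟨j - 1, by omega⟩
      rw [hv, hv] at he
      have h5 := add_left_cancel he
      have h6 := congrArg Prod.fst h5
      have h7 := congrArg Prod.snd h5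
      simp only at h6 h7
      refine h2 i j (by omega) (by omega) (Prod.ext ?_ ?_) <;> omega
    · rw [hl, hv]
      have h5 : vx oo up s s.length = yR x := h3
      rw [h5]
      refine congrArg _ (Prod.ext ?_ ?_) <;> simp only [yR] <;> ring
    · rw [hd]
      have h5 : dx up s s.length = (1, -1) := h4
      rw [h5]
      rfl

theorem PX_fl (x : Pt) (s : List Bool) : true :: s.map not ∈ PX (up + x) (-up) ↔ s ∈ FS (1, -1) (yL x) := by
  have hl : (true :: s.map not).length = s.length + 1 := by rw [List.length_cons, List.length_map]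
  have hv : ∀ i, i ≤ s.length + 1 → vx oo up (true :: s.map not) (i + 1) =
      up + (-((vx oo up s i).1 + (vx oo up s i).2), (vx oo up s i).2) := by
    intro i hi
    have h := HexObs.TPC.vx_fl (s.map not) (i := i) (by rw [List.length_map]; exact hi)
    rw [HexObs.map_not_not] at h
    exact h
  have hd : dx up (true :: s.map not) (true :: s.map not).length =
      (-((dx up s s.length).1 + (dx up s s.length).2), (dx up s s.length).2) := by
    rw [dx_eq_sub, hl, hv _ le_rfl, hv _ (by omega), dx_eq_sub s]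
    refine Prod.ext ?_ ?_ <;> simp only [Prod.fst_add, Prod.snd_add, Prod.fst_sub, Prod.snd_sub] <;> ring
  constructor
  · rintro ⟨h1, h2, h3, h4⟩
    refine ⟨⟨fun i _ _ => Set.mem_univ _, fun i j hij hj he => ?_⟩, ?_, ?_⟩
    · refine h2 (i + 1) (j + 1) (by omega) (by omega) (by omega) ?_
      rw [hv i (by omega), hv j (by omega), he]
    · rw [hl, hv _ (by omega)] at h3
      have h5 := add_left_cancel h3
      have h6 := congrArg Prod.fst h5
      have h7 := congrArg Prod.snd h5
      simp only at h6 h7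
      refine Prod.ext ?_ ?_ <;> simp only [HexObs.TIW.en, yL] <;> omega
    · rw [hd, show (-up : Pt) = (0, -1) from rfl] at h4
      have h6 := congrArg Prod.fst h4
      have h7 := congrArg Prod.snd h4
      simp only at h6 h7
      refine Prod.ext ?_ ?_ <;> simp only [HexObs.TIW.de] <;> omega
  · rintro ⟨⟨-, h2⟩, h3, h4⟩
    refine ⟨by omega, fun i j hi hij hj he => ?_, ?_, ?_⟩
    · obtain ⟨i, rfl⟩ := Nat.exists_eq_add_of_le' hi
      obtain ⟨j, rfl⟩ : ∃ j', j = j' + 1 := ⟨j - 1, by omega⟩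
      rw [hl] at hj
      rw [hv i (by omega), hv j (by omega)] at he
      have h5 := add_left_cancel he
      have h6 := congrArg Prod.fst h5
      have h7 := congrArg Prod.snd h5
      simp only at h6 h7
      refine h2 i j (by omega) (by omega) (Prod.ext ?_ ?_) <;> omega
    · rw [hl, hv _ (by omega)]
      have h5 : vx oo up s s.length = yL x := h3
      rw [h5]
      refine congrArg _ (Prod.ext ?_ ?_) <;> simp only [yL] <;> ring
    · rw [hd]
      have h5 : dx up s s.length = (1, -1) := h4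
      rw [h5]
      rfl

/-- **the two-point function by words from vertex to vertex** -/
theorem PX_eq (x : Pt) : gf (PX (up + x) (-up)) = ENNReal.ofReal xc * (gf (FS (1, -1) (yL x)) + gf (FS (1, -1) (yR x))) := by
  have hw1 : ∀ t : List Bool, wE (false :: t) = ENNReal.ofReal xc * wE t := by
    intro t
    unfold wE
    rw [← ENNReal.ofReal_mul xc_pos.le, List.length_cons, pow_succ, mul_comm]
  have hw2 : ∀ t : List Bool, wE (true :: t.map not) = ENNReal.ofReal xc * wE t := by
    intro t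
    unfold wE
    rw [← ENNReal.ofReal_mul xc_pos.le, List.length_cons, List.length_map, pow_succ, mul_comm]
  have hi1 : Function.Injective fun t : List Bool => false :: t := fun a b h => (List.cons.inj h).2
  have hi2 : Function.Injective fun t : List Bool => true :: t.map not := by
    intro a b h
    have e' := congrArg (List.map not) (List.cons.inj h).2
    rw [HexObs.map_not_not, HexObs.map_not_not] at e'
    exact e'
  have hP : PX (up + x) (-up) = (fun t : List Bool => true :: t.map not) '' FS (1, -1) (yL x) ∪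
      (fun t : List Bool => false :: t) '' FS (1, -1) (yR x) := by
    ext t
    constructor
    · intro ht
      rcases t with _ | ⟨b, s⟩
      · have := ht.1
        simp at this
      · cases b
        · exact Or.inr ⟨s, (PX_fr x s).1 ht, rfl⟩
        · refine Or.inl ⟨s.map not, (PX_fl x _).1 ?_, ?_⟩
          · rw [HexObs.map_not_not]
            exact ht
          · show true :: (s.map not).map not = true :: s
            rw [HexObs.map_not_not]
    · rintro (⟨s, hs, rfl⟩ | ⟨s, hs, rfl⟩)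
      · exact (PX_fl x s).2 hs
      · exact (PX_fr x s).2 hs
  have hdis : Disjoint ((fun t : List Bool => true :: t.map not) '' FS (1, -1) (yL x))
      ((fun t : List Bool => false :: t) '' FS (1, -1) (yR x)) := by
    rw [Set.disjoint_left]
    rintro _ ⟨s, -, rfl⟩ ⟨s', -, h⟩
    have := (List.cons.inj h).1
    exact absurd this (by decide)
  rw [hP, mul_add, ← gf_im _ hi2 hw2, ← gf_im _ hi1 hw1]
  unfold gf
  exact ENNReal.summable.tsum_union_disjoint hdis ENNReal.summable

/-! ### walks -/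

lemma w3_val : PLC.E1D.w3 = ⟨-(1 / 2), √3 / 2⟩ := by
  unfold PLC.E1D.w3
  have e2 : 2 * Real.pi / 3 = Real.pi - Real.pi / 3 := by ring
  rw [show 2 * (Real.pi : ℂ) * Complex.I / 3 = ((2 * Real.pi / 3 : ℝ) : ℂ) * Complex.I by
    push_cast
    ring]
  apply Complex.ext
  · rw [Complex.exp_ofReal_mul_I_re, e2, Real.cos_pi_sub, Real.cos_pi_div_three]
  · rw [Complex.exp_ofReal_mul_I_im, e2, Real.sin_pi_sub, Real.sin_pi_div_three]

/-- the points of the triangular lattice -/
lemma JJ_w3 (v : Pt) : JJ v = (v.2 : ℂ) + ((-v.1 : ℤ) : ℂ) * PLC.E1D.w3 := by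
  rw [w3_val]
  apply Complex.ext
  · rw [NTF.JJ_re, Complex.add_re, Complex.mul_re]
    simp only [Complex.intCast_re, Complex.intCast_im]
    push_cast
    ring
  · rw [NTF.JJ_im, Complex.add_im, Complex.mul_im]
    simp only [Complex.intCast_re, Complex.intCast_im]
    push_cast
    ring

lemma JJ_mirror (y : Pt) : JJ (-y.2, -y.1) = PLC.E1D.w3 * (starRingEnd ℂ) (JJ y) := by
  have h3 : (√3 : ℝ) * √3 = 3 := Real.mul_self_sqrt (by norm_num)
  rw [w3_val]
  apply Complex.ext
  · rw [Complex.mul_re, Complex.conj_re, Complex.conj_im, NTF.JJ_re, NTF.JJ_re, NTF.JJ_im]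
    push_cast
    linear_combination ((y.1 : ℝ) / 4) * h3
  · rw [Complex.mul_im, Complex.conj_re, Complex.conj_im, NTF.JJ_re, NTF.JJ_im, NTF.JJ_im]
    push_cast
    ring

/-- a walk to a vertex of the class of the origin has an even number of steps -/
lemma even_end {n : ℕ} (s : Fin n → Fin 3) {y : Pt} (hy : 3 ∣ y.1 - y.2) (h : pos s n = JJ y) : Even n := by
  obtain ⟨a, b, h1, h2⟩ := PLC.E1D.pos_cls s n le_rfl
  rw [h1, JJ_w3] at h
  obtain ⟨e1, e2⟩ := PLC.E1D.int_inj h
  rw [e1, e2] at h2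
  by_contra hcon
  rw [Nat.even_iff] at hcon
  rw [if_neg hcon] at h2
  omega

/-- the walks of the sum `ends` -/
lemma ends_card {n : ℕ} (hn : 0 < n) (y : Pt) :
    ((saw n).filter (fun s => pos s n = JJ y ∧ ∃ h : 1 ≤ n,
      (fun i : Fin 1 => s (Fin.castLE h i)) ∈ {W : Fin 1 → Fin 3 | W 0 ≠ 2} ∧
      (fun i : Fin 1 => s (Fin.rev (Fin.castLE h i))) ∈ {W : Fin 1 → Fin 3 | W 0 ≠ 2})).card =
    ((saw n).filter fun s => pos s n = JJ y ∧ s ⟨0, hn⟩ = 0 ∧ s ⟨n - 1, by omega⟩ ≠ 2).card +
    ((saw n).filter fun s => pos s n = JJ (-y.2, -y.1) ∧ s ⟨0, hn⟩ = 0 ∧ s ⟨n - 1, by omega⟩ ≠ 2).card := by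
  have h1 : ((saw n).filter fun s => pos s n = JJ (-y.2, -y.1) ∧ s ⟨0, hn⟩ = 0 ∧ s ⟨n - 1, by omega⟩ ≠ 2).card =
      ((saw n).filter fun s => pos s n = JJ y ∧ s ⟨0, hn⟩ = 1 ∧ s ⟨n - 1, by omega⟩ ≠ 2).card := by
    have a1 : ∀ a : Fin 3, a = 0 → 1 - a = 1 := by decide
    have a2 : ∀ a : Fin 3, a = 1 → 1 - a = 0 := by decide
    have a3 : ∀ a : Fin 3, a ≠ 2 → 1 - a ≠ 2 := by decide
    refine card_nbij' cj cj ?_ ?_ (fun s _ => cj_cj s) (fun s _ => cj_cj s)
    · intro s hs
      rw [mem_coe, mem_filter] at hs ⊢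
      obtain ⟨h1, h2, h3, h4⟩ := hs
      refine ⟨cj_saw h1, ?_, a1 _ h3, a3 _ h4⟩
      have h5 := pos_cj (cj s) n
      rw [cj_cj, h2, JJ_mirror] at h5
      exact ((starRingEnd ℂ).injective (mul_left_cancel₀ w3_ne h5)).symm
    · intro s hs
      rw [mem_coe, mem_filter] at hs ⊢
      obtain ⟨h1, h2, h3, h4⟩ := hs
      refine ⟨cj_saw h1, ?_, a2 _ h3, a3 _ h4⟩
      rw [pos_cj, h2, JJ_mirror]
  rw [h1, ← card_union_of_disjoint]
  · congr 1
    ext s
    rw [mem_filter, mem_union, mem_filter, mem_filter]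
    have e2 : ∀ h : 1 ≤ n, s (Fin.rev (Fin.castLE h (0 : Fin 1))) = s ⟨n - 1, by omega⟩ := fun h => by
      congr 1
    have e0 : ∀ h : 1 ≤ n, s (Fin.castLE h (0 : Fin 1)) = s ⟨0, hn⟩ := fun h => rfl
    have a1 : ∀ a : Fin 3, a ≠ 2 ↔ a = 0 ∨ a = 1 := by decide
    constructor
    · rintro ⟨h2, h3, h, h4, h5⟩
      have h4' : s (Fin.castLE h (0 : Fin 1)) ≠ 2 := h4
      have h5' : s (Fin.rev (Fin.castLE h (0 : Fin 1))) ≠ 2 := h5
      rw [e0, a1] at h4'
      rw [e2] at h5'
      rcases h4' with h6 | h6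
      · exact Or.inl ⟨h2, h3, h6, h5'⟩
      · exact Or.inr ⟨h2, h3, h6, h5'⟩
    · rintro (⟨h2, h3, h4, h5⟩ | ⟨h2, h3, h4, h5⟩)
      · refine ⟨h2, h3, hn, ?_, ?_⟩
        · show s (Fin.castLE hn (0 : Fin 1)) ≠ 2
          rw [e0, h4]
          decide
        · show s (Fin.rev (Fin.castLE hn (0 : Fin 1))) ≠ 2
          rw [e2]
          exact h5
      · refine ⟨h2, h3, hn, ?_, ?_⟩
        · show s (Fin.castLE hn (0 : Fin 1)) ≠ 2
          rw [e0, h4]
          decide
        · show s (Fin.rev (Fin.castLE hn (0 : Fin 1))) ≠ 2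
          rw [e2]
          exact h5
  · rw [disjoint_left]
    intro s hs hs'
    rw [mem_filter] at hs hs'
    rw [hs.2.2.1] at hs'
    exact absurd hs'.2.2.1 (by decide)

/-- **the two-point function of the plane between two mid-edges that are translates** -/
theorem PX_ends {x : Pt} (hx : 3 ∣ x.1 - x.2) (hx0 : x ≠ 0) : (gf (PX (up + x) (-up))).toReal =
    xc * ends xc (JJ (yR x)) 1 {W | W 0 ≠ 2} {W | W 0 ≠ 2} := by
  have hne : x.1 ≠ 0 ∨ x.2 ≠ 0 := by
    by_contra hcon
    push Not at hcon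
    exact hx0 (Prod.ext hcon.1 hcon.2)
  have hy : 3 ∣ (yR x).1 - (yR x).2 := by
    simp only [yR]
    omega
  have hm : yL x = (-(yR x).2, -(yR x).1) := by
    refine Prod.ext ?_ ?_ <;> simp only [yL, yR] <;> ring
  have hkey : gf (FS (1, -1) (yL x)) + gf (FS (1, -1) (yR x)) =
      ∑' n : ℕ, (((saw n).filter (fun s => pos s n = JJ (yR x) ∧ ∃ h : 1 ≤ n,
      (fun i : Fin 1 => s (Fin.castLE h i)) ∈ {W : Fin 1 → Fin 3 | W 0 ≠ 2} ∧
      (fun i : Fin 1 => s (Fin.rev (Fin.castLE h i))) ∈ {W : Fin 1 → Fin 3 | W 0 ≠ 2})).card : ℝ≥0∞) *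
        ENNReal.ofReal (xc ^ n) := by
    rw [NTF.gf_lengths, NTF.gf_lengths (FS (1, -1) (yR x)), ← ENNReal.tsum_add]
    refine tsum_congr fun n => ?_
    rw [NTF.gf_card (n := n) fun t ht => ht.2, NTF.gf_card (n := n) fun t ht => ht.2, ← add_mul]
    congr 1
    rcases Nat.eq_zero_or_pos n with h0 | hn
    · subst h0
      have e1 : ∀ y : Pt, y ≠ oo → {t | t ∈ FS (1, -1) y ∧ t.length = 0} = ∅ := by
        intro y hy
        rw [Set.eq_empty_iff_forall_notMem]
        rintro t ⟨⟨_, h2, _⟩, h3⟩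
        apply hy
        rw [List.length_eq_zero_iff] at h3
        rw [h3] at h2
        exact h2.symm
      rw [e1 _ (by
          intro h
          have h1 := congrArg Prod.fst h
          have h2 := congrArg Prod.snd h
          simp only [oo, yL] at h1 h2
          omega),
        e1 _ (by
          intro h
          have h1 := congrArg Prod.fst h
          have h2 := congrArg Prod.snd h
          simp only [oo, yR] at h1 h2
          omega), Set.ncard_empty, filter_false_of_mem]
      · simp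
      · rintro s _ ⟨_, h, _⟩
        exact absurd h (by norm_num)
    rcases Nat.even_or_odd n with hev | hod
    · rw [card_FS hn hev, card_FS hn hev, ends_card hn, hm]
      push_cast
      ring
    · have e1 : ∀ y : Pt, {t | t ∈ FS (1, -1) y ∧ t.length = n} = ∅ := by
        intro y
        rw [Set.eq_empty_iff_forall_notMem]
        rintro t ⟨h2, h3⟩
        have := even_FS h2
        rw [h3] at this
        exact (Nat.not_even_iff_odd.2 hod) this
      rw [e1, e1, Set.ncard_empty, filter_false_of_mem]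
      · simp
      · rintro s _ ⟨h, _⟩
        exact (Nat.not_even_iff_odd.2 hod) (even_end s hy h)
  rw [PX_eq, hkey, ENNReal.toReal_mul, ENNReal.toReal_ofReal xc_pos.le, ENNReal.tsum_toReal_eq fun n => ?_]
  · unfold ends
    congr 1
    refine tsum_congr fun n => ?_
    rw [ENNReal.toReal_mul, ENNReal.toReal_natCast, ENNReal.toReal_ofReal (pow_nonneg xc_pos.le n)]
    congr!
  · exact ENNReal.mul_ne_top (ENNReal.natCast_ne_top _) ENNReal.ofReal_ne_top

/-- the distance -/
theorem JJ_norm_sq (v : Pt) : ‖JJ v‖ ^ 2 = (v.1 : ℝ) ^ 2 + v.1 * v.2 + (v.2 : ℝ) ^ 2 := by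
  have h3 : (√3 : ℝ) * √3 = 3 := Real.mul_self_sqrt (by norm_num)
  rw [← Complex.normSq_eq_norm_sq, Complex.normSq_apply, NTF.JJ_re, NTF.JJ_im]
  linear_combination ((v.1 : ℝ) ^ 2 / 4) * h3

end Pool.Agent.THJ
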