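import Pool.Agent.THJ.Of
import Pool.Agent.PLX.Rows

/-!
# TH-J: the two-point function of a staircase is the limit of the gas (helper62)

`phS x S j`: the rapidity of the row `j` with the common shift `x`: `x` for a normal row, `x + lam` for a mirrored one.
`RRS`: the gas of two cut rows, `N - 1 - r` full lines above and `r - 1` full lines below, at generic lines tending to the
rapidities `phS x S`, tends to `BDS S N ^ 2 * WPS S h`.
-/

set_option autoImplicit false

namespace Pool.Agent.THJ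

open _root_.Pool.Agent.EXL _root_.Pool.Agent.EXL.Pat _root_.Pool.Agent.NUF _root_.Pool.Agent.NUU
  _root_.Pool.Agent.NUT2 _root_.Pool.Agent.NUBD Filter Topology
open _root_.Pool.Agent.NU5 hiding r0 rk Ik Jk
open NUTP (th)
open PB (gasData0)
open Pool.Agent.PLX (Ir Jr r0 rr Ok_r spare rowsR_r rowsL_r zmr zmr_I zmr_J zmr_same zmr_ends)
open Pool.Agent.MXR (XR XL MajW)
open Pool.Agent.EXL.Fm (lam)
open HexObs (xc)

variable {S : Stair} {N r : ℕ}

/-- the rapidity of the row j -/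
noncomputable def phS (x : ℂ) (S : Stair) (j : ℕ) : ℂ := x + if S.m j then lam else 0

theorem zS_ph (x : ℂ) (j : Fin N) (s : Bool) : zS S N (Sum.inl (j, s)) = x - phS x S j.val := by
  show (if S.m ((j : ℕ) : ℤ) then -lam else 0) = _
  unfold phS
  split_ifs <;> ring

/-- the scalar of the rows -/
noncomputable def BDS (S : Stair) (N : ℕ) : ℂ := BD (zS S N) ((List.finRange N).map xr)

theorem BDS_left : BD (zS S N) ((List.finRange N).map xl).reverse = BDS S N := by
  unfold BDS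
  rw [BD_perm (List.reverse_perm _), BD_map, BD_map]
  rfl

theorem okR_zS (j : St N) : okR (Real.pi / 8 - zS S N j) := by
  rcases j with ⟨i, s⟩ | j
  · show okR (Real.pi / 8 - if S.m ((i : ℕ) : ℤ) then -lam else 0)
    split_ifs
    · exact okR_t (t := 2) (by norm_num) (by norm_num) (by unfold lam; push_cast; ring)
    · rw [sub_zero]
      exact okR_hex
  · show okR (Real.pi / 8 - 0)
    rw [sub_zero]
    exact okR_hex

variable {β : Type*} {l : Filter β} {X : β → Fin (N - 1 - r) → ℂ} {Y : β → Fin (r - 1) → ℂ}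
  {ra rb rq rg : β → ℂ} {x : ℂ}

theorem zmr_tendstoS (hX : ∀ i, Tendsto (fun t => X t i) l (𝓝 (phS x S (r + 1 + i.val))))
    (hY : ∀ i, Tendsto (fun t => Y t i) l (𝓝 (phS x S (1 + i.val))))
    (ha : Tendsto ra l (𝓝 (phS x S 0))) (hb : Tendsto rb l (𝓝 (phS x S 0)))
    (hq : Tendsto rq l (𝓝 (phS x S r))) (hg : Tendsto rg l (𝓝 (phS x S r)))
    (j : Fin N) (s : Bool) :
    Tendsto (fun t => x - zmr N r (X t) (Y t) (ra t) (rb t) (rq t) (rg t) (Sum.inl (j, s))) l
      (𝓝 (zS S N (Sum.inl (j, s)))) := by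
  rw [zS_ph x]
  refine tendsto_const_nhds.sub ?_
  by_cases h0 : j.val = 0
  · rw [h0]
    have e : ∀ t, zmr N r (X t) (Y t) (ra t) (rb t) (rq t) (rg t) (Sum.inl (j, s)) =
        if s then rb t else ra t := fun t => by
      unfold zmr
      simp only [dif_pos h0]
    simp only [e]
    cases s
    · exact ha
    · exact hb
  by_cases h1 : j.val < r
  · have e : ∀ t, zmr N r (X t) (Y t) (ra t) (rb t) (rq t) (rg t) (Sum.inl (j, s)) =
        Y t ⟨j.val - 1, by omega⟩ := fun t => by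
      unfold zmr
      simp only [dif_neg h0, dif_pos h1]
    simp only [e]
    have := hY ⟨j.val - 1, by omega⟩
    rw [show 1 + (⟨j.val - 1, by omega⟩ : Fin (r - 1)).val = j.val by simp; omega] at this
    exact this
  by_cases h2 : j.val = r
  · rw [h2]
    have e : ∀ t, zmr N r (X t) (Y t) (ra t) (rb t) (rq t) (rg t) (Sum.inl (j, s)) =
        if s then rg t else rq t := fun t => by
      unfold zmr
      simp only [dif_neg h0, dif_neg h1, dif_pos h2]
    simp only [e]
    cases s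
    · exact hq
    · exact hg
  · have e : ∀ t, zmr N r (X t) (Y t) (ra t) (rb t) (rq t) (rg t) (Sum.inl (j, s)) =
        X t ⟨j.val - r - 1, by omega⟩ := fun t => by
      unfold zmr
      simp only [dif_neg h0, dif_neg h1, dif_neg h2]
    simp only [e]
    have := hX ⟨j.val - r - 1, by omega⟩
    rw [show r + 1 + (⟨j.val - r - 1, by omega⟩ : Fin (N - 1 - r)).val = j.val by simp; omega] at this
    exact this

/-- **The gas of two cut rows tends to `BDS S N ^ 2 * WPS S h`.** -/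
theorem RRS (h1 : 1 ≤ r) (h : r < N) (hMR : MajW (wS S xc N) (Sum.inr 0) (Sum.inr 1) (XR N))
    (hML : MajW (wS S xc N) (Sum.inr 0) (Sum.inr 1) (XL N))
    (hX : ∀ i, Tendsto (fun t => X t i) l (𝓝 (phS x S (r + 1 + i.val))))
    (hY : ∀ i, Tendsto (fun t => Y t i) l (𝓝 (phS x S (1 + i.val))))
    (ha : Tendsto ra l (𝓝 (phS x S 0))) (hb : Tendsto rb l (𝓝 (phS x S 0)))
    (hq : Tendsto rq l (𝓝 (phS x S r))) (hg : Tendsto rg l (𝓝 (phS x S r)))
    (hgen : ∀ᶠ t in l, NUTP.G th (NUTP.ea (ra t) :: NUTP.ea (rb t) :: NUTP.ea (rq t) ::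
      NUTP.ea (rg t) :: ((List.ofFn fun i => NUTP.ea (X t i)) ++ List.ofFn fun i => NUTP.ea (Y t i)))) :
    Tendsto (fun t => gasR (List.ofFn fun i => NUTP.ea (X t i)) (List.ofFn fun i => NUTP.ea (Y t i))
      (NUTP.ea (ra t)) (NUTP.ea (rb t)) (NUTP.ea (rq t)) (NUTP.ea (rg t))) l
      (𝓝 (BDS S N ^ 2 * WPS S h)) := by
  have nr : ((List.finRange N).map (xr (n := N))).Nodup := (List.nodup_append.1 (all_nodup N)).1
  have nl : ((List.finRange N).map (xl (n := N))).Nodup := (List.nodup_append.1 (all_nodup N)).2.1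
  have nl' := List.nodup_reverse.2 nl
  have c01 : (Sum.inr 0 : St N) ≠ Sum.inr 1 := by simp
  have n1 : ∀ j : Fin 4, (Sum.inr j : St N) ∉ (List.finRange N).map xr := by simp
  have n2 : ∀ j : Fin 4, (Sum.inr j : St N) ∉ ((List.finRange N).map xl).reverse := by simp
  have hRr : RegR (Sum.inr 0) (Sum.inr 1) (zS S N) ((List.finRange N).map xr) :=
    hMR.regR wS_WP (fun j _ => zS_wt j) c01 (n1 0)
  have hRl : RegR (Sum.inr 0) (Sum.inr 1) (zS S N) ((List.finRange N).map xl).reverse :=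
    hML.regR wS_WP (fun j _ => zS_wt j) c01 (n2 0)
  have hUr : UDRing (Sum.inr 0) (Sum.inr 1) ((List.finRange N).map (xr (n := N))) :=
    udRingAll (St N) _ _ (Sum.inr 2) _ nr (by simp) (by simp) (by simp) (n1 0) (n1 1) (n1 2)
  have hUl : UDRing (Sum.inr 0) (Sum.inr 1) ((List.finRange N).map (xl (n := N))).reverse :=
    udRingAll (St N) _ _ (Sum.inr 2) _ nl' (by simp) (by simp) (by simp) (n2 0) (n2 1) (n2 2)
  have hrf : UDRefl ((List.finRange N).map (xl (n := N))).reverse := udRefl nl' (udRingAll _)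
  set zt : β → St N → ℂ := fun t => zmr N r (X t) (Y t) (ra t) (rb t) (rq t) (rg t) with hzt
  have hT := zmr_tendstoS hX hY ha hb hq hg
  have hzr : ∀ j ∈ rowsR (Ir N r) (Jr N r) (xr (r0 h)) (xr (rr h)),
      Tendsto (fun t => x - zt t j) l (𝓝 (zS S N j)) := by
    rw [rowsR_r h1 h]
    intro j hj
    obtain ⟨i, -, rfl⟩ := List.mem_map.1 hj
    exact hT i false
  have hzl : ∀ j ∈ rowsL (Ir N r) (Jr N r) (xl (r0 h)) (xl (rr h)),
      Tendsto (fun t => x - zt t j) l (𝓝 (zS S N j)) := by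
    rw [rowsL_r h1 h]
    intro j hj
    obtain ⟨i, -, rfl⟩ := List.mem_map.1 hj
    exact hT i true
  have hends := fun t => zmr_ends h1 h (X t) (Y t) (ra t) (rb t) (rq t) (rg t)
  have hgen' : ∀ᶠ t in l, NUTP.G th (NUTP.ea (zt t (xr (r0 h))) :: NUTP.ea (zt t (xl (r0 h))) ::
      NUTP.ea (zt t (xr (rr h))) :: NUTP.ea (zt t (xl (rr h))) ::
        ((Ir N r).map (li (zt t)) ++ (Jr N r).map (li (zt t)))) := hgen.mono fun t ht => by
    rw [hzt]
    simp only [(hends t).1, (hends t).2.1, (hends t).2.2.1, (hends t).2.2.2, zmr_I, zmr_J h]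
    exact ht
  have hsame : ∀ t, ∀ s ∈ Ir N r ++ Jr N r, zt t s.2 = zt t s.1 := fun t => zmr_same
  have hnr : (rowsR (Ir N r) (Jr N r) (xr (r0 h)) (xr (rr h))).Nodup := (Ok_r h1 h).nd1
  have hnl : (rowsL (Ir N r) (Jr N r) (xl (r0 h)) (xl (rr h))).Nodup := (Ok_r h1 h).nd2
  have e : ∀ t i, x - zt t i = -zt t i + x := fun t i => by ring
  have hGr : ∀ᶠ t in l, Gz (fun i => x - zt t i)
      (rowsR (Ir N r) (Jr N r) (xr (r0 h)) (xr (rr h))) := hgen'.mono fun t ht => by
    simp only [e]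
    exact (Gz_neg (G_rowsR ht)).shift _
  have hGl : ∀ᶠ t in l, Gz (fun i => x - zt t i)
      (rowsL (Ir N r) (Jr N r) (xl (r0 h)) (xl (rr h))).reverse := hgen'.mono fun t ht => by
    simp only [e]
    exact (Gz_neg (Gz_rev (G_rowsL (hsame t) ht))).shift _
  have hBr := BE_tendsto (β := β) hnr hGr hzr
  have hBl := BE_tendsto (β := β) (List.nodup_reverse.2 hnl) hGl
    fun j hj => hzl j (List.mem_reverse.1 hj)
  have key := RR_tendsto (x := x) latData gasData0 (Ok_r h1 h) (c := Sum.inr 0) (d := Sum.inr 1)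
    (by simp) (spare h1 h 0) (spare h1 h 1) hsame hgen' hzr hzl (fun j _ => okR_zS j)
    (fun j _ => okR_zS j) (by rw [rowsR_r h1 h]; exact hRr) (by rw [rowsL_r h1 h]; exact hRl)
    (by rw [rowsR_r h1 h]; exact hUr) (by rw [rowsL_r h1 h]; exact hUl) (by rw [rowsL_r h1 h]; exact hrf) hBr hBl
  have e1 : BD (zS S N) (rowsR (Ir N r) (Jr N r) (xr (r0 h)) (xr (rr h))) = BDS S N := by
    rw [rowsR_r h1 h]
    rfl
  have e2 : BD (zS S N) (rowsL (Ir N r) (Jr N r) (xl (r0 h)) (xl (rr h))).reverse = BDS S N := by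
    rw [rowsL_r h1 h]
    exact BDS_left
  have e3 : WR (Sum.inr 0) (Sum.inr 1) (zS S N) (Ir N r) (Jr N r) (xr (r0 h)) (xl (r0 h))
      (xr (rr h)) (xl (rr h)) = WPS S h := rfl
  rw [e1, e2, e3] at key
  rw [sq]
  refine key.congr fun t => ?_
  rw [hzt]
  simp only [(hends t).1, (hends t).2.1, (hends t).2.2.1, (hends t).2.2.2, zmr_I, zmr_J h]

end Pool.Agent.THJ
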