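import Pool.Agent.THJ.Gas
import Pool.Agent.PLX.RgW

/-!
# TH-J: the two-point function of a staircase as the sum of the eleven integrals (helper62)

`vS x S j = -phS x S j`: the place of the row `j` in the gas (common shift `x : ℝ`): `-x` for a normal row, `-x - lam` for a
mirrored one.
`W_gasS` : `BDS S N ^ 2 * WPS S h = sin l * (Bp p q x * Bp q p y) * ∑ n < 2 m + 1, E11 .. n (n + (M - m))` for every
admissible data with these rows and ends, `r = m + 1`, `N = m + M + 2`, `m ≤ M`.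
-/

set_option autoImplicit false
set_option linter.unusedSectionVars false
set_option linter.unusedVariables false

noncomputable section

open Complex MeasureTheory Filter Topology

namespace Pool.Agent.THJ

open NUP1 PBX PBZ
open NUTP (th ea)
open NUP1.N (Bx E11)
open NUP1.Leg (Bp Ht cc)
open Pool.Agent.NU5 (gasR)
open Pool.Agent.PLX (RU gasR_swap)
open Pool.Agent.MXR (XR XL MajW)
open HexObs (xc)

variable {S : Stair}

/-- the place of the row j in the gas -/
def vS (x : ℝ) (S : Stair) (j : ℕ) : ℂ := -phS x S j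

theorem lam_l : (Pool.Agent.EXL.Fm.lam : ℂ) = ((l : ℝ) : ℂ) := by
  unfold Pool.Agent.EXL.Fm.lam NUP1.l
  push_cast
  ring

theorem phS_re (x : ℝ) (S : Stair) (j : ℕ) : phS x S j = ((x + if S.m j then l else 0 : ℝ) : ℂ) := by
  unfold phS
  split_ifs
  · rw [lam_l]
    push_cast
    rfl
  · push_cast
    rfl

theorem vS_im (x : ℝ) (S : Stair) (j : ℕ) : (vS x S j).im = 0 := by
  unfold vS
  rw [phS_re, neg_im, ofReal_im, neg_zero]

/-- the place of the row j at the height e d -/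
def vZ (x : ℝ) (S : Stair) (j d : ℕ) (e : ℝ) : ℂ := pZ d e + vS x S j

theorem vZ_im (x : ℝ) (j d : ℕ) (e : ℝ) : (vZ x S j d e).im = e * d := by
  unfold vZ
  rw [add_im, vS_im, pZ_im, add_zero]

theorem vZ_re (x : ℝ) (j d : ℕ) (e : ℝ) : (vZ x S j d e).re = (vS x S j).re := by
  unfold vZ
  rw [add_re, pZ_re, zero_add]

theorem vZ_tendsto (x : ℝ) (j d : ℕ) : Tendsto (vZ x S j d) (𝓝[>] 0) (𝓝 (vS x S j)) := by
  have := (pZ_tendsto d).add_const (vS x S j)
  rwa [zero_add] at this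

theorem vZ_ne {x : ℝ} {j j' d d' : ℕ} {e : ℝ} (he : 0 < e) (h : d ≠ d') : (vZ x S j d e).im ≠ (vZ x S j' d' e).im := by
  rw [vZ_im, vZ_im]
  intro h'
  exact h (by exact_mod_cast mul_left_cancel₀ he.ne' h')

theorem vZ_box {x : ℝ} {j d : ℕ} {e R : ℝ} (he : 0 ≤ e) (he' : e ≤ 1) (hd : (d : ℝ) ≤ R)
    (hv : |(vS x S j).re| ≤ l / 2) : Bx R (vZ x S j d e) := by
  have h := pZ_box he he' hd
  refine ⟨?_, ?_⟩
  · rw [vZ_re]
    exact hv
  · rw [vZ_im, ← pZ_im]
    exact h.2

section fam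
variable (x : ℝ) (S : Stair) (m M : ℕ)

/-- rows of the species `X` (between the cut rows) -/
def xS (e : ℝ) (i : Fin m) : ℂ := vZ x S (1 + i.val) (1 + i.val) e

/-- rows of the species `Y` -/
def yS (e : ℝ) (i : Fin M) : ℂ := vZ x S (m + 1 + 1 + i.val) (m + 1 + i.val) e

variable {x S m M} {e : ℝ}

theorem Ht_S (he : 0 < e) (a b c d : ℕ) : Ht (vZ x S a (m + M + 1) e) (vZ x S b (m + M + 2) e) (vZ x S c (m + M + 3) e)
    (vZ x S d (m + M + 4) e) (xS x S m e) (yS x S m M e) where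
  xx i j hij := vZ_ne he (by
    intro h
    exact hij (Fin.ext (by omega)))
  yy i j hij := vZ_ne he (by
    intro h
    exact hij (Fin.ext (by omega)))
  xy i j := vZ_ne he (by have := i.isLt; omega)
  hx i := vZ_ne he (by have := i.isLt; omega)
  hy i := vZ_ne he (by have := i.isLt; omega)
  gx i := vZ_ne he (by have := i.isLt; omega)
  gy i := vZ_ne he (by have := i.isLt; omega)
  hg := vZ_ne he (by omega)
  qx i := vZ_ne he (by have := i.isLt; omega)
  py i := vZ_ne he (by have := i.isLt; omega)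

/-- generic lines, the second group first -/
theorem G_S (he : 0 < e) (a b c d : ℕ) : NUTP.G th (ea (-vZ x S a (m + M + 3) e) :: ea (-vZ x S b (m + M + 4) e) ::
    ea (-vZ x S c (m + M + 1) e) :: ea (-vZ x S d (m + M + 2) e) ::
      ((List.ofFn fun i => ea (-yS x S m M e i)) ++ List.ofFn fun i => ea (-xS x S m e i))) := by
  have e1 : (ea (-vZ x S a (m + M + 3) e) :: ea (-vZ x S b (m + M + 4) e) ::
      ea (-vZ x S c (m + M + 1) e) :: ea (-vZ x S d (m + M + 2) e) ::
      ((List.ofFn fun i => ea (-yS x S m M e i)) ++ List.ofFn fun i => ea (-xS x S m e i))) =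
      (-vZ x S a (m + M + 3) e :: -vZ x S b (m + M + 4) e :: -vZ x S c (m + M + 1) e :: -vZ x S d (m + M + 2) e ::
        ((List.ofFn fun i => -yS x S m M e i) ++ List.ofFn fun i => -xS x S m e i)).map ea := by
    simp [List.map_ofFn, Function.comp_def]
  rw [e1, NUTP.G_ea]
  have key : (-vZ x S a (m + M + 3) e :: -vZ x S b (m + M + 4) e :: -vZ x S c (m + M + 1) e ::
      -vZ x S d (m + M + 2) e :: ((List.ofFn fun i => -yS x S m M e i) ++
        List.ofFn fun i => -xS x S m e i)).Pairwise fun z w => z.im ≠ w.im := by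
    have im' : ∀ {j j' d d' : ℕ}, d ≠ d' → (-vZ x S j d e).im ≠ (-vZ x S j' d' e).im := by
      intro j j' d d' h h'
      rw [neg_im, neg_im, neg_inj] at h'
      exact vZ_ne he h h'
    simp only [List.pairwise_cons, List.pairwise_append, List.pairwise_ofFn, List.mem_cons,
      List.mem_append, List.mem_ofFn]
    refine ⟨?_, ?_, ?_, ?_, ?_, ?_, ?_⟩
    · rintro z (rfl | rfl | rfl | ⟨i, rfl⟩ | ⟨i, rfl⟩)
      · exact im' (by omega)
      · exact im' (by omega)
      · exact im' (by omega)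
      · exact im' (by have := i.isLt; omega)
      · exact im' (by have := i.isLt; omega)
    · rintro z (rfl | rfl | ⟨i, rfl⟩ | ⟨i, rfl⟩)
      · exact im' (by omega)
      · exact im' (by omega)
      · exact im' (by have := i.isLt; omega)
      · exact im' (by have := i.isLt; omega)
    · rintro z (rfl | ⟨i, rfl⟩ | ⟨i, rfl⟩)
      · exact im' (by omega)
      · exact im' (by have := i.isLt; omega)
      · exact im' (by have := i.isLt; omega)
    · rintro z (⟨i, rfl⟩ | ⟨i, rfl⟩)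
      · exact im' (by have := i.isLt; omega)
      · exact im' (by have := i.isLt; omega)
    · intro i j hij
      have : i.val < j.val := hij
      exact im' (by omega)
    · intro i j hij
      have : i.val < j.val := hij
      exact im' (by omega)
    · rintro z ⟨i, rfl⟩ w ⟨j, rfl⟩
      exact im' (by have := i.isLt; have := j.isLt; omega)
  refine key.imp fun {z w} h k => ?_
  refine NUP1.sin_ne_im ?_
  have e2 : (z - w + (k : ℂ) * NUTP.lam).im = z.im - w.im := by
    rw [show NUTP.lam = (l : ℂ) from rfl]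
    simp
  rw [e2]
  exact sub_ne_zero.2 h

end fam

/-- rows and ends of the staircase, cut rows `0` and `m + 1` -/
structure RUS (s : ℝ) (S : Stair) {m M : ℕ} (D : RU m M) : Prop where
  x : ∀ i, D.x i = vS s S (1 + i.val)
  y : ∀ i, D.y i = vS s S (m + 1 + 1 + i.val)
  p : D.p = vS s S (m + 1)
  q : D.q = vS s S 0

/-- **The gas of two cut rows**, `m ≤ M` rows. -/
theorem gasR_S {x : ℝ} {m M : ℕ} (hmM : m ≤ M) {a : ℝ} (ha : a = 31 / 50 ∨ a = 5 / 4) {D : RU m M} (O : D.Ok)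
    (hβ : 1 < D.β) (hc : D.c = cc m) (hc' : D.c' = cc M) (Z : RUS x S D) :
    Tendsto (fun e => gasR (List.ofFn fun i => ea (-xS x S m e i)) (List.ofFn fun i => ea (-yS x S m M e i))
      (ea (-vZ x S (m + 1) (m + M + 1) e)) (ea (-vZ x S (m + 1) (m + M + 2) e)) (ea (-vZ x S 0 (m + M + 3) e))
      (ea (-vZ x S 0 (m + M + 4) e))) (𝓝[>] 0)
    (𝓝 (sin l * (Bp D.p D.q D.x * Bp D.q D.p D.y) *
      ∑ n ∈ Finset.range (2 * m + 1),
        E11 (3 / 5 * l) (-(17 / 10) * l) D.p D.q D.x D.y D.hX D.hY n (n + (M - m)) (a * l)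
          (-(11 / 4) * l))) := by
  have hpos : ∀ᶠ e : ℝ in 𝓝[>] 0, 0 < e := self_mem_nhdsWithin
  have hle : ∀ᶠ e : ℝ in 𝓝[>] 0, e ≤ 1 := nhdsWithin_le_nhds (eventually_le_nhds one_pos)
  have hbox := hpos.and hle
  have bx : ∀ j d : ℕ, d ≤ m + M + 4 → |(vS x S j).re| ≤ l / 2 → ∀ᶠ e : ℝ in 𝓝[>] 0, Bx (m + M + 4 : ℝ) (vZ x S j d e) :=
    fun j d hd hv => hbox.mono fun e he => vZ_box he.1.le he.2 (by exact_mod_cast hd) hv
  have R0 : (0 : ℝ) ≤ m + M + 4 := by positivity
  have hp : |(vS x S (m + 1)).re| ≤ l / 2 := by rw [← Z.p]; exact O.hp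
  have hq : |(vS x S 0).re| ≤ l / 2 := by rw [← Z.q]; exact O.hq
  exact O.RE_tendsto (F := 𝓝[>] (0 : ℝ)) (R := (m + M + 4 : ℝ)) hmM ha hβ hc hc'
    (p := vZ x S (m + 1) (m + M + 1)) (h := vZ x S (m + 1) (m + M + 2)) (q := vZ x S 0 (m + M + 3))
    (g := vZ x S 0 (m + M + 4))
    (x := xS x S m) (y := yS x S m M) (hpos.mono fun e he => Ht_S he _ _ _ _) (bx _ _ (by omega) hp)
    (bx _ _ (by omega) hp) (bx _ _ (by omega) hq) (bx _ _ (by omega) hq)
    (Filter.eventually_all.2 fun i => bx _ _ (by have := i.isLt; omega) (by rw [← Z.x]; exact O.hx i))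
    (Filter.eventually_all.2 fun i => bx _ _ (by have := i.isLt; omega) (by rw [← Z.y]; exact O.hy i))
    (by rw [Z.p, vS_im, abs_zero]; exact R0) (by rw [Z.q, vS_im, abs_zero]; exact R0)
    (fun i => by rw [Z.x, vS_im, abs_zero]; exact R0) (fun i => by rw [Z.y, vS_im, abs_zero]; exact R0)
    (by rw [Z.p]; exact vZ_tendsto _ _ _) (by rw [Z.p]; exact vZ_tendsto _ _ _)
    (by rw [Z.q]; exact vZ_tendsto _ _ _) (by rw [Z.q]; exact vZ_tendsto _ _ _)
    (fun i => by rw [Z.x]; exact vZ_tendsto _ _ _) (fun i => by rw [Z.y]; exact vZ_tendsto _ _ _)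

theorem vZ_neg_tendsto (x : ℝ) (j d : ℕ) : Tendsto (fun e => -vZ x S j d e) (𝓝[>] 0) (𝓝 (phS x S j)) := by
  have := (vZ_tendsto (S := S) x j d).neg
  unfold vS at this
  rwa [neg_neg] at this

/-- the gas tends to the two-point function -/
theorem gasR_WPS {x : ℝ} {N r : ℕ} (h1 : 1 ≤ r) (h : r < N) (hMR : MajW (wS S xc N) (Sum.inr 0) (Sum.inr 1) (XR N))
    (hML : MajW (wS S xc N) (Sum.inr 0) (Sum.inr 1) (XL N)) :
    Tendsto (fun e => gasR (List.ofFn fun i => ea (-xS x S (r - 1) e i))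
      (List.ofFn fun i => ea (-yS x S (r - 1) (N - 1 - r) e i))
      (ea (-vZ x S (r - 1 + 1) (r - 1 + (N - 1 - r) + 1) e)) (ea (-vZ x S (r - 1 + 1) (r - 1 + (N - 1 - r) + 2) e))
      (ea (-vZ x S 0 (r - 1 + (N - 1 - r) + 3) e)) (ea (-vZ x S 0 (r - 1 + (N - 1 - r) + 4) e))) (𝓝[>] (0 : ℝ))
      (𝓝 (BDS S N ^ 2 * WPS S h)) := by
  have hpos : ∀ᶠ e : ℝ in 𝓝[>] 0, 0 < e := self_mem_nhdsWithin
  have er : r - 1 + 1 = r := by omega
  have key := RRS (l := 𝓝[>] (0 : ℝ)) (N := N) (r := r) (S := S) (x := x)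
    (X := fun e i => -yS x S (r - 1) (N - 1 - r) e i)
    (Y := fun e i => -xS x S (r - 1) e i) (ra := fun e => -vZ x S 0 (r - 1 + (N - 1 - r) + 3) e)
    (rb := fun e => -vZ x S 0 (r - 1 + (N - 1 - r) + 4) e) (rq := fun e => -vZ x S (r - 1 + 1) (r - 1 + (N - 1 - r) + 1) e)
    (rg := fun e => -vZ x S (r - 1 + 1) (r - 1 + (N - 1 - r) + 2) e) h1 h hMR hML
    (fun i => by
      have := vZ_neg_tendsto (S := S) x (r - 1 + 1 + 1 + i.val) (r - 1 + 1 + i.val)
      have e2 : r - 1 + 1 + 1 + i.val = r + 1 + i.val := by omega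
      conv at this => rhs; rw [e2]
      exact this)
    (fun i => vZ_neg_tendsto _ _ _) (vZ_neg_tendsto _ _ _) (vZ_neg_tendsto _ _ _)
    (by
      have := vZ_neg_tendsto (S := S) x (r - 1 + 1) (r - 1 + (N - 1 - r) + 1)
      conv at this => rhs; rw [er]
      exact this)
    (by
      have := vZ_neg_tendsto (S := S) x (r - 1 + 1) (r - 1 + (N - 1 - r) + 2)
      conv at this => rhs; rw [er]
      exact this) (hpos.mono fun e he => G_S he _ _ _ _)
  refine key.congr fun e => ?_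
  exact gasR_swap _ _ _ _ _ _

/-- **The two-point function of a staircase as the sum of the eleven integrals.** -/
theorem W_gasS {x : ℝ} {m M N r : ℕ} (hr : r = m + 1) (hN : N = m + M + 2) (hmM : m ≤ M) (h : r < N)
    (hMR : MajW (wS S xc N) (Sum.inr 0) (Sum.inr 1) (XR N)) (hML : MajW (wS S xc N) (Sum.inr 0) (Sum.inr 1) (XL N)) {a : ℝ}
    (ha : a = 31 / 50 ∨ a = 5 / 4) {D : RU m M} (O : D.Ok) (hβ : 1 < D.β)
    (hc : D.c = cc m) (hc' : D.c' = cc M) (Z : RUS x S D) :
    BDS S N ^ 2 * WPS S h =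
      sin l * (Bp D.p D.q D.x * Bp D.q D.p D.y) *
      ∑ n ∈ Finset.range (2 * m + 1),
        E11 (3 / 5 * l) (-(17 / 10) * l) D.p D.q D.x D.y D.hX D.hY n (n + (M - m)) (a * l)
          (-(11 / 4) * l) := by
  obtain rfl : m = r - 1 := by omega
  obtain rfl : M = N - 1 - r := by omega
  exact tendsto_nhds_unique (gasR_WPS (x := x) (by omega) h hMR hML) (gasR_S (by omega) ha O hβ hc hc' Z)

end Pool.Agent.THJ

end
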