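import Pool.Agent.THJ.Net
import Pool.Agent.PLN.DirF
import Pool.Agent.TPF.Fin
import Pool.Agent.PLN.Join
import Pool.Agent.NUGC.LegAll

/-!
# TH-J: the words of the cylinder of a staircase are the words `CX` of the plane (helper62)

`join_le`, `join_sup`: the words of the cylinder of the staircase from the half edge `p` to the half edge `q` are the
words `DirT.CX T w d` of the plane with the translation `T`, the end `w` and the direction `d` in the frame rotated by
`ru p.2`.  `PX_ne_top`, `CX_fin`: finiteness.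
-/

set_option autoImplicit false

namespace Pool.Agent.THJ

open HexObs HexObs.LP HexObs.DirT HexObs.PLN HexObs.TS HexObs.SDN HexObs.NTW HexObs.NTA HexObs.TPC
open Pool.Agent.EXL.Net
open Pool.Agent.NUF.Cyl (Nm ri)
open Pool.Agent.MXR (V V_inj exists_V Vt_V dR dL)
open scoped ENNReal

/-! ### rotations -/

/-- multiplication in the triangular lattice -/
def em (u p : Pt) : Pt := (u.1 * p.1 - u.2 * p.2, u.1 * p.2 + u.2 * p.1 + u.2 * p.2)

theorem em_add (u p q : Pt) : em u (p + q) = em u p + em u q := by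
  refine Prod.ext ?_ ?_ <;> simp only [em, Prod.fst_add, Prod.snd_add] <;> ring

theorem em_sub (u p q : Pt) : em u (p - q) = em u p - em u q := by
  refine Prod.ext ?_ ?_ <;> simp only [em, Prod.fst_sub, Prod.snd_sub] <;> ring

theorem em_neg (u p : Pt) : em u (-p) = -em u p := by
  refine Prod.ext ?_ ?_ <;> simp only [em, Prod.fst_neg, Prod.snd_neg] <;> ring

theorem em_ml (u p : Pt) (z : ℤ) : em u (ml z p) = ml z (em u p) := by
  refine Prod.ext ?_ ?_ <;> simp only [em, ml] <;> ring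

theorem em_turn (u : Pt) (b : Bool) (d : Pt) : em u (turn b d) = turn b (em u d) := by
  cases b <;> refine Prod.ext ?_ ?_ <;> simp only [em, turn, rotL, rotR, if_true, Bool.false_eq_true, if_false] <;> ring

theorem dx_em (u d : Pt) (t : List Bool) (i : ℕ) : dx (em u d) t i = em u (dx d t i) := by
  unfold dx
  induction i with
  | zero => rfl
  | succ i ih => rw [ds_succ, ds_succ, ih, em_turn]

theorem vx_em (u v d : Pt) (t : List Bool) (i : ℕ) : vx oo (em u d) t i = em u (vx v d t i - v) := by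
  unfold vx
  induction i with
  | zero =>
    show oo = em u (v - v)
    rw [sub_self]
    refine Prod.ext ?_ ?_ <;> simp [em, oo]
  | succ i ih =>
    have h := dx_em u d t i
    unfold dx at h
    rw [vs_succ, vs_succ, ih, h, ← em_add]
    congr 1
    abel

/-- the rotation that takes the direction e to `up` -/
def ru (e : Pt) : Pt := em (0, 1) (e.1 + e.2, -e.2)

theorem em_ru {e : Pt} (h : e ∈ dirs) : em (ru e) e = up := by
  have key : ∀ e ∈ dirs, em (ru e) e = up := by decide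
  exact key e h

theorem ru_cases {e : Pt} (h : e ∈ dirs) : ru e = (1, 0) ∨ ru e = (0, 1) ∨ ru e = (-1, 1) ∨ ru e = (-1, 0) ∨
    ru e = (0, -1) ∨ ru e = (1, -1) := by
  have key : ∀ e ∈ dirs, ru e = (1, 0) ∨ ru e = (0, 1) ∨ ru e = (-1, 1) ∨ ru e = (-1, 0) ∨
    ru e = (0, -1) ∨ ru e = (1, -1) := by decide
  exact key e h

theorem em_inj {e : Pt} (h : e ∈ dirs) {p q : Pt} (hpq : em (ru e) p = em (ru e) q) : p = q := by
  rw [Prod.ext_iff] at hpq ⊢
  simp only [em] at hpq
  rcases ru_cases h with h1 | h1 | h1 | h1 | h1 | h1 <;> rw [h1] at hpq <;> simp only at hpq <;> omega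

theorem hn_em {e : Pt} (h : e ∈ dirs) (p : Pt) : hn (em (ru e) p) = hn p := by
  unfold hn
  simp only [em]
  rcases ru_cases h with h1 | h1 | h1 | h1 | h1 | h1 <;> rw [h1] <;> simp only <;> omega

theorem em_three (u : Pt) {T : Pt} (h : 3 ∣ T.1 - T.2) : 3 ∣ (em u T).1 - (em u T).2 := by
  obtain ⟨k, hk⟩ := h
  refine ⟨u.1 * k - u.2 * (T.2 + k), ?_⟩
  simp only [em]
  have e : T.1 = T.2 + 3 * k := by linarith
  rw [e]
  ring

/-! ### the translation -/

/-- the translation of the cylinder -/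
def TT (S : Stair) (N : ℕ) : Pt := (S.c N, (3 * N - S.c N) / 2)

variable {S : Stair} {N : ℕ} {hN : 1 ≤ N}

theorem trS_eq (t : ℤ) (v : Pt) : trS S N t v = v + ml t (TT S N) := by
  refine Prod.ext ?_ ?_ <;> simp only [trS, TT, ml, Prod.fst_add, Prod.snd_add] <;> ring

theorem TT_three (S : Stair) (N : ℕ) : 3 ∣ (TT S N).1 - (TT S N).2 := by
  have h1 := par2 S N
  have h2 := S.par N
  simp only [TT]
  omega

theorem nm_ml {v w : Pt} : (CyS S N hN).nm v = (CyS S N hN).nm w ↔ ∃ z : ℤ, v = w + ml z (TT S N) := by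
  rw [nm_iff_tr]
  simp only [trS_eq]

/-! ### words -/

/-- the data of the ends: the class `CX` of the words from p to q -/
def CW (S : Stair) (N : ℕ) (p q : Pt × Pt) : Set (List Bool) :=
  CX (em (ru p.2) (TT S N)) (em (ru p.2) (q.1 + q.2 - p.1)) (em (ru p.2) (-q.2))

/-- a word of the cylinder is a word of the plane -/
theorem mem_CW {A : Finset Pt} {p q : Pt × Pt} (hp : p.2 ∈ dirs) (hp1 : (CyS S N hN).nm p.1 = p.1)
    (hq1 : (CyS S N hN).nm q.1 = q.1) (hpq : (CyS S N hN).rv p ≠ q) {t : List Bool}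
    (ht : (CyS S N hN).Arr A p t) (he : (CyS S N hN).rv ((CyS S N hN).le p t) = q) : t ∈ CW S N p q := by
  obtain ⟨v0, e⟩ := p
  obtain ⟨v1, e1⟩ := q
  set C := CyS S N hN with hC
  simp only at hp hp1 hq1
  have rot : ∀ i, vx oo up t i = em (ru e) (vx v0 e t i - v0) := fun i => by
    rw [← em_ru hp]
    exact vx_em (ru e) v0 e t i
  have drot : ∀ i, dx up t i = em (ru e) (dx e t i) := fun i => by
    rw [← em_ru hp]
    exact dx_em (ru e) e t i
  have h1 : C.nm (C.nm (vx v0 e t t.length) + dx e t t.length) = v1 ∧ -dx e t t.length = e1 := Prod.ext_iff.1 he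
  have hd : dx e t t.length = -e1 := by rw [← h1.2, neg_neg]
  have hne : 1 ≤ t.length := by
    rcases t with _ | ⟨b, t⟩
    · exfalso
      refine hpq ?_
      rw [Nm.le_nil (C := C) (p := (v0, e)) hp1] at he
      exact he
    · simp
  have h2 : C.nm (vx v0 e t t.length + -e1) = C.nm v1 := by
    rw [hq1, ← hd, ← C.add]
    exact h1.1
  obtain ⟨z, hz⟩ := nm_ml.1 h2
  refine ⟨hne, ?_, ⟨z, ?_⟩, ?_⟩
  · intro i j hi hij hj y e2
    refine ht.inj i j hi hij hj ?_
    refine nm_ml.2 ⟨y, ?_⟩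
    show vx v0 e t i = vx v0 e t j + ml y (TT S N)
    have e3 : vx v0 e t i - v0 = vx v0 e t j - v0 + ml y (TT S N) := by
      apply em_inj hp
      rw [em_add, em_ml, ← rot, ← rot, e2]
    have := congrArg (fun p => p + v0) e3
    simp only [sub_add_cancel] at this
    rw [this]
    abel
  · rw [rot]
    simp only
    rw [← em_ml, ← em_add]
    congr 1
    have e3 : vx v0 e t t.length = v1 + ml z (TT S N) + e1 := by
      rw [← hz]
      abel
    rw [e3]
    abel
  · rw [drot, hd]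

theorem Vt_vx {v e : Pt} (h1 : Vt v) (h2 : Vt (v + e)) (t : List Bool) (i : ℕ) : Vt (vx v e t i) := by
  have h3 := vx_hex v e t i
  have h4 : HexObs.cl (v + e) = HexObs.cl v + HexObs.cl e := by
    unfold HexObs.cl
    simp only [Prod.fst_add, Prod.snd_add]
    push_cast
    ring
  unfold IsHex at h3
  unfold Vt at h1 h2 ⊢
  rcases h3 with h5 | h5
  · rw [h5]
    exact h1
  · rw [h5, ← h4]
    exact h2

theorem Dm_mono {n m n' m' : ℕ} (h1 : n ≤ n') (h2 : m ≤ m') : Dm S N n m ⊆ Dm S N n' m' := by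
  intro v hv
  obtain ⟨x, i, rfl, h3, h4⟩ := exists_of_mem_Dm hv
  exact mem_Dm.2 ⟨⟨by omega, by omega⟩, h4⟩

theorem exists_Dm (hN : 1 ≤ N) {v : Pt} (h : Vt v) : ∃ m : ℕ, (CyS S N hN).nm v ∈ Dm S N m m := by
  obtain ⟨x, i, rfl⟩ := exists_V h
  rw [nm_Vm]
  refine ⟨(x - S.c N * (i / N) - S.lx 0 (i % N)).natAbs + 1, mem_Dm.2 ⟨⟨by omega, by omega⟩,
    Int.emod_nonneg _ (by omega), Int.emod_lt_of_pos _ (by omega)⟩⟩

/-- a planar word is a word of the cylinder -/
theorem word_CW {p q : Pt × Pt} (hp : p.2 ∈ dirs) (hv : Vt p.1) (hv' : Vt (p.1 + p.2))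
    (hq1 : (CyS S N hN).nm q.1 = q.1) {t : List Bool}
    (ht : t ∈ CW S N p q) : ∃ M : ℕ, ∀ m : ℕ, M ≤ m →
    (CyS S N hN).Arr (Dm S N m m) p t ∧ (CyS S N hN).rv ((CyS S N hN).le p t) = q := by
  obtain ⟨v0, e⟩ := p
  obtain ⟨v1, e1⟩ := q
  obtain ⟨h1, h2, ⟨z, h3⟩, h4⟩ := ht
  set C := CyS S N hN with hC
  simp only at hp hv hv' hq1 h2 h3 h4
  have rot : ∀ i, vx oo up t i = em (ru e) (vx v0 e t i - v0) := fun i => by
    rw [← em_ru hp]
    exact vx_em (ru e) v0 e t i
  have drot : ∀ i, dx up t i = em (ru e) (dx e t i) := fun i => by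
    rw [← em_ru hp]
    exact dx_em (ru e) e t i
  have hvt : ∀ i, Vt (vx v0 e t i) := fun i => Vt_vx hv hv' t i
  have h5 : ∀ i, ∃ m : ℕ, C.nm (vx v0 e t i) ∈ Dm S N m m := fun i => exists_Dm hN (hvt i)
  choose f hf using h5
  refine ⟨∑ i ∈ Finset.range (t.length + 1), f i, fun m hm => ⟨⟨?_, ?_⟩, ?_⟩⟩
  · intro i hi hi'
    show C.nm (vx v0 e t i) ∈ Dm S N m m
    have h6 : f i ≤ m := le_trans (Finset.single_le_sum (f := f) (fun _ _ => Nat.zero_le _)
      (Finset.mem_range.2 (by omega))) hm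
    exact Dm_mono h6 h6 (hf i)
  · intro i j hi hij hj
    show C.nm (vx v0 e t i) ≠ C.nm (vx v0 e t j)
    intro e2
    obtain ⟨y, hy⟩ := nm_ml.1 e2
    refine h2 i j hi hij hj y ?_
    rw [rot, rot, hy, ← em_ml, ← em_add]
    congr 1
    abel
  · have d1 : dx e t t.length = -e1 := by
      apply em_inj hp
      rw [← drot, h4]
    have e3 : vx v0 e t t.length - v0 = v1 + e1 - v0 + ml z (TT S N) := by
      apply em_inj hp
      rw [← rot, h3, ← em_ml, ← em_add]
    have e4 : vx v0 e t t.length + -e1 = v1 + ml z (TT S N) := by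
      have := congrArg (fun p => p + v0) e3
      simp only [sub_add_cancel] at this
      rw [this]
      abel
    have e5 : C.nm (vx v0 e t t.length + -e1) = v1 := by
      rw [← hq1]
      exact nm_ml.2 ⟨z, e4⟩
    show (C.nm (C.nm (vx v0 e t t.length) + dx e t t.length), -dx e t t.length) = (v1, e1)
    rw [C.add, d1, e5, neg_neg]

/-- **the words of a domain of the cylinder are bounded by the words of the plane** -/
theorem join_le (A : Finset Pt) {p q : Pt × Pt} (hp : p.2 ∈ dirs) (hp1 : (CyS S N hN).nm p.1 = p.1)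
    (hq1 : (CyS S N hN).nm q.1 = q.1) (hpq : (CyS S N hN).rv p ≠ q) :
    ENNReal.ofReal ((CyS S N hN).Ws xc A {q} p) ≤ gf (CW S N p q) := by
  unfold Nm.Ws
  rw [← gf_finset]
  refine gf_mono fun t ht => ?_
  rw [Finset.mem_coe, Finset.mem_filter, Nm.mem_arr, Finset.mem_singleton] at ht
  exact mem_CW hp hp1 hq1 hpq ht.1 ht.2

/-- **the words of the cylinder are the words of the plane** -/
theorem join_sup {p q : Pt × Pt} (hp : p.2 ∈ dirs) (hp1 : (CyS S N hN).nm p.1 = p.1)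
    (hv : Vt p.1) (hv' : Vt (p.1 + p.2))
    (hq1 : (CyS S N hN).nm q.1 = q.1) (hpq : (CyS S N hN).rv p ≠ q) :
    ⨆ m : ℕ, ENNReal.ofReal ((CyS S N hN).Ws xc (Dm S N m m) {q} p) = gf (CW S N p q) := by
  classical
  apply le_antisymm
  · exact iSup_le fun m => join_le _ hp hp1 hq1 hpq
  · refine gf_le_of_finset fun s hs => ?_
    have h1 : ∀ t : List Bool, ∃ M : ℕ, t ∈ s → ∀ m : ℕ, M ≤ m →
        (CyS S N hN).Arr (Dm S N m m) p t ∧ (CyS S N hN).rv ((CyS S N hN).le p t) = q := by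
      intro t
      by_cases h0 : t ∈ s
      · obtain ⟨M, hM⟩ := word_CW (hN := hN) hp hv hv' hq1 (hs h0)
        exact ⟨M, fun _ => hM⟩
      · exact ⟨0, fun h' => absurd h' h0⟩
    choose f hf using h1
    refine le_trans ?_ (le_iSup _ (∑ t ∈ s, f t))
    unfold Nm.Ws
    rw [← gf_finset]
    refine gf_mono fun t ht => ?_
    rw [Finset.mem_coe, Finset.mem_filter, Nm.mem_arr, Finset.mem_singleton]
    exact hf t ht _ (Finset.single_le_sum (f := f) (fun _ _ => Nat.zero_le _) ht)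

/-! ### finiteness -/

/-- the two-point function of the plane between two mid-edges is finite -/
theorem PX_ne_top (w d : Pt) : gf (PX w d) ≠ ⊤ := by
  have h1 := TPF.SE_fin NUGC.hUp (ps false (w + -up))
  have h2 := TPF.SE_fin NUGC.hUp (ps true (w + -up))
  refine ne_top_of_le_ne_top ?_ (gf_rst (P := PX w d) (Q := TPF.SE (ps false (w + -up)) ∪ TPF.SE (ps true (w + -up)))
    (fun t ht => ht.1) (fun t ht => ?_))
  · exact ENNReal.mul_ne_top (by norm_num) (ne_top_of_le_ne_top (ENNReal.add_ne_top.2 ⟨h1, h2⟩) (gf_union_le _ _))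
  · obtain ⟨h3, h4, h5, h6⟩ := ht
    obtain ⟨b, e1, e2⟩ := rst_two h3
    have h7 : rst t ∈ TPF.SE (ps b (w + -up)) := by
      refine ⟨⟨fun i _ _ => Set.mem_univ _, fun i j hij hj he => ?_⟩, ?_⟩
      · refine h4 (i + 1) (j + 1) (by omega) (by omega) (by omega) ?_
        rw [e2 i (by omega), e2 j hj, he]
      · show vx oo up (rst t) (rst t).length = _
        have e3 := e2 _ le_rfl
        rw [← e1, h5] at e3
        rw [e3, add_neg_cancel_comm, ps_ph]
    cases b
    · exact Or.inl h7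
    · exact Or.inr h7

/-- there is a nearest translate -/
theorem near_ex (T w : Pt) : ∃ z0 : ℤ, ∀ z : ℤ, hn (w + ml z0 T) ≤ hn (w + ml z0 T + ml z T) := by
  classical
  have h : ∃ n : ℕ, ∃ z : ℤ, hn (w + ml z T) = n := ⟨_, 0, rfl⟩
  obtain ⟨z0, hz0⟩ := Nat.find_spec h
  refine ⟨z0, fun z => ?_⟩
  rw [hz0]
  refine Nat.find_min' h ⟨z0 + z, ?_⟩
  congr 1
  rw [add_assoc]
  congr 1
  refine Prod.ext ?_ ?_ <;> simp only [ml, Prod.fst_add, Prod.snd_add] <;> ring

theorem CX_shift (T w d : Pt) (z0 : ℤ) : CX T w d = CX T (w + ml z0 T) d := by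
  have key : ∀ (w : Pt) (z0 : ℤ), CX T w d ⊆ CX T (w + ml z0 T) d := by
    rintro w z0 t ⟨h1, h2, ⟨z, h3⟩, h4⟩
    refine ⟨h1, h2, ⟨z - z0, ?_⟩, h4⟩
    rw [h3, add_assoc]
    congr 1
    refine Prod.ext ?_ ?_ <;> simp only [ml, Prod.fst_add, Prod.snd_add] <;> ring
  refine Set.Subset.antisymm (key w z0) ?_
  refine (key (w + ml z0 T) (-z0)).trans (le_of_eq ?_)
  congr 1
  refine Prod.ext ?_ ?_ <;> simp only [ml, Prod.fst_add, Prod.snd_add] <;> ring

/-- **the two-point functions of all wide cylinders are finite** -/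
theorem CX_fin : ∃ k0 : ℕ, ∀ T w d : Pt, 3 ∣ T.1 - T.2 → k0 ≤ hn T → gf (CX T w d) ≠ ⊤ := by
  obtain ⟨C, k0, hC, h⟩ := soft_T
  refine ⟨k0, fun T w d h3 hk => ?_⟩
  obtain ⟨z0, hz⟩ := near_ex T w
  rw [CX_shift T w d z0]
  exact ne_top_of_le_ne_top (ENNReal.add_ne_top.2 ⟨PX_ne_top _ _, ENNReal.ofReal_ne_top⟩) (h T _ d h3 hk hz).1

theorem CW_fin : ∃ k0 : ℕ, ∀ (S : Stair) (N : ℕ) (p q : Pt × Pt), p.2 ∈ dirs → k0 ≤ hn (TT S N) →
    gf (CW S N p q) ≠ ⊤ := by
  obtain ⟨k0, h⟩ := CX_fin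
  refine ⟨k0, fun S N p q hp hk => h _ _ _ (em_three _ (TT_three S N)) ?_⟩
  rw [hn_em hp]
  exact hk

end Pool.Agent.THJ
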