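import Pool.Agent.MXR.MajG

/-!
# TH-J: the limit of two families of rings with general positive weights (helper62; as `NUG/ZDun`)

`ringW_pU_lim`: if both rings have the majorant property, the iterated rings at the empty state tend to the pairing of
the two functionals.
-/

set_option autoImplicit false

namespace Pool.Agent.THJ

open _root_.Pool.Agent.EXL hiding cc
open _root_.Pool.Agent.EXL.Pat _root_.Pool.Agent.EXL.HS HexObs Filter Topology
open _root_.Pool.Agent.NUF
open _root_.Pool.Agent.UNI.Mv (WP)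
open Pool.Agent.MXR (MajW IsF posOp_ringF pU_fix2 ringC_iter_ofReal)
open Pool.Agent.NUG hiding ringC_ofReal

variable {ι : Type*} [DecidableEq ι] {w w' : ι → Wt ℝ} {c d : ι} {X Y : List ι} {V W : Fnl ι}

/-- the iterated rings converge at the empty state. -/
theorem ringW_lim_real [Finite ι] (hw : ∀ x, WP (w x)) (hM : MajW w c d X) (hX : X.Nodup) (hcd : c ≠ d)
    (hc : c ∉ X) (hd : d ∉ X) (hV : IsF w c d X V) (F : Pat ι → ℝ) :
    ∃ a : ℝ, Tendsto (fun n => (NUG.ringF w c d X)^[n] F Pat.empty) atTop (𝓝 a) :=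
  ⟨_, (Complex.continuous_re.tendsto _).comp (hV.lim hw hM hX hcd hc hd F)⟩

/-- **The two families of rings tend to 0 on the non-empty states.** -/
theorem ringW_two_tendsto [Finite ι] (hw : ∀ x, WP (w x)) (hw' : ∀ x, WP (w' x)) (hM : MajW w c d X)
    (hM' : MajW w' c d Y) (hX : X.Nodup) (hY : Y.Nodup) (hXY : ∀ x ∈ X, x ∉ Y) (hcd : c ≠ d)
    (hc : c ∉ X) (hd : d ∉ X) (hc' : c ∉ Y) (hd' : d ∉ Y) (hV : IsF w c d X V) (hW : IsF w' c d Y W)
    (F : Pat ι → ℝ) {p q : Pat ι} (hp : AX X p)
    (hq : AX Y q) (h : p ≠ Pat.empty ∨ q ≠ Pat.empty) :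
    Tendsto (fun n => (NUG.ringF w c d X)^[n] ((NUG.ringF w' c d Y)^[n] F) (un p q)) atTop (𝓝 0) := by
  classical
  cases nonempty_fintype ι
  have : Fintype (Pat ι) := Fintype.ofFinite _
  set T := NUG.ringF w c d X with hT
  set T' := NUG.ringF w' c d Y with hT'
  have hL : Lin T := NUG.lin_ringF w c d X
  have hL' : Lin T' := NUG.lin_ringF w' c d Y
  have hP : PosOp T := posOp_ringF hw
  have hP' : PosOp T' := posOp_ringF hw'
  have hYX : ∀ x ∈ Y, x ∉ X := fun x hx hx' => hXY x hx' hx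
  have hdj := dj_lists hXY hp hq
  -- the constant function
  set one : Pat ι → ℝ := fun _ => 1 with hone
  have prod1 : ∀ n, T^[n] (T'^[n] one) (un p q) = T'^[n] one q * T^[n] one p := by
    intro n
    have e1 : T^[n] (T'^[n] one) (un p q) = T^[n] (fun p' => T'^[n] one (un p' q)) p :=
      ringI_un_left _ _ hdj (ax_out hq hc') (ax_out hq hd') (fun x hx => ax_out hq (hXY x hx)) n
    have e2 : T^[n] (fun p' => T'^[n] one (un p' q)) p = T^[n] (fun p' => T'^[n] one q * one p') p := by
      have hPr : ∀ (k : ℕ) {G H : Pat ι → ℝ}, (∀ r, AX X r → G r = H r) →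
          ∀ r, AX X r → T^[k] G r = T^[k] H r := by
        intro k G H hGH
        induction k with
        | zero => exact hGH
        | succ k ih =>
          intro r hr
          rw [Function.iterate_succ_apply', Function.iterate_succ_apply']
          exact NUG.pres_ringF _ hX hcd hc hd _ _ ih r hr
      apply hPr n _ p hp
      intro p' hp'
      have e3 : T'^[n] one (un p' q) = T'^[n] (fun q' => one (un p' q')) q :=
        ringI_un_right _ _ (dj_lists hXY hp' hq) (ax_out hp' hc) (ax_out hp' hd)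
          (fun x hx => ax_out hp' (hYX x hx)) n
      rw [e3, hone, mul_one]
    have e4 : T^[n] (fun p' => T'^[n] one q * one p') p = T'^[n] one q * T^[n] one p := by
      have hLn := lin_iterate hL n
      have := hLn (T'^[n] one q) 0 one one
      simpa using congrFun this p
    rw [e1, e2, e4]
  have lim1 : Tendsto (fun n => T^[n] (T'^[n] one) (un p q)) atTop (𝓝 0) := by
    simp only [prod1]
    obtain ⟨a, ha⟩ := ringW_lim_real hw hM hX hcd hc hd hV one
    obtain ⟨b, hb⟩ := ringW_lim_real hw' hM' hY hcd hc' hd' hW one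
    have dX : ∀ {p : Pat ι}, p ≠ Pat.empty → AX X p → Tendsto (fun n => T^[n] one p) atTop (𝓝 0) :=
      fun hp hA => hM.iter hw hX hcd hc hd one hp hA
    have dY : ∀ {p : Pat ι}, p ≠ Pat.empty → AX Y p → Tendsto (fun n => T'^[n] one p) atTop (𝓝 0) :=
      fun hp hA => hM'.iter hw' hY hcd hc' hd' one hp hA
    by_cases h1 : p = Pat.empty
    · have h2 : q ≠ Pat.empty := h.resolve_left (fun h' => h' h1)
      have l1 : Tendsto (fun n => T'^[n] one q) atTop (𝓝 0) := dY h2 hq
      have l2 : Tendsto (fun n => T^[n] one p) atTop (𝓝 a) := by rw [h1]; exact ha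
      simpa using l1.mul l2
    · have l2 : Tendsto (fun n => T^[n] one p) atTop (𝓝 0) := dX h1 hp
      by_cases h2 : q = Pat.empty
      · have l1 : Tendsto (fun n => T'^[n] one q) atTop (𝓝 b) := by rw [h2]; exact hb
        simpa using l1.mul l2
      · have l1 : Tendsto (fun n => T'^[n] one q) atTop (𝓝 0) := dY h2 hq
        simpa using l1.mul l2
  -- the general function
  obtain ⟨C, hC⟩ : ∃ C : ℝ, ∀ r, |F r| ≤ C := by
    refine ⟨∑ q, |F q|, fun p => ?_⟩
    exact Finset.single_le_sum (f := fun q => |F q|) (fun _ _ => abs_nonneg _) (Finset.mem_univ p)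
  have mono : ∀ (n : ℕ) (S : (Pat ι → ℝ) → (Pat ι → ℝ)), PosOp S → Lin S → ∀ {G H : Pat ι → ℝ},
      (∀ r, G r ≤ H r) → ∀ r, S^[n] G r ≤ S^[n] H r := by
    intro n S hS hSL G H hGH
    induction n with
    | zero => exact hGH
    | succ n ih =>
      intro r
      rw [Function.iterate_succ_apply', Function.iterate_succ_apply']
      exact hS.mono hSL ih r
  have smul : ∀ (n : ℕ) (S : (Pat ι → ℝ) → (Pat ι → ℝ)), Lin S → ∀ (a : ℝ) (G : Pat ι → ℝ),
      S^[n] (fun r => a * G r) = fun r => a * S^[n] G r := by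
    intro n S hSL a G
    have := lin_iterate hSL n a 0 G G
    simpa using this
  have key : ∀ n, |T^[n] (T'^[n] F) (un p q)| ≤ C * T^[n] (T'^[n] one) (un p q) := by
    intro n
    have up : ∀ r, T^[n] (T'^[n] F) r ≤ C * T^[n] (T'^[n] one) r := by
      intro r
      have h1 := mono n T hP hL (fun r => mono n T' hP' hL' (G := F) (H := fun r => C * one r)
        (fun r => by rw [hone, mul_one]; exact le_of_abs_le (hC r)) r) r
      rwa [smul n T' hL' C one, smul n T hL C] at h1
    have lo : ∀ r, (-C) * T^[n] (T'^[n] one) r ≤ T^[n] (T'^[n] F) r := by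
      intro r
      have h1 := mono n T hP hL (fun r => mono n T' hP' hL' (G := fun r => (-C) * one r) (H := F)
        (fun r => by rw [hone, mul_one]; exact neg_le_of_abs_le (hC r)) r) r
      rwa [smul n T' hL' (-C) one, smul n T hL (-C)] at h1
    rw [abs_le]
    exact ⟨by have := lo (un p q); linarith, up _⟩
  have h1 := lim1.const_mul C
  rw [mul_zero] at h1
  exact squeeze_zero_norm (fun n => by rw [Real.norm_eq_abs]; exact key n) h1

/-- **The limit of the two families of rings, real functions.** -/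
theorem ringW_pU_lim [Finite ι] (hw : ∀ x, WP (w x)) (hw' : ∀ x, WP (w' x)) (hM : MajW w c d X)
    (hM' : MajW w' c d Y) (hX : X.Nodup) (hY : Y.Nodup) (hXY : ∀ x ∈ X, x ∉ Y) (hcd : c ≠ d)
    (hc : c ∉ X) (hd : d ∉ X) (hc' : c ∉ Y) (hd' : d ∉ Y) (hV : IsF w c d X V) (hW : IsF w' c d Y W)
    (F : Pat ι → ℝ) :
    Tendsto (fun n => (((NUG.ringF w c d X)^[n] ((NUG.ringF w' c d Y)^[n] F) Pat.empty : ℝ) : ℂ)) atTop
      (𝓝 (pU V W fun p => (F p : ℂ))) := by
  classical
  have : Fintype (NE (AU X Y)) := Fintype.ofFinite _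
  have hsup : SupF (AU X Y) (pU V W) := by
    intro G hG
    rw [pU_apply]
    apply hV.sup
    intro p hp
    apply hW.sup
    intro q hq
    exact hG _ ⟨p, q, hp, hq, rfl⟩
  have hone : pU V W (HS.ind Pat.empty) = 1 := MXR.pU_one hXY hV.sup hV.one hW.sup hW.one
  have e0 : ∀ n, pU V W (fun p => (((NUG.ringF w c d X)^[n] ((NUG.ringF w' c d Y)^[n] F) p : ℝ) : ℂ)) =
      pU V W fun p => (F p : ℂ) := by
    intro n
    have h1 := pU_fix2 hXY hc hd hc' hd' hV hW (fun p => (F p : ℂ)) n n
    rwa [ringC_iter_ofReal, ringC_iter_ofReal] at h1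
  have e3 : ∀ n, (((NUG.ringF w c d X)^[n] ((NUG.ringF w' c d Y)^[n] F) Pat.empty : ℝ) : ℂ) =
      pU V W (fun p => (F p : ℂ)) -
      ∑ p : NE (AU X Y), (((NUG.ringF w c d X)^[n] ((NUG.ringF w' c d Y)^[n] F) p.1 : ℝ) : ℂ) *
        pU V W (HS.ind p.1) := by
    intro n
    have := sup_sum hsup (fun p => (((NUG.ringF w c d X)^[n] ((NUG.ringF w' c d Y)^[n] F) p : ℝ) : ℂ))
    rw [e0, hone, mul_one] at this
    rw [this]
    ring
  have e4 : Tendsto (fun n => ∑ p : NE (AU X Y),
      (((NUG.ringF w c d X)^[n] ((NUG.ringF w' c d Y)^[n] F) p.1 : ℝ) : ℂ) * pU V W (HS.ind p.1)) atTop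
      (𝓝 0) := by
    have : (0 : ℂ) = ∑ p : NE (AU X Y), 0 * pU V W (HS.ind p.1) := by simp
    rw [this]
    refine tendsto_finsetSum _ fun r _ => Tendsto.mul_const _ ?_
    obtain ⟨r, hr1, p, q, hp, hq, rfl⟩ := r
    have h2 := ringW_two_tendsto hw hw' hM hM' hX hY hXY hcd hc hd hc' hd' hV hW F hp hq
      (NUG.un_eq_empty (dj_lists hXY hp hq) hr1)
    have h3 := (Complex.continuous_ofReal.tendsto 0).comp h2
    rw [Complex.ofReal_zero] at h3
    exact h3
  have e5 := (tendsto_const_nhds (x := pU V W fun p => (F p : ℂ)) (f := atTop (α := ℕ))).sub e4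
  rw [sub_zero] at e5
  exact e5.congr fun n => (e3 n).symm

end Pool.Agent.THJ
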