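import Pool.Agent.THJ.Join
import Pool.Agent.THJ.Lim
import Pool.Agent.PLX.Words

/-!
# TH-J: **the two-point function of the gas of a staircase is the two-point function of its cylinder** (helper62)

`zS S N`: the rapidities of the lines, `0` for a normal row and `-lam` for a mirrored row.  `WPS S h`: the two-point
function `NU5.WR` of the two ring functionals, cut rows `0` and `r`.
`WPS_eq`: for wide cylinders `ENNReal.ofReal (WPS S h).re = gf (CW S N (pG S 0) (pG S r))` and `WPS S h` is real.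
-/

set_option autoImplicit false

namespace Pool.Agent.THJ

open Pool.Agent.EXL hiding cc
open Pool.Agent.EXL.Pat Pool.Agent.EXL.Net HexObs HexObs.LP HexObs.DirT Filter Topology
open Pool.Agent.NUF.Cyl (Nm)
open Pool.Agent.NUN (cc Xr Xl)
open Pool.Agent.NUNC (dd)
open Pool.Agent.MXR (XR XL gS Rest prs prs_append prs_fst prs_snd glu_prs nodup_XR nodup_XL Xr_mem Xl_mem
  cc_XR dd_XR cc_XL dd_XL cc_ne_dd Xr_notMem Xl_notMem gS_nn ind_nn gS_arc iter_pres restL rest_restL MajW IsF majW_of_arc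
  isF_VR V V_inj dR dL cellW cellW_WP cellW_map rwt_hexM lf rt)
open Pool.Agent.PLX (rowI rowJ r0 rr Ir Jr Jr_eq Ir_eq r0_ne_rr rest_r rowsR_X rowsL_X)
open Pool.Agent.EXL.Fm (lam)
open scoped ENNReal

variable {S : Stair} {N r : ℕ} {hN : 1 ≤ N}

/-! ### rapidities -/

/-- **The rapidities of the lines.** -/
noncomputable def zS (S : Stair) (N : ℕ) : NUF.St N → ℂ
  | Sum.inl (i, _) => if S.m ((i : ℕ) : ℤ) then -lam else 0
  | Sum.inr _ => 0

theorem cellW_wt (b : Bool) : rwt (Real.pi / 8 - if b then -lam else 0) = (cellW xc b).map Complex.ofRealHom := by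
  rw [cellW_map]
  cases b
  · simp only [Bool.false_eq_true, if_false, sub_zero]
    rw [rwt_hex]
    rfl
  · simp only [if_true]
    have e : (Real.pi : ℂ) / 8 - -lam = Real.pi / 4 := by
      unfold Fm.lam
      ring
    rw [e, rwt_hexM]
    rfl

/-- **The weights of the lines are the rhombus weights of the rapidities.** -/
theorem zS_wt (j : NUF.St N) : rwt (Real.pi / 8 - zS S N j) = (wS S xc N j).map Complex.ofRealHom := by
  rcases j with ⟨i, b⟩ | s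
  · exact cellW_wt _
  · show rwt (Real.pi / 8 - 0) = (hexW xc).map Complex.ofRealHom
    rw [sub_zero, rwt_hex, hexW_map]
    rfl

theorem wS_WP (j : NUF.St N) : UNI.Mv.WP (wS S xc N j) := by
  rcases j with ⟨i, b⟩ | s
  · exact cellW_WP xc_pos _
  · exact NUG.hexW_WP xc_pos

/-! ### arcs -/

/-- **The rings on an arc of the left halves.** -/
theorem rings_eqL {K : Type*} [CommRing K] (hS : S.Per N) (y : K) {n m : ℕ} (hm : 1 ≤ m) {i j : Fin N} (hij : i ≠ j)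
    {l : List (Fin N)} (hl : Rest l i j) :
    (NUG.ringF (wS S y N) cc dd (XR N))^[n] ((NUG.ringF (wS S y N) cc dd (XL N))^[m]
      (gS K l (HS.ind (cup (Xl i) (Xl j) Pat.empty)))) Pat.empty =
      (CyS S N hN).Ws y (Dm S N n m) {aG S (j : ℕ)} (aG S (i : ℕ)) := by
  have hx : ∀ a : Fin N, S.lx (-1) ((a : ℕ) : ℤ) + 1 = S.lx 0 ((a : ℕ) : ℤ) - 1 := fun a => by
    have := lx_eq S (-1) ((a : ℕ) : ℤ)
    omega
  have t := tot_eq S y N n m (((l.map fun a : Fin N => (Co (lf (S.lx 0 ((a : ℕ) : ℤ)) ((a : ℕ) : ℤ))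
        (rt (S.lx (-1) ((a : ℕ) : ℤ) + 1) ((a : ℕ) : ℤ)) : Op Lab K)).prod)
      (HS.ind (cup (rt (S.lx (-1) ((i : ℕ) : ℤ) + 1) ((i : ℕ) : ℤ)) (rt (S.lx (-1) ((j : ℕ) : ℤ) + 1) ((j : ℕ) : ℤ))
        Pat.empty)))
  have e : (fun q => ((l.map fun a : Fin N => (Co (lf (S.lx 0 ((a : ℕ) : ℤ)) ((a : ℕ) : ℤ))
        (rt (S.lx (-1) ((a : ℕ) : ℤ) + 1) ((a : ℕ) : ℤ)) : Op Lab K)).prod)
      (HS.ind (cup (rt (S.lx (-1) ((i : ℕ) : ℤ) + 1) ((i : ℕ) : ℤ)) (rt (S.lx (-1) ((j : ℕ) : ℤ) + 1) ((j : ℕ) : ℤ))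
        Pat.empty)) (Fr S (fun _ => 0) (fun _ => -1) 0 0 q)) =
      gS K l (HS.ind (cup (Xl i) (Xl j) Pat.empty)) := funext fun q => gS_lft l (Xl i) (Xl j) q
  rw [e] at t
  refine t.symm.trans ?_
  rw [sorted (hN := hN) hS y hl.1, hx i, hx j]
  have hi : i ∉ l := fun h => ((hl.2 i).1 h).1 rfl
  have hj : j ∉ l := fun h => ((hl.2 j).1 h).2 rfl
  have hed : ∀ i : Fin N, (CyS S N hN).ed (pG S (i : ℕ)) = (CyS S N hN).ed (aG S (i : ℕ)) := fun i => by
    rw [ed_aG i.2, he_cI]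
  have hV : ∀ i j : Fin N, i ≠ j → (pG S (i : ℕ)).1 ≠ (pG S (j : ℕ)).1 := by
    intro i j hij e
    unfold pG at e
    rw [V_inj] at e
    exact hij (Fin.ext (by exact_mod_cast e.2))
  have h1 := GLD.two_cut (C := CyS S N hN) y (A := Dm S N n m) (E := Ed S N hN (iB S N n m l))
    (E' := Ed S N hN (iA S N n m)) (Edg_Ed iB_sub) (Edg_Ed fun _ h => h)
    (a := pG S (i : ℕ)) (b := pG S (j : ℕ)) (De_pG i.2) (De_pG j.2)
    (by rw [hed]; exact aG_notMem hS hi) (by rw [hed]; exact aG_notMem hS hj) (fun e => hij (Fin.ext (cI_inj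
      (ed_inj hS (n := n) (m := m) (cI_mem i.2) (cI_mem j.2) (by rw [he_cI, he_cI]; exact e)))))
    (by rw [hed, hed]; exact Ed_eq hl)
    (mem_Dm.2 ⟨⟨by omega, by omega⟩, by positivity, by exact_mod_cast i.2⟩)
    (mem_Dm.2 ⟨⟨by omega, by omega⟩, by positivity, by exact_mod_cast j.2⟩)
    (hV i j hij) (fun w hw d hd => incl hS hw hd)
  rw [rv_pG i.2, rv_pG j.2] at h1
  exact h1

theorem arc_right {K : Type*} [CommRing K] (hS : S.Per N) (y : K) {n : ℕ} (hn : 1 ≤ n) {i j : Fin N} (hij : i ≠ j) :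
    (NUG.ringF (wS S y N) cc dd (XR N))^[n] (HS.ind (cup (Xr i) (Xr j) Pat.empty)) Pat.empty =
      (CyS S N hN).Ws y (Dm S N n 0) {pG S (j : ℕ)} (pG S (i : ℕ)) := by
  rw [← rings_eq (hN := hN) hS y (n := n) (m := 0) hn hij (rest_restL i j)]
  refine (iter_pres (NUG.pres_ringF _ (nodup_XR _) (cc_ne_dd _) (cc_XR _) (dd_XR _)) n (fun p hp => ?_) _
    (NUF.ax_empty _)).symm
  exact gS_arc (K := K) (fun a ha => ((rest_restL i j).2 a).1 ha) false (fun a => NUF.ax_out hp (Xl_notMem a))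

theorem arc_left {K : Type*} [CommRing K] (hS : S.Per N) (y : K) {m : ℕ} (hm : 1 ≤ m) {i j : Fin N} (hij : i ≠ j) :
    (NUG.ringF (wS S y N) cc dd (XL N))^[m] (HS.ind (cup (Xl i) (Xl j) Pat.empty)) Pat.empty =
      (CyS S N hN).Ws y (Dm S N 0 m) {aG S (j : ℕ)} (aG S (i : ℕ)) := by
  rw [← rings_eqL (hN := hN) hS y (n := 0) (m := m) hm hij (rest_restL i j)]
  refine (iter_pres (NUG.pres_ringF _ (nodup_XL _) (cc_ne_dd _) (cc_XL _) (dd_XL _)) m (fun p hp => ?_) _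
    (NUF.ax_empty _)).symm
  exact gS_arc (K := K) (fun a ha => ((rest_restL i j).2 a).1 ha) true (fun a => NUF.ax_out hp (Xr_notMem a))

/-! ### the majorant property -/

theorem dR_mem (x i : ℤ) : dR x i ∈ dirs := by
  unfold MXR.dR
  split_ifs <;> decide

theorem dL_mem (x i : ℤ) : dL x i ∈ dirs := by
  unfold MXR.dL
  split_ifs <;> decide

theorem rv_pG_ne {i j : ℕ} (hi : i < N) : (CyS S N hN).rv (pG S i) ≠ pG S j := by
  rw [rv_pG hi]
  intro e
  have := congrArg (fun p : Pt × Pt => p.2.1) e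
  unfold aG pG at this
  simp only at this
  rw [MXR.dR_fst, MXR.dL_fst] at this
  omega

theorem rv_aG_ne {i j : ℕ} (hi : i < N) : (CyS S N hN).rv (aG S i) ≠ aG S j := by
  rw [rv_aG hi]
  intro e
  have := congrArg (fun p : Pt × Pt => p.2.1) e
  unfold aG pG at this
  simp only at this
  rw [MXR.dR_fst, MXR.dL_fst] at this
  omega

theorem Ws_pG_le (A : Finset Pt) {i j : ℕ} (hi : i < N) (hj : j < N)
    (hf : gf (CW S N (pG S i) (pG S j)) ≠ ⊤) :
    (CyS S N hN).Ws xc A {pG S j} (pG S i) ≤ (gf (CW S N (pG S i) (pG S j))).toReal :=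
  (ENNReal.ofReal_le_iff_le_toReal hf).1
    (join_le (hN := hN) A (dR_mem _ _) (De_pG hi).2 (De_pG hj).2 (rv_pG_ne hi))

theorem Ws_aG_le (A : Finset Pt) {i j : ℕ} (hi : i < N) (hj : j < N)
    (hf : gf (CW S N (aG S i) (aG S j)) ≠ ⊤) :
    (CyS S N hN).Ws xc A {aG S j} (aG S i) ≤ (gf (CW S N (aG S i) (aG S j))).toReal :=
  (ENNReal.ofReal_le_iff_le_toReal hf).1
    (join_le (hN := hN) A (dL_mem _ _) (De_aG hi).2 (De_aG hj).2 (rv_aG_ne hi))

theorem majW_R (hN2 : 2 ≤ N) (hS : S.Per N) (hf : gf (CW S N (pG S 0) (pG S 1)) ≠ ⊤) :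
    MajW (wS S xc N) cc dd (XR N) := by
  have h02 : (⟨0, by omega⟩ : Fin N) ≠ ⟨1, by omega⟩ := by
    rw [Ne, Fin.mk.injEq]
    omega
  refine majW_of_arc wS_WP (nodup_XR _) (cc_ne_dd _) (cc_XR _) (dd_XR _)
    (a := Xr ⟨0, by omega⟩) (b := Xr ⟨1, by omega⟩) (Xr_mem _) (Xr_mem _) ?_
    (B := (gf (CW S N (pG S 0) (pG S 1))).toReal) fun n hn => ?_
  · intro e
    unfold Xr at e
    simp at e
  · rw [arc_right (hN := by omega) hS xc hn h02]
    exact Ws_pG_le _ (by omega) (by omega) hf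

theorem majW_L (hN2 : 2 ≤ N) (hS : S.Per N) (hf : gf (CW S N (aG S 0) (aG S 1)) ≠ ⊤) :
    MajW (wS S xc N) cc dd (XL N) := by
  have h02 : (⟨0, by omega⟩ : Fin N) ≠ ⟨1, by omega⟩ := by
    rw [Ne, Fin.mk.injEq]
    omega
  refine majW_of_arc wS_WP (nodup_XL _) (cc_ne_dd _) (cc_XL _) (dd_XL _)
    (a := Xl ⟨0, by omega⟩) (b := Xl ⟨1, by omega⟩) (Xl_mem _) (Xl_mem _) ?_
    (B := (gf (CW S N (aG S 0) (aG S 1))).toReal) fun n hn => ?_
  · intro e
    unfold Xl at e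
    simp at e
  · rw [arc_left (hN := by omega) hS xc hn h02]
    exact Ws_aG_le _ (by omega) (by omega) hf

/-- **wide cylinders have the majorant property** -/
theorem maj_wide : ∃ k0 : ℕ, ∀ (S : Stair) (N : ℕ), 2 ≤ N → S.Per N → k0 ≤ hn (TT S N) →
    MajW (wS S xc N) cc dd (XR N) ∧ MajW (wS S xc N) cc dd (XL N) := by
  obtain ⟨k0, h⟩ := CW_fin
  exact ⟨k0, fun S N hN2 hS hk => ⟨majW_R hN2 hS (h S N _ _ (dR_mem _ _) hk), majW_L hN2 hS (h S N _ _ (dL_mem _ _) hk)⟩⟩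

/-! ### the two-point function -/

/-- **The two-point function of the two ring functionals of the staircase**, cut rows `0` and `r`. -/
noncomputable def WPS (S : Stair) (h : r < N) : ℂ :=
  NU5.WR cc dd (zS S N) (Ir N r) (Jr N r) (Xr (r0 h)) (Xl (r0 h)) (Xr (rr h)) (Xl (rr h))

theorem WPS_pU (S : Stair) (h1 : 1 ≤ r) (h : r < N) :
    WPS S h = NUG.pU (NUT2.VR cc dd (zS S N) (XR N)) (NUT2.VR cc dd (zS S N) (XL N))
      (fun q => ((PLX.FP h q : ℝ) : ℂ)) := by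
  rw [NUG.pU_apply, WPS, Jr_eq, Ir_eq]
  unfold NU5.WR
  rw [rowsR_X h1 h, rowsL_X h1 h, ← prs_append]
  refine congrArg _ (funext fun p => congrArg _ (funext fun p' => ?_))
  refine glu_prs _ _ _ (fun q => ?_) _
  unfold NU5.arc
  by_cases h : q = cup (Xr (r0 h)) (Xr (rr h)) Pat.empty
  · rw [h, HS.ind_self, HS.ind_self, Complex.ofReal_one]
  · rw [HS.ind_ne h, HS.ind_ne h, Complex.ofReal_zero]

theorem XRXL (N : ℕ) : ∀ x ∈ XR N, x ∉ XL N := by
  intro x hx hx'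
  obtain ⟨a, -, rfl⟩ := List.mem_map.1 hx
  exact Xr_notMem a hx'

/-- the words in the rings -m, .., m - 1 -/
noncomputable def WSm (S : Stair) (hN : 1 ≤ N) (r m : ℕ) : ℝ :=
  (CyS S N hN).Ws xc (Dm S N m m) {pG S r} (pG S 0)

theorem WPS_lim (h1 : 1 ≤ r) (h : r < N) (hS : S.Per N) (hR : MajW (wS S xc N) cc dd (XR N))
    (hL : MajW (wS S xc N) cc dd (XL N)) :
    Tendsto (fun m => ((WSm S (PLX.one_le h) r m : ℝ) : ℂ)) atTop (𝓝 (WPS S h)) := by
  rw [WPS_pU S h1]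
  have hV := isF_VR (w := wS S xc N) (z := zS S N) wS_WP hR (fun j _ => zS_wt j) (nodup_XR _) (cc_ne_dd _)
    (cc_XR _) (dd_XR _)
  have hV' := isF_VR (w := wS S xc N) (z := zS S N) wS_WP hL (fun j _ => zS_wt j) (nodup_XL _) (cc_ne_dd _)
    (cc_XL _) (dd_XL _)
  have h2 := ringW_pU_lim (wS_WP (S := S)) (wS_WP (S := S)) hR hL (nodup_XR N) (nodup_XL N) (XRXL N) (cc_ne_dd _) (cc_XR _)
    (dd_XR _) (cc_XL _) (dd_XL _) hV hV' (PLX.FP h)
  refine h2.congr' ?_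
  filter_upwards [eventually_ge_atTop 1] with m hm
  have h3 := rings_eq (K := ℝ) (hN := by omega) hS xc (n := m) (m := m) hm (r0_ne_rr h1 h) (rest_r h1 h)
  exact congrArg (fun r : ℝ => (r : ℂ)) h3

theorem WSm_mono (hN : 1 ≤ N) : Monotone (WSm S hN r) := fun _ _ hm => GLD.Ws_mono (Dm_mono hm hm) _ _ xc_pos.le

theorem WSm_nn (hN : 1 ≤ N) (m : ℕ) : 0 ≤ WSm S hN r m := Finset.sum_nonneg fun _ _ => pow_nonneg xc_pos.le _

/-- the value is real and non-negative. -/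
theorem WPS_real (h1 : 1 ≤ r) (h : r < N) (hS : S.Per N) (hR : MajW (wS S xc N) cc dd (XR N))
    (hL : MajW (wS S xc N) cc dd (XL N)) : WPS S h = ((WPS S h).re : ℂ) ∧ 0 ≤ (WPS S h).re ∧
    Tendsto (WSm S (PLX.one_le h) r) atTop (𝓝 (WPS S h).re) := by
  have h2 := WPS_lim h1 h hS hR hL
  have h3 : Tendsto (WSm S (PLX.one_le h) r) atTop (𝓝 (WPS S h).re) :=
    (Complex.continuous_re.tendsto (WPS S h)).comp h2
  have h4 : Tendsto (fun m => ((WSm S (PLX.one_le h) r m : ℝ) : ℂ).im) atTop (𝓝 (WPS S h).im) :=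
    (Complex.continuous_im.tendsto (WPS S h)).comp h2
  have h5 : (WPS S h).im = 0 := by
    refine tendsto_nhds_unique h4 ?_
    simp
  refine ⟨?_, ge_of_tendsto' h3 (WSm_nn _), h3⟩
  apply Complex.ext
  · rw [Complex.ofReal_re]
  · rw [Complex.ofReal_im, h5]

/-- **The two-point function of the gas of a staircase is the generating function of the words of the plane modulo its
period.** -/
theorem WPS_eq (h1 : 1 ≤ r) (h : r < N) (hS : S.Per N) (hR : MajW (wS S xc N) cc dd (XR N))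
    (hL : MajW (wS S xc N) cc dd (XL N)) :
    ENNReal.ofReal (WPS S h).re = gf (CW S N (pG S 0) (pG S r)) := by
  have hN : 1 ≤ N := by omega
  have h2 := (WPS_real h1 h hS hR hL).2.2
  have h3 : ENNReal.ofReal (WPS S h).re = ⨆ m, ENNReal.ofReal (WSm S hN r m) :=
    tendsto_nhds_unique ((ENNReal.continuous_ofReal.tendsto _).comp h2)
      (tendsto_atTop_iSup fun a b hm => ENNReal.ofReal_le_ofReal (WSm_mono hN hm))
  rw [h3]
  have hp := De_pG (S := S) (hN := hN) (show 0 < N by omega)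
  exact join_sup (hN := hN) (dR_mem _ _) hp.2 hp.1.2.1 hp.1.2.2 (De_pG h).2 (rv_pG_ne (by omega))

end Pool.Agent.THJ
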