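import Pool.Agent.THJ.Sort
import Pool.Agent.MXR.Fin
import Pool.Agent.GLD.TwoCut
import Pool.Agent.NUNC.Lists

/-!
# TH-J: the rings of a staircase are the words of its cylinder (helper62; as `MXR/Word`, `GLD/Net0`)

`rings_eq`: the iterated rings of the two halves, evaluated on the glued indicator of the arc of the right ends of the
rows `i`, `j`, are the sum over all words of the cylinder of the staircase in the rings `-m, .., n - 1` from the cut
edge of the row `i` to the cut edge of the row `j`.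
-/

set_option autoImplicit false

namespace Pool.Agent.THJ

open Pool.Agent.EXL hiding cc
open Pool.Agent.EXL.Pat Pool.Agent.EXL.Net HexObs HexObs.LP
open Pool.Agent.NUF.Cyl (Nm Co_eq_glue)
open Pool.Agent.NUN (cc Xr Xl)
open Pool.Agent.NUNC (dd)
open Pool.Agent.MXR (XR XL gS Rest Co_lft ind_lft CO_congr V_injective vO he he_true he_false rings mem_rings
  pairwise_rings V V_inj dR dL dU io V_dR V_dL V_dU lf rt vt rt_inj lf_inj vt_inj De_V neg_dR neg_dL
  rt_ne_lf lf_ne_rt rt_ne_vt vt_ne_rt lf_ne_vt vt_ne_lf)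

variable {K : Type*} [CommRing K] {S : Stair} {N : ℕ} {hN : 1 ≤ N}

/-! ### vertices -/

theorem lx_eq (S : Stair) (k i : ℤ) : S.lx k i = S.lx 0 i + 2 * k := by
  have := S.lx_sub k 0 i
  omega

/-- the ring of a vertex -/
theorem InR_iff {k : ℤ} {w : ℤ × ℤ} : InR S k w ↔ (w.1 - S.lx 0 w.2) / 2 = k := by
  unfold InR
  rw [lx_eq S k w.2]
  omega

theorem nodup_vL (k : ℤ) : (vL S N k).Nodup := by
  have key : (List.range N).Pairwise (fun a b => List.Disjoint (pV S k (a : ℕ)) (pV S k (b : ℕ))) := by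
    refine List.pairwise_lt_range.imp fun {a b} hab => ?_
    intro w h1 h2
    rw [mem_pV] at h1 h2
    rcases h1 with rfl | rfl <;> rcases h2 with h2 | h2 <;> rw [Prod.mk.injEq] at h2 <;> omega
  have key2 : ∀ i : ℕ, (pV S k (i : ℤ)).Nodup := by
    intro i
    unfold pV
    simp
  unfold vL
  split_ifs
  · unfold rV
    rw [List.nodup_flatMap]
    exact ⟨fun i _ => key2 i, key⟩
  · unfold lV
    rw [List.nodup_flatMap]
    refine ⟨fun i _ => key2 i, ?_⟩
    rw [List.pairwise_reverse]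
    exact key.imp fun {a b} h => h.symm

theorem mem_vL' {k : ℤ} {w : ℤ × ℤ} : w ∈ vL S N k ↔ InR S k w ∧ 0 ≤ w.2 ∧ w.2 < N := by
  constructor
  · intro h
    exact ⟨InR_vL h, vL_range h⟩
  · rintro ⟨h, h1, h2⟩
    rw [mem_vL]
    refine ⟨w.2.toNat, by omega, ?_⟩
    have e : ((w.2.toNat : ℕ) : ℤ) = w.2 := by omega
    rw [mem_pV, e]
    unfold InR at h
    rcases Int.lt_or_le (S.lx k w.2) w.1 with h3 | h3
    · exact Or.inr (Prod.ext (by simp only; omega) rfl)
    · exact Or.inl (Prod.ext (by simp only; omega) rfl)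

theorem mem_vA {n m : ℕ} {w : ℤ × ℤ} : w ∈ vA S N n m ↔
    (-(2 * m : ℤ) ≤ w.1 - S.lx 0 w.2 ∧ w.1 - S.lx 0 w.2 < 2 * n) ∧ 0 ≤ w.2 ∧ w.2 < N := by
  unfold vA
  rw [List.mem_flatMap]
  constructor
  · rintro ⟨k, hk, h⟩
    rw [mem_rings] at hk
    rw [mem_vL', InR_iff] at h
    omega
  · rintro ⟨⟨h1, h2⟩, h3⟩
    exact ⟨(w.1 - S.lx 0 w.2) / 2, mem_rings.2 (by omega), mem_vL'.2 ⟨InR_iff.2 rfl, h3⟩⟩

theorem nodup_vA (n m : ℕ) : (vA S N n m).Nodup := by
  unfold vA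
  rw [List.nodup_flatMap]
  refine ⟨fun k _ => nodup_vL k, ?_⟩
  refine (pairwise_rings n m).imp fun {a b} hab => ?_
  intro w h1 h2
  have := (InR_vL h1).eq (InR_vL h2)
  omega

/-- **the domain: the rings -m, .., n - 1** -/
noncomputable def Dm (S : Stair) (N n m : ℕ) : Finset Pt := by
  classical
  exact ((vA S N n m).map fun w : ℤ × ℤ => V w.1 w.2).toFinset

theorem exists_of_mem_Dm {n m : ℕ} {v : Pt} (h : v ∈ Dm S N n m) : ∃ x i : ℤ, v = V x i ∧
    (-(2 * m : ℤ) ≤ x - S.lx 0 i ∧ x - S.lx 0 i < 2 * n) ∧ 0 ≤ i ∧ i < N := by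
  unfold Dm at h
  rw [List.mem_toFinset, List.mem_map] at h
  obtain ⟨w, hw, rfl⟩ := h
  exact ⟨w.1, w.2, rfl, mem_vA.1 hw⟩

theorem mem_Dm {n m : ℕ} {x i : ℤ} : V x i ∈ Dm S N n m ↔
    (-(2 * m : ℤ) ≤ x - S.lx 0 i ∧ x - S.lx 0 i < 2 * n) ∧ 0 ≤ i ∧ i < N := by
  constructor
  · intro h
    obtain ⟨x', i', e, h1⟩ := exists_of_mem_Dm h
    rw [V_inj] at e
    rw [e.1, e.2]
    exact h1
  · intro h
    unfold Dm
    rw [List.mem_toFinset, List.mem_map]
    exact ⟨(x, i), mem_vA.2 h, rfl⟩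

theorem CR_vA (y : K) (n m : ℕ) : ((vA S N n m).map (vO K y)).prod = CR y (Dm S N n m) := by
  classical
  have h1 : ((vA S N n m).map fun w : ℤ × ℤ => V w.1 w.2).Nodup := (nodup_vA n m).map V_injective
  have h3 : (CR y ((vA S N n m).map fun w : ℤ × ℤ => V w.1 w.2).toFinset : Op Lab K) =
      (((vA S N n m).map fun w : ℤ × ℤ => V w.1 w.2).map (Crv y)).prod :=
    Finset.noncommProd_toFinset _ _ _ h1
  rw [List.map_map] at h3
  unfold Dm
  rw [h3]
  rfl

/-! ### edges -/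

variable (S) in
/-- the item of the row a at the cut. -/
def cI (a : ℕ) : ℤ × ℤ × Bool := (S.lx 0 (a : ℤ) - 1, (a : ℤ), false)

variable (S) in
/-- all items: the rings and the cut. -/
def iA (N n m : ℕ) : List (ℤ × ℤ × Bool) := cA S N n m ++ (List.range N).map (cI S)

theorem nodup_cL (k : ℤ) : (cL S N k).Nodup := by
  unfold cL
  split_ifs
  · unfold rHs
    rw [List.nodup_flatMap]
    refine ⟨fun i _ => ?_, ?_⟩
    · unfold rH
      simp
    · refine List.pairwise_lt_range.imp fun {a b} hab => ?_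
      intro t h1 h2
      rw [mem_rH] at h1 h2
      rcases h1 with rfl | rfl | rfl <;> rcases h2 with h2 | h2 | h2 <;>
        rw [Prod.mk.injEq, Prod.mk.injEq] at h2 <;> omega
  · unfold lHs
    rw [List.nodup_flatMap]
    refine ⟨fun i _ => ?_, ?_⟩
    · unfold lH
      simp
    · rw [List.pairwise_reverse]
      refine List.pairwise_lt_range.imp fun {a b} hab => ?_
      intro t h1 h2
      rw [mem_lH] at h1 h2
      rcases h1 with rfl | rfl | rfl <;> rcases h2 with h2 | h2 | h2 <;>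
        rw [Prod.mk.injEq, Prod.mk.injEq] at h2 <;> omega

/-- the coordinates of the items of a ring. -/
theorem cL_coord {k : ℤ} {t : ℤ × ℤ × Bool} (h : t ∈ cL S N k) :
    (t.2.2 = true → (t.1 - S.lx 0 t.2.1) / 2 = k ∧ ((t.1 - t.2.1) % 2 = 0 ↔ 0 ≤ k)) ∧
    (t.2.2 = false → (0 ≤ k → (t.1 - S.lx 0 t.2.1) / 2 = k) ∧ (k < 0 → (t.1 - S.lx 0 t.2.1 + 1) / 2 = k)) := by
  rw [mem_cL] at h
  obtain ⟨i, hi, ⟨h0, h⟩ | ⟨h0, h⟩⟩ := h
  · rw [mem_rH] at h
    rcases h with rfl | rfl | rfl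
    · refine ⟨fun _ => ?_, fun h => by simp at h⟩
      have h1 := S.px_par k i
      have h2 := InR_iff.1 (InR_px (S := S) k i)
      simp only at h2 ⊢
      omega
    · refine ⟨fun h => by simp at h, fun _ => ?_⟩
      have := lx_eq S k i
      simp only
      omega
    · refine ⟨fun h => by simp at h, fun _ => ?_⟩
      have := lx_eq S k i
      simp only
      omega
  · rw [mem_lH] at h
    rcases h with rfl | rfl | rfl
    · refine ⟨fun _ => ?_, fun h => by simp at h⟩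
      have h1 := S.qx_par k i
      have h2 := InR_iff.1 (InR_qx (S := S) k i)
      simp only at h2 ⊢
      omega
    · refine ⟨fun h => by simp at h, fun _ => ?_⟩
      have := lx_eq S k i
      simp only
      omega
    · refine ⟨fun h => by simp at h, fun _ => ?_⟩
      have := lx_eq S k i
      simp only
      omega

theorem nodup_iA (n m : ℕ) : (iA S N n m).Nodup := by
  unfold iA
  rw [List.nodup_append]
  refine ⟨?_, ?_, ?_⟩
  · unfold cA
    rw [List.nodup_flatMap]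
    refine ⟨fun k _ => nodup_cL k, ?_⟩
    refine (pairwise_rings n m).imp fun {a b} hab => ?_
    intro t h1 h2
    obtain ⟨a1, a2⟩ := cL_coord h1
    obtain ⟨b1, b2⟩ := cL_coord h2
    obtain ⟨x, i, c⟩ := t
    cases c
    · obtain ⟨a3, a4⟩ := a2 rfl
      obtain ⟨b3, b4⟩ := b2 rfl
      simp only at a3 a4 b3 b4
      omega
    · have a3 := (a1 rfl).1
      have b3 := (b1 rfl).1
      simp only at a3 b3
      omega
  · refine List.Nodup.map ?_ List.nodup_range
    intro a b h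
    unfold cI at h
    rw [Prod.mk.injEq, Prod.mk.injEq] at h
    omega
  · intro t h1 t' h2 e
    subst e
    unfold cA at h1
    rw [List.mem_flatMap] at h1
    obtain ⟨k, hk, h1⟩ := h1
    obtain ⟨-, a2⟩ := cL_coord h1
    rw [List.mem_map] at h2
    obtain ⟨i, hi, rfl⟩ := h2
    obtain ⟨a3, a4⟩ := a2 rfl
    unfold cI at a3 a4
    simp only at a3 a4
    omega

theorem mem_iA {n m : ℕ} {x i : ℤ} {b : Bool} : (x, i, b) ∈ iA S N n m ↔
    (0 ≤ i ∧ i < N) ∧
      (b = true → (-(2 * m : ℤ) ≤ x - S.lx 0 i ∧ x - S.lx 0 i < 2 * n) ∧ ((x - i) % 2 = 0 ↔ 0 ≤ x - S.lx 0 i)) ∧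
      (b = false → -(2 * m : ℤ) - 1 ≤ x - S.lx 0 i ∧ x - S.lx 0 i < 2 * n) := by
  unfold iA cA
  rw [List.mem_append, List.mem_flatMap, List.mem_map]
  constructor
  · rintro (⟨k, hk, h⟩ | ⟨j, hj, e⟩)
    · obtain ⟨a1, a2⟩ := cL_coord h
      obtain ⟨a3, a4⟩ := cL_range h
      rw [mem_rings] at hk
      simp only at a1 a2 a3 a4
      refine ⟨⟨a3, a4⟩, fun hb => ?_, fun hb => ?_⟩
      · obtain ⟨a5, a6⟩ := a1 hb
        rw [a6]
        omega
      · obtain ⟨a5, a6⟩ := a2 hb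
        omega
    · rw [List.mem_range] at hj
      unfold cI at e
      rw [Prod.mk.injEq, Prod.mk.injEq] at e
      obtain ⟨rfl, rfl, rfl⟩ := e
      exact ⟨⟨by positivity, by exact_mod_cast hj⟩, fun h => by simp at h, fun _ => by omega⟩
  · rintro ⟨⟨h1, h2⟩, h3, h4⟩
    obtain ⟨i, rfl⟩ := Int.eq_ofNat_of_zero_le h1
    have hi : i < N := by exact_mod_cast h2
    cases b
    · have h5 := h4 rfl
      by_cases c : x = S.lx 0 i - 1
      · subst c
        exact Or.inr ⟨i, List.mem_range.2 hi, rfl⟩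
      · left
        by_cases c0 : 0 ≤ x - S.lx 0 i
        · refine ⟨(x - S.lx 0 i) / 2, mem_rings.2 (by omega), ?_⟩
          rw [mem_cL]
          refine ⟨i, hi, Or.inl ⟨by omega, ?_⟩⟩
          have h6 := lx_eq S ((x - S.lx 0 i) / 2) i
          rw [mem_rH]
          rcases Int.emod_two_eq_zero_or_one (x - S.lx 0 i) with h | h
          · right; right
            refine Prod.ext ?_ rfl
            simp only
            omega
          · right; left
            refine Prod.ext ?_ rfl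
            simp only
            omega
        · refine ⟨(x - S.lx 0 i + 1) / 2, mem_rings.2 (by omega), ?_⟩
          rw [mem_cL]
          refine ⟨i, hi, Or.inr ⟨by omega, ?_⟩⟩
          have h6 := lx_eq S ((x - S.lx 0 i + 1) / 2) i
          rw [mem_lH]
          rcases Int.emod_two_eq_zero_or_one (x - S.lx 0 i) with h | h
          · right; right
            refine Prod.ext ?_ rfl
            simp only
            omega
          · right; left
            refine Prod.ext ?_ rfl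
            simp only
            omega
    · obtain ⟨h5, h6⟩ := h3 rfl
      left
      refine ⟨(x - S.lx 0 i) / 2, mem_rings.2 (by omega), ?_⟩
      rw [mem_cL]
      have h7 := lx_eq S ((x - S.lx 0 i) / 2) i
      by_cases c0 : 0 ≤ x - S.lx 0 i
      · refine ⟨i, hi, Or.inl ⟨by omega, ?_⟩⟩
        rw [mem_rH]
        left
        refine Prod.ext ?_ rfl
        exact S.px_of (by omega) (by omega) (h6.2 c0)
      · refine ⟨i, hi, Or.inr ⟨by omega, ?_⟩⟩
        rw [mem_lH]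
        left
        refine Prod.ext ?_ rfl
        exact S.qx_of (by omega) (by omega) fun h => c0 (h6.1 h)

variable (hS : S.Per N)

include hS in
/-- the other end of a vertical edge is in the same ring -/
theorem InR_u (hN : 1 ≤ N) {k x i : ℤ} (h1 : 0 ≤ i) (h2 : i < N) (h : InR S k (x, i)) :
    InR S k (ux S N x i, uy N x i) := by
  have h4 : S.lx k i ≤ x := h.1
  have h5 : x ≤ S.lx k i + 1 := h.2
  rcases Int.emod_two_eq_zero_or_one (x - i) with h3 | h3
  · rw [S.px_of h4 h5 h3]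
    exact InR_up hS hN h1 h2
  · rw [S.qx_of h4 h5 (by omega)]
    exact InR_uq hS hN h1 h2

theorem upar' (x i : ℤ) : (ux S N x i - uy N x i) % 2 = 0 ↔ ¬ (x - i) % 2 = 0 := by
  rw [upar]
  unfold io
  split_ifs <;> omega

include hS in
/-- the edges of different items are different. -/
theorem ed_inj {n m : ℕ} {t t' : ℤ × ℤ × Bool} (ht : t ∈ iA S N n m)
    (ht' : t' ∈ iA S N n m) (e : (CyS S N hN).ed (he t) = (CyS S N hN).ed (he t')) : t = t' := by
  obtain ⟨x, i, b⟩ := t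
  obtain ⟨x', i', b'⟩ := t'
  rw [mem_iA] at ht ht'
  obtain ⟨⟨a1, a2⟩, a3, a4⟩ := ht
  obtain ⟨⟨c1, c2⟩, c3, c4⟩ := ht'
  cases b <;> cases b'
  · rw [Ced_false a1 a2, Ced_false c1 c2, Sym2.eq_iff] at e
    rcases e with ⟨e, -⟩ | ⟨e, -⟩
    · rw [rt_inj] at e
      rw [e.1, e.2]
    · simp at e
  · rw [Ced_false a1 a2, Ced_true, Sym2.eq_iff] at e
    rcases e with ⟨e, -⟩ | ⟨e, -⟩ <;> simp at e
  · rw [Ced_true, Ced_false c1 c2, Sym2.eq_iff] at e
    rcases e with ⟨e, -⟩ | ⟨e, -⟩ <;> simp at e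
  · rw [Ced_true, Ced_true, Sym2.eq_iff] at e
    rcases e with ⟨e, -⟩ | ⟨e, -⟩
    · rw [vt_inj] at e
      rw [e.1, e.2]
    · exfalso
      rw [vt_inj] at e
      have h1 := (a3 rfl).2
      have h2 := (c3 rfl).2
      have h3 : InR S ((x' - S.lx 0 i') / 2) (x', i') := InR_iff.2 rfl
      have h4 := InR_u hS hN c1 c2 h3
      rw [← e.1, ← e.2, InR_iff] at h4
      have h5 := upar' (S := S) (N := N) x' i'
      rw [← e.1, ← e.2] at h5
      simp only at h4
      rw [h1, h2] at h5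
      omega

include hS in
theorem nodup_ed {n m : ℕ} : ((iA S N n m).map (fun t => (CyS S N hN).ed (he t))).Nodup :=
  List.Nodup.map_on (fun _ ht _ ht' e => ed_inj hS ht ht' e) (nodup_iA n m)

variable (S) in
/-- the edges of the domain. -/
noncomputable def Ed (N : ℕ) (hN : 1 ≤ N) (l : List (ℤ × ℤ × Bool)) : Finset (Sym2 Lab) := by
  classical
  exact (l.map (fun t => (CyS S N hN).ed (he t))).toFinset

theorem mem_Ed {l : List (ℤ × ℤ × Bool)} {e : Sym2 Lab} :
    e ∈ Ed S N hN l ↔ ∃ t ∈ l, (CyS S N hN).ed (he t) = e := by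
  unfold Ed
  rw [List.mem_toFinset, List.mem_map]

theorem De_he {x i : ℤ} {b : Bool} (h1 : 0 ≤ i) (h2 : i < N) : (CyS S N hN).De (he (x, i, b)) := by
  cases b
  · exact ⟨De_V.2 (Or.inl rfl), nm_V h1 h2⟩
  · exact ⟨De_V.2 (Or.inr (Or.inr rfl)), nm_V h1 h2⟩

theorem De_mem {n m : ℕ} {t : ℤ × ℤ × Bool} (ht : t ∈ iA S N n m) : (CyS S N hN).De (he t) := by
  obtain ⟨x, i, b⟩ := t
  rw [mem_iA] at ht
  exact De_he ht.1.1 ht.1.2

theorem Edg_Ed {n m : ℕ} {l : List (ℤ × ℤ × Bool)} (hl : ∀ t ∈ l, t ∈ iA S N n m) :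
    (CyS S N hN).Edg (Ed S N hN l) := by
  intro e he'
  obtain ⟨t, ht, rfl⟩ := mem_Ed.1 he'
  exact ⟨he t, De_mem (hl t ht), rfl⟩

include hS in
theorem CO_Ed {n m : ℕ} {l : List (ℤ × ℤ × Bool)} (hl : ∀ t ∈ l, t ∈ iA S N n m) (hn : l.Nodup) :
    (l.map (fun t => (CoS ((CyS S N hN).ed (he t)) : Op Lab K))).prod = Nm.CO K (Ed S N hN l) (Edg_Ed hl) := by
  classical
  have h1 : (l.map (fun t => (CyS S N hN).ed (he t))).Nodup :=
    List.Nodup.map_on (fun _ ht _ ht' e => ed_inj hS (hl _ ht) (hl _ ht') e) hn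
  have h3 : Nm.CO K (Ed S N hN l) (Edg_Ed hl) =
      ((l.map (fun t => (CyS S N hN).ed (he t))).map (CoS : Sym2 Lab → Op Lab K)).prod :=
    Finset.noncommProd_toFinset _ _ _ h1
  rw [h3, List.map_map]
  rfl

include hS in
/-- all edges at the vertices of the domain. -/
theorem incl {n m : ℕ} {w : Pt} (hw : w ∈ Dm S N n m) {d : Pt} (hd : (CyS S N hN).De (w, d)) :
    (CyS S N hN).ed (w, d) ∈ Ed S N hN (iA S N n m) := by
  obtain ⟨x, i, rfl, h1, h2, h3⟩ := exists_of_mem_Dm hw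
  rcases De_V.1 hd.1 with rfl | rfl | rfl
  · refine mem_Ed.2 ⟨(x, i, false), mem_iA.2 ⟨⟨h2, h3⟩, fun h => by simp at h, fun _ => by omega⟩, rfl⟩
  · refine mem_Ed.2 ⟨(x - 1, i, false), mem_iA.2 ⟨⟨h2, h3⟩, fun h => by simp at h, fun _ => by omega⟩, ?_⟩
    rw [← Nm.ed_rv (h := (V x i, dL x i)) hd.2, rv_L h2 h3]
    rfl
  · by_cases c : (x - i) % 2 = 0 ↔ 0 ≤ x - S.lx 0 i
    · exact mem_Ed.2 ⟨(x, i, true), mem_iA.2 ⟨⟨h2, h3⟩, fun _ => ⟨h1, c⟩, fun h => by simp at h⟩, rfl⟩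
    · have h4 : InR S ((x - S.lx 0 i) / 2) (x, i) := InR_iff.2 rfl
      have h5 := InR_iff.1 (InR_u hS hN h2 h3 h4)
      have h6 := upar' (S := S) (N := N) x i
      simp only at h5
      refine mem_Ed.2 ⟨(ux S N x i, uy N x i, true), mem_iA.2 ⟨⟨Int.emod_nonneg _ (by omega),
        Int.emod_lt_of_pos _ (by omega)⟩, fun _ => ⟨by omega, ?_⟩, fun h => by simp at h⟩, ?_⟩
      · rw [h6]
        omega
      · rw [← Nm.ed_rv (h := (V x i, dU x i)) hd.2, rv_U]
        rfl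

/-! ### the cut edges -/

variable (S) in
/-- the left leg of the first vertex right of the cut -/
def aG (r : ℕ) : Pt × Pt := (V (S.lx 0 r) r, dL (S.lx 0 r) r)

variable (S) in
/-- the cut edge, directed to the right -/
def pG (r : ℕ) : Pt × Pt := (V (S.lx 0 r - 1) r, dR (S.lx 0 r - 1) r)

theorem he_cI (r : ℕ) : he (cI S r) = pG S r := rfl

theorem rv_aG {r : ℕ} (h : r < N) : (CyS S N hN).rv (aG S r) = pG S r :=
  rv_L (by positivity) (by exact_mod_cast h)

theorem rv_pG {r : ℕ} (h : r < N) : (CyS S N hN).rv (pG S r) = aG S r := by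
  unfold pG
  rw [rv_R (by positivity) (by exact_mod_cast h), sub_add_cancel]
  rfl

theorem De_aG {r : ℕ} (h : r < N) : (CyS S N hN).De (aG S r) :=
  ⟨De_V.2 (Or.inr (Or.inl rfl)), nm_V (by positivity) (by exact_mod_cast h)⟩

theorem De_pG {r : ℕ} (h : r < N) : (CyS S N hN).De (pG S r) :=
  ⟨De_V.2 (Or.inl rfl), nm_V (by positivity) (by exact_mod_cast h)⟩

theorem ed_aG {r : ℕ} (h : r < N) : (CyS S N hN).ed (aG S r) = (CyS S N hN).ed (he (cI S r)) := by
  rw [he_cI, ← rv_aG (hN := hN) h, Nm.ed_rv (De_aG h).2]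

theorem cI_mem {n m : ℕ} {r : ℕ} (h : r < N) : cI S r ∈ iA S N n m := by
  unfold iA
  exact List.mem_append.2 (Or.inr (List.mem_map.2 ⟨r, List.mem_range.2 h, rfl⟩))

theorem CoS_cI {r : ℕ} (h : r < N) : (CoS ((CyS S N hN).ed (he (cI S r))) : Op Lab K) =
    Co (lf (S.lx 0 r) r) (rt (S.lx (-1) r + 1) r) := by
  unfold cI
  rw [Ced_false (by positivity) (by exact_mod_cast h), sub_add_cancel]
  have : S.lx (-1) (r : ℤ) + 1 = S.lx 0 r - 1 := by
    have := lx_eq S (-1) r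
    omega
  rw [this]
  exact Co_symm _ _

/-- all items without the two cut edges. -/
def iB (S : Stair) (N n m : ℕ) (l : List (Fin N)) : List (ℤ × ℤ × Bool) :=
  cA S N n m ++ l.map (fun a : Fin N => cI S (a : ℕ))

theorem iB_sub {n m : ℕ} {l : List (Fin N)} : ∀ t ∈ iB S N n m l, t ∈ iA S N n m := by
  intro t ht
  unfold iB at ht
  rcases List.mem_append.1 ht with h | h
  · unfold iA
    exact List.mem_append.2 (Or.inl h)
  · obtain ⟨a, -, rfl⟩ := List.mem_map.1 h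
    exact cI_mem a.2

theorem cI_inj {r s : ℕ} (h : cI S r = cI S s) : r = s := by
  unfold cI at h
  rw [Prod.mk.injEq, Prod.mk.injEq] at h
  omega

theorem nodup_iB (n m : ℕ) {l : List (Fin N)} (hl : l.Nodup) : (iB S N n m l).Nodup := by
  have h1 := nodup_iA (S := S) (N := N) n m
  unfold iA at h1
  unfold iB
  rw [List.nodup_append] at h1 ⊢
  refine ⟨h1.1, hl.map fun a b e => Fin.ext (cI_inj e), ?_⟩
  intro a ha b hb
  refine h1.2.2 a ha b ?_
  obtain ⟨c, -, rfl⟩ := List.mem_map.1 hb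
  exact List.mem_map.2 ⟨c, List.mem_range.2 c.2, rfl⟩

include hS in
theorem aG_notMem {n m : ℕ} {l : List (Fin N)} {i : Fin N} (hi : i ∉ l) :
    (CyS S N hN).ed (aG S (i : ℕ)) ∉ Ed S N hN (iB S N n m l) := by
  rw [ed_aG i.2]
  intro h
  obtain ⟨t, ht, e⟩ := mem_Ed.1 h
  have h1 := ed_inj hS (iB_sub t ht) (cI_mem i.2) e
  subst h1
  unfold iB at ht
  rcases List.mem_append.1 ht with hk | hk
  · have h2 := nodup_iA (S := S) (N := N) n m
    unfold iA at h2
    rw [List.nodup_append] at h2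
    exact h2.2.2 _ hk _ (List.mem_map.2 ⟨i, List.mem_range.2 i.2, rfl⟩) rfl
  · obtain ⟨a, ha, e⟩ := List.mem_map.1 hk
    exact hi (by rw [← Fin.ext (cI_inj e)]; exact ha)

theorem Ed_eq {n m : ℕ} {l : List (Fin N)} {i j : Fin N} (hl : Rest l i j) :
    Ed S N hN (iA S N n m) = insert ((CyS S N hN).ed (aG S (i : ℕ)))
      (insert ((CyS S N hN).ed (aG S (j : ℕ))) (Ed S N hN (iB S N n m l))) := by
  classical
  ext e
  rw [Finset.mem_insert, Finset.mem_insert, mem_Ed, mem_Ed, ed_aG i.2, ed_aG j.2]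
  constructor
  · rintro ⟨h, hh, rfl⟩
    unfold iA at hh
    rcases List.mem_append.1 hh with hh | hh
    · exact Or.inr (Or.inr ⟨h, List.mem_append.2 (Or.inl hh), rfl⟩)
    · obtain ⟨a, ha, rfl⟩ := List.mem_map.1 hh
      rw [List.mem_range] at ha
      by_cases h1 : a = i
      · exact Or.inl (by rw [h1])
      by_cases h2 : a = j
      · exact Or.inr (Or.inl (by rw [h2]))
      refine Or.inr (Or.inr ⟨cI S a, List.mem_append.2 (Or.inr (List.mem_map.2 ⟨⟨a, ha⟩, ?_, rfl⟩)), rfl⟩)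
      exact (hl.2 _).2 ⟨fun e => h1 (by rw [← e]), fun e => h2 (by rw [← e])⟩
  · rintro (rfl | rfl | ⟨h, hh, rfl⟩)
    · exact ⟨_, cI_mem i.2, rfl⟩
    · exact ⟨_, cI_mem j.2, rfl⟩
    · exact ⟨h, iB_sub h hh, rfl⟩

include hS in
/-- the network of the rings with the glued function, sorted. -/
theorem sorted (y : K) {n m : ℕ} {l : List (Fin N)} (hl : l.Nodup) (F : Pat Lab → K) :
    (rTot S y N n * lTot S y N m)
      ((l.map fun a : Fin N => (Co (lf (S.lx 0 ((a : ℕ) : ℤ)) ((a : ℕ) : ℤ))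
        (rt (S.lx (-1) ((a : ℕ) : ℤ) + 1) ((a : ℕ) : ℤ)) : Op Lab K)).prod F) Pat.empty =
      (CR y (Dm S N n m) * Nm.CO K (Ed S N hN (iB S N n m l)) (Edg_Ed iB_sub)) F Pat.empty := by
  rw [tot_sort (hN := hN) hS, CR_vA]
  have h2 : (l.map fun a : Fin N => (Co (lf (S.lx 0 ((a : ℕ) : ℤ)) ((a : ℕ) : ℤ))
        (rt (S.lx (-1) ((a : ℕ) : ℤ) + 1) ((a : ℕ) : ℤ)) : Op Lab K)) =
      (l.map (fun a : Fin N => cI S (a : ℕ))).map (fun t => (CoS ((CyS S N hN).ed (he t)) : Op Lab K)) := by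
    rw [List.map_map]
    exact List.map_congr_left fun a _ => (CoS_cI a.2).symm
  have h4 := CO_Ed (K := K) (hN := hN) hS (iB_sub (S := S) (N := N) (n := n) (m := m) (l := l)) (nodup_iB n m hl)
  unfold iB at h4
  rw [List.map_append, List.prod_append] at h4
  rw [h2]
  have h5 : ∀ (A B C : Op Lab K), (A * B) (C F) Pat.empty = (A * (B * C)) F Pat.empty := fun A B C => rfl
  rw [h5, h4]
  rfl

theorem gS_lft (l : List (Fin N)) (s t : NUF.St N) (q : Pat (NUF.St N)) :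
    ((l.map fun a : Fin N => (Co (lf (S.lx 0 ((a : ℕ) : ℤ)) ((a : ℕ) : ℤ))
        (rt (S.lx (-1) ((a : ℕ) : ℤ) + 1) ((a : ℕ) : ℤ)) : Op Lab K)).prod)
      (HS.ind (cup (fr S N (fun _ => 0) (fun _ => -1) 0 0 s) (fr S N (fun _ => 0) (fun _ => -1) 0 0 t)
        Pat.empty)) (Fr S (fun _ => 0) (fun _ => -1) 0 0 q) = gS K l (HS.ind (cup s t Pat.empty)) q := by
  induction l generalizing q with
  | nil => exact ind_lft _ (fr_inj S _ _ _ _) s t q
  | cons a l ih =>
    unfold gS at ih ⊢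
    rw [List.map_cons, List.prod_cons, List.map_cons, List.prod_cons, Module.End.mul_apply, Module.End.mul_apply,
      ← funext ih]
    exact Co_lft (fr S N (fun _ => 0) (fun _ => -1) 0 0) (fr_inj S _ _ _ _) (Xr a) (Xl a) _ q

include hS in
/-- **The rings of both halves = the words of the cylinder of the staircase.** -/
theorem rings_eq (y : K) {n m : ℕ} (hn : 1 ≤ n) {i j : Fin N} (hij : i ≠ j) {l : List (Fin N)}
    (hl : Rest l i j) :
    (NUG.ringF (wS S y N) cc dd (XR N))^[n] ((NUG.ringF (wS S y N) cc dd (XL N))^[m]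
      (gS K l (HS.ind (cup (Xr i) (Xr j) Pat.empty)))) Pat.empty =
      (CyS S N hN).Ws y (Dm S N n m) {pG S (j : ℕ)} (pG S (i : ℕ)) := by
  have t := tot_eq S y N n m (((l.map fun a : Fin N => (Co (lf (S.lx 0 ((a : ℕ) : ℤ)) ((a : ℕ) : ℤ))
        (rt (S.lx (-1) ((a : ℕ) : ℤ) + 1) ((a : ℕ) : ℤ)) : Op Lab K)).prod)
      (HS.ind (cup (lf (S.lx 0 ((i : ℕ) : ℤ)) ((i : ℕ) : ℤ)) (lf (S.lx 0 ((j : ℕ) : ℤ)) ((j : ℕ) : ℤ)) Pat.empty)))
  have e : (fun q => ((l.map fun a : Fin N => (Co (lf (S.lx 0 ((a : ℕ) : ℤ)) ((a : ℕ) : ℤ))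
        (rt (S.lx (-1) ((a : ℕ) : ℤ) + 1) ((a : ℕ) : ℤ)) : Op Lab K)).prod)
      (HS.ind (cup (lf (S.lx 0 ((i : ℕ) : ℤ)) ((i : ℕ) : ℤ)) (lf (S.lx 0 ((j : ℕ) : ℤ)) ((j : ℕ) : ℤ)) Pat.empty))
        (Fr S (fun _ => 0) (fun _ => -1) 0 0 q)) =
      gS K l (HS.ind (cup (Xr i) (Xr j) Pat.empty)) := funext fun q => gS_lft l (Xr i) (Xr j) q
  rw [e] at t
  refine t.symm.trans ?_
  rw [sorted (hN := hN) hS y hl.1]
  have hi : i ∉ l := fun h => ((hl.2 i).1 h).1 rfl
  have hj : j ∉ l := fun h => ((hl.2 j).1 h).2 rfl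
  have hV : ∀ i j : Fin N, i ≠ j → (aG S (i : ℕ)).1 ≠ (aG S (j : ℕ)).1 := by
    intro i j hij e
    unfold aG at e
    rw [V_inj] at e
    exact hij (Fin.ext (by exact_mod_cast e.2))
  have h1 := GLD.two_cut (C := CyS S N hN) y (A := Dm S N n m) (E := Ed S N hN (iB S N n m l))
    (E' := Ed S N hN (iA S N n m)) (Edg_Ed iB_sub) (Edg_Ed fun _ h => h)
    (a := aG S (i : ℕ)) (b := aG S (j : ℕ)) (De_aG i.2) (De_aG j.2)
    (aG_notMem hS hi) (aG_notMem hS hj) (fun e => hij (Fin.ext (cI_inj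
      (ed_inj hS (n := n) (m := m) (cI_mem i.2) (cI_mem j.2) (by rw [← ed_aG i.2, ← ed_aG j.2]; exact e)))))
    (Ed_eq hl)
    (mem_Dm.2 ⟨⟨by omega, by omega⟩, by positivity, by exact_mod_cast i.2⟩)
    (mem_Dm.2 ⟨⟨by omega, by omega⟩, by positivity, by exact_mod_cast j.2⟩)
    (hV i j hij) (fun w hw d hd => incl hS hw hd)
  rw [rv_aG i.2, rv_aG j.2] at h1
  exact h1

end Pool.Agent.THJ
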