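import Pool.Agent.THJ.Main

/-!
# TH-J: staircases with given types of the rows; equal cut rows (helper62)

* `Stair.of f`: the staircase with the mirrored rows `{i | f i}`; `m_of`, `per_of`, `of_c_nat`.
* `Stair.ofL L`: the periodic staircase with the list `L` of types.
* `CW_same`: if the cut rows have the same type, the class of the words is `CX T (up + x) (-up)`, `T`, `x` = sums of the
  vectors `vr τ false`, `vr τ true` over the rows, `τ` = type of the cut rows.
-/

set_option autoImplicit false

namespace Pool.Agent.THJ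

open HexObs HexObs.LP HexObs.DirT HexObs.PLN
open Pool.Agent.EXL.Net
open Pool.Agent.NUF.Cyl (Nm)
open Pool.Agent.MXR (V V_inj dR dL)
open scoped ENNReal

/-- the step of the column coordinate -/
def stp (b : Bool) : ℤ := if b then -1 else 1

/-- the column coordinate -/
def cof (f : ℤ → Bool) : ℤ → ℤ
  | Int.ofNat n => ∑ j ∈ Finset.range n, stp (f j)
  | Int.negSucc n => -∑ j ∈ Finset.range (n + 1), stp (f (-(j : ℤ) - 1))

theorem cof_succ (f : ℤ → Bool) (i : ℤ) : cof f (i + 1) = cof f i + stp (f i) := by
  rcases i with n | n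
  · show ∑ j ∈ Finset.range (n + 1), stp (f j) = _
    rw [Finset.sum_range_succ]
    rfl
  · rcases n with _ | n
    · show cof f (Int.ofNat 0) = -∑ j ∈ Finset.range (0 + 1), stp (f (-(j : ℤ) - 1)) + stp (f (-1))
      simp [cof]
    · have e : Int.negSucc (n + 1) + 1 = Int.negSucc n := by omega
      rw [e]
      show -∑ j ∈ Finset.range (n + 1), stp (f (-(j : ℤ) - 1)) =
        -∑ j ∈ Finset.range (n + 1 + 1), stp (f (-(j : ℤ) - 1)) + stp (f (Int.negSucc (n + 1)))
      rw [Finset.sum_range_succ _ (n + 1)]
      have e2 : (-((n + 1 : ℕ) : ℤ) - 1) = Int.negSucc (n + 1) := by omega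
      rw [e2]
      ring

/-- **the staircase with the mirrored rows f** -/
def Stair.of (f : ℤ → Bool) : Stair where
  c := cof f
  c0 := rfl
  st i := by
    rw [cof_succ]
    cases f i
    · left
      rfl
    · right
      rfl

theorem of_succ (f : ℤ → Bool) (i : ℤ) : (Stair.of f).c (i + 1) = (Stair.of f).c i + stp (f i) := cof_succ f i

theorem m_of (f : ℤ → Bool) (i : ℤ) : (Stair.of f).m i = f i := by
  unfold Stair.m
  rw [of_succ]
  cases h : f i
  · simp only [stp, Bool.false_eq_true, if_false, decide_eq_false_iff_not]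
    omega
  · simp only [stp, if_true, decide_eq_true_eq]
    ring

theorem of_c_nat (f : ℤ → Bool) (n : ℕ) : (Stair.of f).c n = ∑ j ∈ Finset.range n, stp (f j) := rfl

theorem per_of {f : ℤ → Bool} {N : ℕ} (h : ∀ i, f (i + N) = f i) : (Stair.of f).Per N := by
  intro i
  induction i using Int.induction_on with
  | zero => rw [zero_add, Stair.c0, zero_add]
  | succ i ih =>
    have e : ((i : ℤ) + 1 + N) = (i + N) + 1 := by ring
    rw [e, of_succ, of_succ, ih, h]
    ring
  | pred i ih =>
    have h1 := of_succ f (-(i : ℤ) - 1)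
    have h2 := of_succ f (-(i : ℤ) - 1 + N)
    have e : (-(i : ℤ) - 1 + N + 1) = -(i : ℤ) + N := by ring
    rw [e, ih, h] at h2
    rw [sub_add_cancel] at h1
    linarith

/-! ### lists of types -/

/-- the types of a periodic list -/
def fL (L : List Bool) (i : ℤ) : Bool := L.getD (i % (L.length : ℤ)).toNat false

/-- **the periodic staircase with the list of types L** -/
def Stair.ofL (L : List Bool) : Stair := Stair.of (fL L)

theorem fL_per (L : List Bool) (i : ℤ) : fL L (i + L.length) = fL L i := by
  unfold fL
  rw [Int.add_emod_right]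

theorem per_ofL (L : List Bool) : (Stair.ofL L).Per L.length := per_of (fL_per L)

theorem fL_nat (L : List Bool) {j : ℕ} (h : j < L.length) : fL L j = L[j] := by
  unfold fL
  rw [Int.emod_eq_of_lt (by positivity) (by exact_mod_cast h), Int.toNat_natCast, List.getD_eq_getElem _ _ h]

theorem m_ofL (L : List Bool) {j : ℕ} (h : j < L.length) : (Stair.ofL L).m j = L[j] := by
  unfold Stair.ofL
  rw [m_of, fL_nat L h]

/-- the column coordinate of the first rows -/
theorem c_ofL (L : List Bool) {n : ℕ} (h : n ≤ L.length) : (Stair.ofL L).c n = ((L.take n).map stp).sum := by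
  unfold Stair.ofL
  rw [of_c_nat]
  induction n with
  | zero => simp
  | succ n ih =>
    have hn : n < L.length := by omega
    rw [Finset.sum_range_succ, ih (by omega), fL_nat L hn, List.take_succ_eq_append_getElem hn, List.map_append,
      List.sum_append]
    simp

/-! ### equal cut rows -/

/-- the vector of a row of the type b in the frame of a cut row of the type τ -/
def vr (τ b : Bool) : Pt := match τ, b with
  | false, false => (-2, 1)
  | false, true => (-1, -1)
  | true, false => (-1, 2)
  | true, true => (-2, 1)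

/-- the sum of the vectors of a list of types -/
def vs' (τ : Bool) (L : List Bool) : Pt := (L.map (vr τ)).sum

theorem vs'_cons (τ b : Bool) (L : List Bool) : vs' τ (b :: L) = vr τ b + vs' τ L := by
  unfold vs'
  rw [List.map_cons, List.sum_cons]

theorem vs'_append (τ : Bool) (L L' : List Bool) : vs' τ (L ++ L') = vs' τ L + vs' τ L' := by
  unfold vs'
  rw [List.map_append, List.sum_append]

theorem TT_succ (S : Stair) (n : ℕ) : TT S (n + 1) = TT S n + if S.m n then (-1, 2) else (1, 1) := by
  have h1 := par2 S n
  have h2 := par2 S (n + 1)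
  have h3 := S.st n
  unfold TT
  have e : ((n + 1 : ℕ) : ℤ) = (n : ℤ) + 1 := by push_cast; ring
  rw [e] at h2 ⊢
  have hm : S.m n = decide (S.c ((n : ℤ) + 1) = S.c n - 1) := rfl
  rcases h3 with h | h
  · have : S.m n = false := by
      rw [hm, decide_eq_false_iff_not]
      omega
    rw [this]
    refine Prod.ext ?_ ?_
    · simp only [Prod.fst_add, Bool.false_eq_true, if_false]
      omega
    · simp only [Prod.snd_add, Bool.false_eq_true, if_false]
      omega
  · have : S.m n = true := by
      rw [hm, decide_eq_true_eq]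
      omega
    rw [this]
    refine Prod.ext ?_ ?_
    · simp only [Prod.fst_add, if_true]
      omega
    · simp only [Prod.snd_add, if_true]
      omega

/-- the direction of the cut edge of the row 0 -/
theorem pG_dir (S : Stair) : (pG S 0).2 = if S.m 0 then (1, 0) else (1, -1) := by
  unfold pG
  have h := S.cases 0 0
  have h2 := S.px_zero 0
  simp only [Nat.cast_zero]
  unfold MXR.dR
  rcases h with ⟨h3, h4, h5⟩ | ⟨h3, h4, h5⟩
  · rw [h3, if_neg (by omega)]
    rfl
  · rw [h3, if_pos (by omega)]
    rfl

/-- the rotation of the frame -/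
theorem em_vr (S : Stair) (b : Bool) :
    em (ru (pG S 0).2) (if b then (-1, 2) else (1, 1)) = vr (S.m 0) b := by
  rw [pG_dir]
  cases S.m 0 <;> cases b <;> rfl

theorem em_TT (S : Stair) (n : ℕ) :
    em (ru (pG S 0).2) (TT S n) = ((List.range n).map fun j : ℕ => vr (S.m 0) (S.m j)).sum := by
  induction n with
  | zero =>
    have : TT S 0 = (0, 0) := by
      unfold TT
      simp [S.c0]
    rw [this]
    refine Prod.ext ?_ ?_ <;> simp [em]
  | succ n ih =>
    rw [TT_succ, em_add, ih, em_vr, List.range_succ, List.map_append, List.sum_append]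
    simp

/-- the cut edge of a row of the type of the row 0 -/
theorem pG_same (S : Stair) {r : ℕ} (h : S.m r = S.m 0) : pG S r = ((pG S 0).1 + TT S r, (pG S 0).2) := by
  unfold pG
  have h1 : S.lx 0 (r : ℤ) = S.lx 0 0 + S.c r := by
    unfold Stair.lx
    rw [h, S.c0]
    split_ifs <;> omega
  have h2 := trS_V (S := S) (N := r) 1 (S.lx 0 0 - 1) 0
  rw [mul_one, mul_one, zero_add, trS_eq] at h2
  have h3 : ml 1 (TT S r) = TT S r := by
    unfold ml
    rw [one_mul, one_mul]
  rw [h3] at h2
  have e : S.lx 0 (r : ℤ) - 1 = S.lx 0 0 - 1 + S.c r := by omega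
  refine Prod.ext ?_ ?_
  · simp only [Nat.cast_zero]
    rw [e, ← h2]
  · simp only [Nat.cast_zero]
    have h4 := S.par r
    unfold MXR.dR
    rw [e]
    congr 1
    rw [eq_iff_iff]
    omega

/-- **equal cut rows: the class of the words** -/
theorem CW_same (S : Stair) (N : ℕ) {r : ℕ} (h : S.m r = S.m 0) :
    CW S N (pG S 0) (pG S r) = CX ((List.range N).map fun j : ℕ => vr (S.m 0) (S.m j)).sum
      (up + ((List.range r).map fun j : ℕ => vr (S.m 0) (S.m j)).sum) (-up) := by
  have hd : (pG S 0).2 ∈ dirs := dR_mem _ _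
  unfold CW
  rw [em_TT, pG_same S h]
  have e1 : ((pG S 0).1 + TT S r + (pG S 0).2 - (pG S 0).1) = (pG S 0).2 + TT S r := by abel
  simp only
  rw [e1, em_add, em_ru hd, em_TT, em_neg, em_ru hd]

theorem map_range_ofL (L : List Bool) {n : ℕ} (h : n ≤ L.length) (τ : Bool) :
    ((List.range n).map fun j : ℕ => vr τ ((Stair.ofL L).m j)).sum = vs' τ (L.take n) := by
  unfold vs'
  congr 1
  apply List.ext_getElem
  · simp [h]
  · intro i h1 h2
    have h3 : i < n := by simpa using h1
    simp only [List.getElem_map, List.getElem_range, List.getElem_take]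
    rw [m_ofL L (by omega)]

/-- **the list τ, J, τ, I** -/
theorem CW_list (τ : Bool) (I J : List Bool) :
    CW (Stair.ofL (τ :: (J ++ τ :: I))) (I.length + J.length + 2) (pG (Stair.ofL (τ :: (J ++ τ :: I))) 0)
      (pG (Stair.ofL (τ :: (J ++ τ :: I))) (J.length + 1)) =
      CX (vr τ τ + vr τ τ + vs' τ J + vs' τ I) (up + (vr τ τ + vs' τ J)) (-up) := by
  set L := τ :: (J ++ τ :: I) with hL
  have hl : L.length = I.length + J.length + 2 := by
    rw [hL]
    simp
    omega
  have m0 : (Stair.ofL L).m 0 = τ := by
    have := m_ofL L (j := 0) (by omega)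
    rw [Nat.cast_zero] at this
    rw [this]
    rfl
  have mr : (Stair.ofL L).m (J.length + 1 : ℕ) = τ := by
    rw [m_ofL L (j := J.length + 1) (by omega)]
    simp [hL]
  have h := CW_same (Stair.ofL L) (I.length + J.length + 2) (r := J.length + 1) (by rw [mr, m0])
  rw [h, m0, map_range_ofL L (by omega), map_range_ofL L (by omega)]
  have e1 : L.take (I.length + J.length + 2) = L := by
    rw [← hl]
    exact List.take_length
  have e2 : L.take (J.length + 1) = τ :: J := by
    rw [hL]
    simp
  rw [e1, e2, hL, vs'_cons, vs'_append, vs'_cons, vs'_cons]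
  congr 1
  abel

end Pool.Agent.THJ
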