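import Pool.Agent.THJ.Of
import Pool.Agent.THJ.Ends
import Pool.Agent.THJ.All
import Pool.Agent.PLN.PubZ

/-!
# TH-J: from the gas of the cylinders to the plane, every direction (helper62)

* `approx_lim`: approximations with limits `A q` that do not depend on the direction give one limit for all directions.
* `WL τ J I`: the two-point function of the gas of the staircase with the rows `τ :: (J ++ τ :: I)`, the cut rows of type `τ`.
* `cyl_plane`: `WL` against the words of the plane.
* `RayD A q κ a b`: the transfer along the ray of the direction `(a, b)`, ratio `q`.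
* **`plane_all`**: from `RayD` for a set of arbitrarily large `q` and all directions, the limits `A q` the same in all
  directions, to `G zc x |x| ^ (5 / 24) -> A` as `|x| -> ∞`.
-/

set_option autoImplicit false

open scoped Classical

namespace Pool.Agent.THJ

open Filter Topology MeasureTheory

/-! ### the analytic lemma -/

/-- **approximations with limits that do not depend on the direction** -/
theorem approx_lim {D : Type*} {A : ℕ → ℝ} {Q : Set ℕ} (hQ : ∀ B : ℕ, ∃ q ∈ Q, B ≤ q) (F : D → ℕ → ℝ)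
    (W : D → ℕ → ℕ → ℝ) (e : D → ℕ → ℝ) (he : ∀ d, Tendsto (e d) atTop (𝓝 0))
    (hW : ∀ d, ∀ q ∈ Q, Tendsto (W d q) atTop (𝓝 (A q)))
    (hF : ∀ d, ∀ q ∈ Q, ∀ᶠ k in atTop, |F d k - W d q k| ≤ e d q) :
    ∃ A0 : ℝ, ∀ d, Tendsto (F d) atTop (𝓝 A0) := by
  have h1 : ∀ d, ∃ A0 : ℝ, Tendsto (F d) atTop (𝓝 A0) := by
    intro d
    refine HexObs.PLN.lim_of_approx (l := atTop) (g := F d) fun ε hε => ?_
    obtain ⟨B, hB⟩ := ((he d).eventually (ge_mem_nhds hε)).exists_forall_of_atTop
    obtain ⟨q, hq, hqB⟩ := hQ B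
    refine ⟨W d q, A q, hW d q hq, ?_⟩
    filter_upwards [hF d q hq] with k hk
    exact hk.trans (hB q hqB)
  choose A0 hA0 using h1
  obtain ⟨lQ, hlQ⟩ : ∃ lQ : Filter ℕ, lQ = atTop ⊓ 𝓟 Q := ⟨_, rfl⟩
  have hne : lQ.NeBot := by
    rw [hlQ, Filter.inf_principal_neBot_iff]
    intro s hs
    obtain ⟨n, hn⟩ := mem_atTop_sets.1 hs
    obtain ⟨q, hq, hqn⟩ := hQ n
    exact ⟨q, hn q hqn, hq⟩
  have h2 : ∀ d, Tendsto A lQ (𝓝 (A0 d)) := by
    intro d
    have h3 : ∀ q ∈ Q, |A0 d - A q| ≤ e d q := by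
      intro q hq
      have h4 : Tendsto (fun k => |F d k - W d q k|) atTop (𝓝 |A0 d - A q|) := ((hA0 d).sub (hW d q hq)).abs
      exact le_of_tendsto h4 (hF d q hq)
    rw [Metric.tendsto_nhds]
    intro ε hε
    have h4 : ∀ᶠ q in lQ, e d q < ε := by
      rw [hlQ]
      exact ((he d).eventually (gt_mem_nhds hε)).filter_mono inf_le_left
    have h5 : ∀ᶠ q in lQ, q ∈ Q := by
      rw [hlQ]
      exact (eventually_principal.2 fun q hq => hq).filter_mono inf_le_right
    filter_upwards [h4, h5] with q h6 h7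
    rw [Real.dist_eq, abs_sub_comm]
    exact (h3 q h7).trans_lt h6
  rcases isEmpty_or_nonempty D with hD | ⟨⟨d0⟩⟩
  · exact ⟨0, fun d => (hD.false d).elim⟩
  · refine ⟨A0 d0, fun d => ?_⟩
    have := tendsto_nhds_unique (h2 d) (h2 d0)
    rw [← this]
    exact hA0 d

/-! ### cylinders against the plane -/

section phys

open HexObs HexObs.LP HexObs.DirT HexObs.PLN
open Pool.Agent.EXL.Net
open scoped ENNReal

/-- **the two-point function of the gas of the rows** `τ :: (J ++ τ :: I)`, the cut rows of type `τ`. -/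
noncomputable def WL (τ : Bool) (J I : List Bool) : ℝ :=
  (WPS (Stair.ofL (τ :: (J ++ τ :: I))) (N := I.length + J.length + 2) (r := J.length + 1) (by omega)).re

/-- the sum of the vectors by the numbers of the rows -/
lemma vs'_count (τ : Bool) (L : List Bool) : vs' τ L = ((L.count false : ℤ) * (vr τ false).1 + (L.count true : ℤ) * (vr τ true).1,
    (L.count false : ℤ) * (vr τ false).2 + (L.count true : ℤ) * (vr τ true).2) := by
  induction L with
  | nil => refine Prod.ext ?_ ?_ <;> simp [vs']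
  | cons b L ih =>
    rw [vs'_cons, ih]
    refine Prod.ext ?_ ?_ <;> cases b <;> simp <;> ring

/-- the size of the number of rows -/
def hm (m n : ℕ) : ℕ := max (m + 2 * n) (2 * m + n)

lemma hn_vs (τ : Bool) (L : List Bool) : hn (vs' τ L) = hm (L.count false) (L.count true) := by
  rw [vs'_count]
  unfold hn hm
  cases τ <;> simp only [vr] <;> omega

lemma vs_three (τ : Bool) (L : List Bool) : 3 ∣ (vs' τ L).1 - (vs' τ L).2 := by
  rw [vs'_count]
  cases τ <;> simp only [vr] <;> omega

lemma hn_up : hn up = 1 := rfl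

/-- the cylinder against the plane, the gas against the words -/
theorem cyl_plane : ∃ (C : ℝ) (k0 : ℕ), 0 < C ∧ ∀ (τ : Bool) (J I : List Bool),
    k0 ≤ hm ((J ++ I).count false) ((J ++ I).count true) →
    2 * hm (J.count false) (J.count true) + 8 ≤ hm ((J ++ I).count false) ((J ++ I).count true) →
    |(gf (PX (up + vs' τ (τ :: J)) (-up))).toReal - WL τ J I| ≤
      C * (hm ((J ++ I).count false) ((J ++ I).count true) : ℝ) ^ (-(5 / 24) : ℝ) := by
  obtain ⟨C, k0, hC, hS⟩ := soft_T
  obtain ⟨k1, hM⟩ := maj_wide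
  refine ⟨C, max k0 (max k1 1), hC, fun τ J I hk hw => ?_⟩
  obtain ⟨H, hH⟩ : ∃ H, H = hm ((J ++ I).count false) ((J ++ I).count true) := ⟨_, rfl⟩
  rw [← hH] at hk hw ⊢
  obtain ⟨S, hSd⟩ : ∃ S, S = Stair.ofL (τ :: (J ++ τ :: I)) := ⟨_, rfl⟩
  obtain ⟨N, hN⟩ : ∃ N, N = I.length + J.length + 2 := ⟨_, rfl⟩
  have hlen : (τ :: (J ++ τ :: I)).length = N := by
    rw [hN]
    simp
    omega
  have hper : S.Per N := by
    rw [hSd, ← hlen]
    exact per_ofL _
  -- the period
  obtain ⟨T, hT⟩ : ∃ T, T = vr τ τ + vr τ τ + vs' τ J + vs' τ I := ⟨_, rfl⟩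
  have hT2 : T = vs' τ (τ :: τ :: (J ++ I)) := by
    rw [hT, vs'_cons, vs'_cons, vs'_append]
    abel
  have hTH : H ≤ hn T := by
    rw [hT2, hn_vs, hH]
    unfold hm
    cases τ <;> simp <;> omega
  have hT3 : 3 ∣ T.1 - T.2 := by rw [hT2]; exact vs_three _ _
  have hTT : hn (TT S N) = hn T := by
    have h1 := em_TT S N
    have hd : (pG S 0).2 ∈ dirs := dR_mem _ _
    have h2 := hn_em hd (TT S N)
    rw [h1] at h2
    rw [← h2, hT2, hn_vs]
    have m0 : S.m 0 = τ := by
      have := m_ofL (τ :: (J ++ τ :: I)) (j := 0) (by omega)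
      rw [Nat.cast_zero] at this
      rw [hSd, this]
      rfl
    rw [m0]
    rw [hSd, map_range_ofL _ (by omega), ← hlen, List.take_length, hn_vs]
    congr 1
    · cases τ <;> simp <;> omega
    · cases τ <;> simp <;> omega
  -- the majorants
  obtain ⟨hR, hL⟩ := hM S N (by omega) hper (by
    rw [hTT]
    exact ((le_max_left _ _).trans (le_max_right _ _)).trans (hk.trans hTH))
  have hr : J.length + 1 < N := by omega
  have h1 := WPS_eq (S := S) (N := N) (r := J.length + 1) (by omega) hr hper hR hL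
  have h2 := (WPS_real (S := S) (N := N) (r := J.length + 1) (by omega) hr hper hR hL).2.1
  have hcw := CW_list τ I J
  rw [← hSd, ← hN, ← hT] at hcw
  rw [hcw] at h1
  have hWL : WL τ J I = (WPS S hr).re := by
    unfold WL
    subst hSd hN
    rfl
  rw [← hWL] at h1 h2
  -- the end
  have hw2 : up + (vr τ τ + vs' τ J) = up + vs' τ (τ :: J) := by rw [vs'_cons]
  rw [hw2] at h1
  obtain ⟨w, hwd⟩ : ∃ w, w = up + vs' τ (τ :: J) := ⟨_, rfl⟩
  rw [← hwd] at h1 ⊢
  have hnw : 2 * hn w ≤ hn T := by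
    have h3 : hn w ≤ 1 + hm ((τ :: J).count false) ((τ :: J).count true) := by
      rw [hwd]
      refine (hn_add_le _ _).trans ?_
      rw [hn_vs, hn_up]
    have h4 : hm ((τ :: J).count false) ((τ :: J).count true) ≤ hm (J.count false) (J.count true) + 2 := by
      unfold hm
      cases τ <;> simp <;> omega
    omega
  have hnear : ∀ z : ℤ, hn w ≤ hn (w + ml z T) := by
    intro z
    rcases eq_or_ne z 0 with rfl | hz
    · have : ml 0 T = 0 := by refine Prod.ext ?_ ?_ <;> simp [ml]
      rw [this, add_zero]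
    · have h3 := hn_add_le (w + ml z T) (-w)
      rw [hn_neg, show w + ml z T + -w = ml z T by abel, hn_ml] at h3
      have h4 : 1 * hn T ≤ z.natAbs * hn T := Nat.mul_le_mul_right _ (by omega)
      omega
  obtain ⟨e1, e2⟩ := hS T w (-up) hT3 (((le_max_left _ _).trans hk).trans hTH) hnear
  rw [← h1] at e1 e2
  have hfin : gf (PX w (-up)) ≠ ⊤ := PX_ne_top _ _
  obtain ⟨E, hE⟩ : ∃ E : ℝ, E = C * (hn T : ℝ) ^ (-(5 / 24) : ℝ) := ⟨_, rfl⟩
  have hE0 : 0 ≤ E := by rw [hE]; positivity
  rw [← hE, ← ENNReal.ofReal_toReal hfin] at e1 e2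
  rw [← ENNReal.ofReal_add (by positivity) hE0, ENNReal.ofReal_le_ofReal_iff (by positivity)] at e1
  rw [← ENNReal.ofReal_add h2 hE0, ENNReal.ofReal_le_ofReal_iff (by positivity)] at e2
  have hE1 : E ≤ C * (H : ℝ) ^ (-(5 / 24) : ℝ) := by
    rw [hE]
    refine mul_le_mul_of_nonneg_left ?_ hC.le
    refine Real.rpow_le_rpow_of_nonpos ?_ (by exact_mod_cast hTH) (by norm_num)
    have : 1 ≤ H := ((le_max_right _ _).trans (le_max_right _ _)).trans hk
    exact_mod_cast this
  rw [abs_le]
  constructor <;> linarith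

/-- **the transfer along the ray of the direction (a, b)**, the ratio q: the gas of the staircase with the cut rows normal
(`false`), `κ k a` mirrored (`true`) and `κ k b` normal rows between them, `q` times as many behind them. -/
def RayD (A : ℝ) (q κ a b : ℕ) : Prop := ∃ J I : ℕ → List Bool,
  (∀ k, (J k).count true = κ * k * a ∧ (J k).count false = κ * k * b ∧
    (I k).count true = q * (κ * k * a) ∧ (I k).count false = q * (κ * k * b)) ∧
  Tendsto (fun k : ℕ => WL false (J k) (I k) * ((κ * k : ℝ) * Real.sqrt ((a : ℝ) ^ 2 + a * b + (b : ℝ) ^ 2)) ^ (5 / 24 : ℝ))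
    atTop (𝓝 A)

/-- the vector of the distance -/
def xv (m n : ℕ) : Pt := (-2 * (n : ℤ) - m, (n : ℤ) - m)

lemma vs_xv (L : List Bool) : vs' false L = xv (L.count true) (L.count false) := by
  rw [vs'_count]
  unfold xv
  refine Prod.ext ?_ ?_ <;> simp only [vr] <;> ring

end phys

end Pool.Agent.THJ
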