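import Pool.Agent.THJ.Nrm
import Pool.Agent.THJ.Plane
import Pool.Agent.PLX.Yq

/-!
# TH-J: the physical function of the list of types `f`, `q` copies on the other side (helper62)

`SL f q`: the staircase of the rows `false`, `f`, `false`, `q` copies of `f`; `WF f q = WL false f (q copies)`.
`bl f s`: the places of the rows in the gas, common shift `s`: `-s` for a normal row, `-s - l` for a mirrored one.
**`physL`**: `‖preY x (yqn q x) (-s) (-s) * ∑ E11‖ = nrmS * WF f q`, `x = bl f s`, for all long lists `f`.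
-/

set_option autoImplicit false
set_option linter.unusedSectionVars false
set_option linter.unusedVariables false

noncomputable section

open Complex Filter Topology

namespace Pool.Agent.THJ

open NUP1 PBX PBZ
open NUP1.N (E11)
open NUP1.Leg (Bp cc)
open Pool.Agent.PLX (RU yqn)
open Pool.Agent.MXR (XR XL MajW)
open HexObs HexObs.LP HexObs.DirT
open PLT (preY)

variable {m : ℕ}

/-- the list of all rows -/
def LL (f : Fin m → Bool) (q : ℕ) : List Bool := false :: (List.ofFn f ++ false :: List.ofFn (yqn q f))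

/-- the staircase -/
def SL (f : Fin m → Bool) (q : ℕ) : Stair := Stair.ofL (LL f q)

theorem LL_len (f : Fin m → Bool) (q : ℕ) : (LL f q).length = m + q * m + 2 := by
  unfold LL
  simp
  omega

/-- the two-point function -/
def WF (f : Fin m → Bool) (q : ℕ) : ℝ := WL false (List.ofFn f) (List.ofFn (yqn q f))

theorem WL_eq {τ : Bool} {J I : List Bool} {N r : ℕ} (hN : N = I.length + J.length + 2) (hr : r = J.length + 1) (h : r < N) :
    WL τ J I = (WPS (Stair.ofL (τ :: (J ++ τ :: I))) (N := N) (r := r) h).re := by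
  subst hN hr
  rfl

theorem WF_eq (f : Fin m → Bool) (q : ℕ) (h : m + 1 < m + q * m + 2) :
    WF f q = (WPS (SL f q) (N := m + q * m + 2) (r := m + 1) h).re :=
  WL_eq (by simp; omega) (by simp) h

/-- the places of the rows -/
def bl (f : Fin m → Bool) (s : ℝ) (i : Fin m) : ℂ := if f i then ((-s - l : ℝ) : ℂ) else ((-s : ℝ) : ℂ)

theorem vS_val (s : ℝ) (S : Stair) (j : ℕ) : vS s S j = if S.m j then ((-s - l : ℝ) : ℂ) else ((-s : ℝ) : ℂ) := by
  unfold vS
  rw [phS_re]
  split_ifs
  · push_cast; ring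
  · push_cast; ring

theorem SL_m (f : Fin m → Bool) (q : ℕ) {j : ℕ} (h : j < m + q * m + 2) : (SL f q).m j = (LL f q)[j]'(by rw [LL_len]; exact h) :=
  m_ofL _ _

theorem SL_zero (f : Fin m → Bool) (q : ℕ) : (SL f q).m (0 : ℕ) = false := by
  rw [SL_m f q (by omega)]
  rfl

theorem SL_x (f : Fin m → Bool) (q : ℕ) (i : Fin m) : (SL f q).m (1 + i.val : ℕ) = f i := by
  have hi := i.isLt
  rw [SL_m f q (by omega)]
  unfold LL
  have e : 1 + i.val = i.val + 1 := by omega
  simp only [e, List.getElem_cons_succ]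
  rw [List.getElem_append_left (by simpa using hi)]
  simp

theorem SL_cut (f : Fin m → Bool) (q : ℕ) : (SL f q).m (m + 1 : ℕ) = false := by
  rw [SL_m f q (by omega)]
  unfold LL
  simp only [List.getElem_cons_succ]
  rw [List.getElem_append_right (by simp)]
  simp

theorem SL_y (f : Fin m → Bool) (q : ℕ) (i : Fin (q * m)) : (SL f q).m (m + 1 + 1 + i.val : ℕ) = yqn q f i := by
  have hi := i.isLt
  rw [SL_m f q (by omega)]
  unfold LL
  have e : m + 1 + 1 + i.val = (m + 1 + i.val) + 1 := by omega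
  simp only [e, List.getElem_cons_succ]
  rw [List.getElem_append_right (by simp; omega)]
  have e2 : m + 1 + i.val - (List.ofFn f).length = i.val + 1 := by
    rw [List.length_ofFn]
    omega
  simp only [e2, List.getElem_cons_succ, List.getElem_ofFn]

/-- the data of the list -/
structure RUL (s : ℝ) (f : Fin m → Bool) (q : ℕ) (D : RU m (q * m)) : Prop where
  x : D.x = bl f s
  y : D.y = yqn q (bl f s)
  p : D.p = ((-s : ℝ) : ℂ)
  q : D.q = ((-s : ℝ) : ℂ)

theorem RUL.RUS {s : ℝ} {f : Fin m → Bool} {q : ℕ} {D : RU m (q * m)} (h : RUL s f q D) : RUS s (SL f q) D where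
  x i := by
    rw [h.x, vS_val, SL_x]
    rfl
  y i := by
    rw [h.y, vS_val, SL_y]
    rfl
  p := by
    rw [h.p, vS_val, SL_cut]
    rfl
  q := by
    rw [h.q, vS_val, SL_zero]
    rfl

/-! ### wide cylinders -/

theorem count_le (f : Fin m → Bool) (q : ℕ) : m + q * m + 2 ≤ hm ((LL f q).count false) ((LL f q).count true) := by
  have h := List.count_true_add_count_false (LL f q)
  rw [LL_len] at h
  unfold hm
  omega

theorem pG_dirs (S : Stair) (i : ℕ) : (pG S i).2 ∈ dirs := dR_mem _ _

theorem hn_TT_SL (f : Fin m → Bool) (q : ℕ) : m ≤ hn (TT (SL f q) (m + q * m + 2)) := by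
  have h1 := em_TT (SL f q) (m + q * m + 2)
  have h2 := hn_em (pG_dirs (SL f q) 0) (TT (SL f q) (m + q * m + 2))
  rw [h1] at h2
  have h3 := count_le f q
  have h4 : hn ((List.range (m + q * m + 2)).map fun j : ℕ => vr ((SL f q).m 0) ((SL f q).m j)).sum =
      hm ((LL f q).count false) ((LL f q).count true) := by
    unfold SL
    rw [map_range_ofL _ (by rw [LL_len]), ← LL_len f q, List.take_length, hn_vs]
  omega

/-- **The physical function of the list `f`.** -/
theorem physL : ∃ k0 : ℕ, ∀ (m q : ℕ) (f : Fin m → Bool), k0 ≤ m → 1 ≤ q → ∀ (s a : ℝ), a = 31 / 50 ∨ a = 5 / 4 →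
    ∀ D : RU m (q * m), D.Ok → 1 < D.β → D.c = cc m → D.c' = cc (q * m) → RUL s f q D →
    ‖preY D.x D.y D.p D.q * ∑ n ∈ Finset.range (2 * m + 1),
        E11 (3 / 5 * l) (-(17 / 10) * l) D.p D.q D.x D.y D.hX D.hY n (n + (q * m - m)) (a * l)
          (-(11 / 4) * l)‖ = nrmS (SL f q) (m + q * m + 2) * WF f q := by
  obtain ⟨k0, hM⟩ := maj_wide
  refine ⟨k0, fun m q f hm hq s a ha D O hβ hc hc' Z => ?_⟩
  have hqm : m ≤ q * m := Nat.le_mul_of_pos_left _ hq
  have h : m + 1 < m + q * m + 2 := by omega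
  have hper : (SL f q).Per (m + q * m + 2) := by
    have := per_ofL (LL f q)
    rw [LL_len] at this
    exact this
  obtain ⟨hR, hL⟩ := hM (SL f q) (m + q * m + 2) (by omega) hper (hm.trans (hn_TT_SL f q))
  rw [WF_eq f q h]
  exact phys_S rfl rfl hqm h hper hR hL ha O hβ hc hc' Z.RUS

end Pool.Agent.THJ

end
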