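import Pool.Agent.THJ.Front
import Pool.Agent.MXR.Sort

/-!
# TH-J: the rings of a staircase, sorted (helper62; as `MXR/Sort`)
-/

set_option autoImplicit false

namespace Pool.Agent.THJ

open Pool.Agent.EXL hiding cc
open Pool.Agent.EXL.Pat Pool.Agent.EXL.Net HexObs HexObs.LP
open Pool.Agent.NUF.Cyl (UO PO PL seam UO_apply PO_apply UO_Crv_comm PO_Crv_comm PO_Co_comm PO_comm
  commute_list_map Nm lX_hf)
open Pool.Agent.MXR hiding rCell lCell rRing lRing rTot lTot ring rV lV rHs lHs rH lH pV vL cL pR vA cA Bad fr Fr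
  rCell_eq lCell_eq cell_right cell_left rows_right rows_left rRing_eq lRing_eq rTot_eq lTot_eq tot_eq

variable {K : Type*} [CommRing K] (S : Stair)

/-- the items of the contractions of a cell of the right part. -/
def rH (k i : ℤ) : List (ℤ × ℤ × Bool) := [(S.px k i, i, true), (S.lx k i + 1, i, false), (S.lx k i, i, false)]

/-- the items of the contractions of a cell of the left part. -/
def lH (k i : ℤ) : List (ℤ × ℤ × Bool) := [(S.qx k i, i, true), (S.lx k i - 1, i, false), (S.lx k i, i, false)]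

/-- the vertices of a cell. -/
def pV (k i : ℤ) : List (ℤ × ℤ) := [(S.lx k i, i), (S.lx k i + 1, i)]

variable {S} in
theorem Ced_true {N : ℕ} {hN : 1 ≤ N} (x i : ℤ) :
    (CyS S N hN).ed (he (x, i, true)) = s(vt x i, vt (ux S N x i) (uy N x i)) := by
  rw [he_true]
  unfold Nm.ed
  rw [rv_U]
  rfl

variable {S} in
theorem Ced_false {N : ℕ} {hN : 1 ≤ N} {x i : ℤ} (h1 : 0 ≤ i) (h2 : i < N) :
    (CyS S N hN).ed (he (x, i, false)) = s(rt x i, lf (x + 1) i) := by
  rw [he_false]
  unfold Nm.ed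
  rw [rv_R h1 h2]
  rfl

theorem rCell_list (y : K) (k i : ℤ) : rCell S y k i = ((pV S k i).map (vO K y)).prod *
    ((rH S k i).map (fun t => (CoS (Net.ed (he t)) : Op Lab K))).prod := by
  unfold rCell pV rH
  simp only [List.map_cons, List.map_nil, List.prod_cons, List.prod_nil, mul_one]
  rw [ed_true, ed_false, ed_false, S.io_px]
  have e1 : (CoS s(vt (S.px k i) i, vt (S.px k i) (i - 1)) : Op Lab K) =
      Co (vt (S.px k i) (i - 1)) (vt (S.px k i) i) := Co_symm _ _
  have e2 : (CoS s(rt (S.lx k i + 1) i, lf (S.lx k i + 1 + 1) i) : Op Lab K) =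
      Co (lf (S.lx (k + 1) i) i) (rt (S.lx k i + 1) i) := by
    have : S.lx k i + 1 + 1 = S.lx (k + 1) i := by rw [S.lx_succ]; ring
    rw [this]
    exact Co_symm _ _
  rw [e1, e2]
  simp only [mul_assoc]
  rfl

theorem lCell_list (y : K) (k i : ℤ) : lCell S y k i = ((pV S k i).map (vO K y)).prod *
    ((lH S k i).map (fun t => (CoS (Net.ed (he t)) : Op Lab K))).prod := by
  unfold lCell pV lH
  simp only [List.map_cons, List.map_nil, List.prod_cons, List.prod_nil, mul_one]
  rw [ed_true, ed_false, ed_false, S.io_qx]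
  have e1 : (CoS s(vt (S.qx k i) i, vt (S.qx k i) (i + 1)) : Op Lab K) =
      Co (vt (S.qx k i) (i + 1)) (vt (S.qx k i) i) := Co_symm _ _
  have e2 : (CoS s(rt (S.lx k i - 1) i, lf (S.lx k i - 1 + 1) i) : Op Lab K) =
      Co (rt (S.lx (k - 1) i + 1) i) (lf (S.lx k i) i) := by
    have : S.lx k i - 1 + 1 = S.lx k i := by ring
    rw [this]
    have : S.lx (k - 1) i + 1 = S.lx k i - 1 := by rw [S.lx_pred]; ring
    rw [this]
    rfl
  rw [e1, e2]
  simp only [mul_assoc]
  rfl

variable {S} in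
/-- the contraction of an item of the cylinder commutes with the other vertices. -/
theorem CoS_vO' {N : ℕ} {hN : 1 ≤ N} (y : K) {t : ℤ × ℤ × Bool} {w : ℤ × ℤ} (h0 : 0 ≤ t.2.1)
    (h0' : t.2.1 < N) (h : (t.1, t.2.1) ≠ w) (h' : t.2.2 = false → (t.1 + 1, t.2.1) ≠ w)
    (h'' : t.2.2 = true → (ux S N t.1 t.2.1, uy N t.1 t.2.1) ≠ w) :
    Commute (CoS ((CyS S N hN).ed (he t)) : Op Lab K) (vO K y w) := by
  obtain ⟨x, i, b⟩ := t
  have key : ∀ {a c : ℤ}, (a, c) ≠ w → V a c ≠ V w.1 w.2 := by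
    intro a c h e
    rw [V_inj] at e
    exact h (Prod.ext e.1 e.2)
  cases b
  · rw [Ced_false h0 h0']
    exact (Crv_Co_comm y (h := (V x i, dR x i)) (k := (V (x + 1) i, dL (x + 1) i)) (key h)
      (key (h' rfl))).symm
  · rw [Ced_true]
    exact (Crv_Co_comm y (h := (V x i, dU x i))
      (k := (V (ux S N x i) (uy N x i), dU (ux S N x i) (uy N x i))) (key h) (key (h'' rfl))).symm

/-! ### the rows of a ring -/

/-- vertices of a ring. -/
def rV (N : ℕ) (k : ℤ) : List (ℤ × ℤ) := (List.range N).flatMap (fun i : ℕ => pV S k i)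

def lV (N : ℕ) (k : ℤ) : List (ℤ × ℤ) := (List.range N).reverse.flatMap (fun i : ℕ => pV S k i)

/-- items of a ring. -/
def rHs (N : ℕ) (k : ℤ) : List (ℤ × ℤ × Bool) := (List.range N).flatMap (fun i : ℕ => rH S k i)

def lHs (N : ℕ) (k : ℤ) : List (ℤ × ℤ × Bool) := (List.range N).reverse.flatMap (fun i : ℕ => lH S k i)

variable {S}

theorem mem_rV {N : ℕ} {k : ℤ} {w : ℤ × ℤ} : w ∈ rV S N k ↔ ∃ i : ℕ, i < N ∧ w ∈ pV S k i := by
  unfold rV
  simp [List.mem_flatMap]

theorem mem_lV {N : ℕ} {k : ℤ} {w : ℤ × ℤ} : w ∈ lV S N k ↔ ∃ i : ℕ, i < N ∧ w ∈ pV S k i := by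
  unfold lV
  simp [List.mem_flatMap]

theorem mem_rHs {N : ℕ} {k : ℤ} {t : ℤ × ℤ × Bool} : t ∈ rHs S N k ↔ ∃ i : ℕ, i < N ∧ t ∈ rH S k i := by
  unfold rHs
  simp [List.mem_flatMap]

theorem mem_lHs {N : ℕ} {k : ℤ} {t : ℤ × ℤ × Bool} : t ∈ lHs S N k ↔ ∃ i : ℕ, i < N ∧ t ∈ lH S k i := by
  unfold lHs
  simp [List.mem_flatMap]

theorem mem_pV {k i : ℤ} {w : ℤ × ℤ} : w ∈ pV S k i ↔ w = (S.lx k i, i) ∨ w = (S.lx k i + 1, i) := by
  simp [pV]

theorem mem_rH {k i : ℤ} {t : ℤ × ℤ × Bool} : t ∈ rH S k i ↔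
    t = (S.px k i, i, true) ∨ t = (S.lx k i + 1, i, false) ∨ t = (S.lx k i, i, false) := by
  simp [rH]

theorem mem_lH {k i : ℤ} {t : ℤ × ℤ × Bool} : t ∈ lH S k i ↔
    t = (S.qx k i, i, true) ∨ t = (S.lx k i - 1, i, false) ∨ t = (S.lx k i, i, false) := by
  simp [lH]

theorem rrows_sort (y : K) (N : ℕ) (k : ℤ) :
    ((List.range N).map (fun i : ℕ => rCell S y k (i : ℤ))).prod = ((rV S N k).map (vO K y)).prod *
      ((rHs S N k).map (fun t => (CoS (Net.ed (he t)) : Op Lab K))).prod := by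
  unfold rV rHs
  rw [prod_flatMap', prod_flatMap']
  simp only [rCell_list]
  apply prod_sort
  refine List.pairwise_lt_range.imp fun {a b} hab => ?_
  refine (commute_list_map (X := ((rH S k a).map (fun t => (CoS (Net.ed (he t)) : Op Lab K))).prod)
    fun w hw => (commute_list_map fun t ht => ?_).symm)
  refine (CoS_vO y ?_).symm
  rw [mem_pV] at hw
  rw [mem_rH] at ht
  unfold Ends
  rcases ht with rfl | rfl | rfl
  · simp only [if_true, S.io_px]
    rcases hw with rfl | rfl <;> simp only [ne_eq, Prod.mk.injEq] <;> omega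
  · simp only [if_false, Bool.false_eq_true]
    rcases hw with rfl | rfl <;> simp only [ne_eq, Prod.mk.injEq] <;> omega
  · simp only [if_false, Bool.false_eq_true]
    rcases hw with rfl | rfl <;> simp only [ne_eq, Prod.mk.injEq] <;> omega

theorem lrows_sort (y : K) (N : ℕ) (k : ℤ) :
    ((List.range N).reverse.map (fun i : ℕ => lCell S y k (i : ℤ))).prod = ((lV S N k).map (vO K y)).prod *
      ((lHs S N k).map (fun t => (CoS (Net.ed (he t)) : Op Lab K))).prod := by
  unfold lV lHs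
  rw [prod_flatMap', prod_flatMap']
  simp only [lCell_list]
  apply prod_sort
  rw [List.pairwise_reverse]
  refine List.pairwise_lt_range.imp fun {a b} hab => ?_
  refine (commute_list_map (X := ((lH S k b).map (fun t => (CoS (Net.ed (he t)) : Op Lab K))).prod)
    fun w hw => (commute_list_map fun t ht => ?_).symm)
  refine (CoS_vO y ?_).symm
  rw [mem_pV] at hw
  rw [mem_lH] at ht
  unfold Ends
  rcases ht with rfl | rfl | rfl
  · simp only [if_true, S.io_qx]
    rcases hw with rfl | rfl <;> simp only [ne_eq, Prod.mk.injEq] <;> omega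
  · simp only [if_false, Bool.false_eq_true]
    rcases hw with rfl | rfl <;> simp only [ne_eq, Prod.mk.injEq] <;> omega
  · simp only [if_false, Bool.false_eq_true]
    rcases hw with rfl | rfl <;> simp only [ne_eq, Prod.mk.injEq] <;> omega

/-! ### the seam -/

theorem rHs_cons {N : ℕ} (hN : 1 ≤ N) (k : ℤ) : ∃ HR : List (ℤ × ℤ × Bool),
    rHs S N k = (S.px k 0, 0, true) :: HR ∧
    ∀ t ∈ HR, 0 ≤ t.2.1 ∧ t.2.1 < N ∧ (t.2.2 = true → 1 ≤ t.2.1 ∧ io t.1 t.2.1 = t.2.1 - 1) := by
  obtain ⟨M, rfl⟩ : ∃ M, N = M + 1 := ⟨N - 1, by omega⟩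
  refine ⟨(S.lx k 0 + 1, 0, false) :: (S.lx k 0, 0, false) ::
    ((List.range M).map Nat.succ).flatMap (fun i : ℕ => rH S k i), ?_, ?_⟩
  · unfold rHs
    rw [List.range_succ_eq_map, List.flatMap_cons]
    unfold rH
    simp
  · intro t ht
    simp only [List.mem_cons, List.mem_flatMap, List.mem_map, List.mem_range] at ht
    rcases ht with rfl | rfl | ⟨i, ⟨a, ha, rfl⟩, ht⟩
    · exact ⟨le_rfl, by push_cast; omega, fun h => by simp at h⟩
    · exact ⟨le_rfl, by push_cast; omega, fun h => by simp at h⟩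
    · rw [mem_rH] at ht
      rcases ht with rfl | rfl | rfl
      · exact ⟨by positivity, by push_cast; omega, fun _ => ⟨by push_cast; omega, S.io_px _ _⟩⟩
      · exact ⟨by positivity, by push_cast; omega, fun h => by simp at h⟩
      · exact ⟨by positivity, by push_cast; omega, fun h => by simp at h⟩

theorem lHs_cons {N : ℕ} (hN : 1 ≤ N) (k : ℤ) : ∃ HR : List (ℤ × ℤ × Bool),
    lHs S N k = (S.px k N, (N : ℤ) - 1, true) :: HR ∧
    ∀ t ∈ HR, 0 ≤ t.2.1 ∧ t.2.1 < N ∧ (t.2.2 = true → t.2.1 < N - 1 ∧ io t.1 t.2.1 = t.2.1 + 1) := by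
  obtain ⟨M, rfl⟩ : ∃ M, N = M + 1 := ⟨N - 1, by omega⟩
  refine ⟨(S.lx k M - 1, M, false) :: (S.lx k M, M, false) ::
    (List.range M).reverse.flatMap (fun i : ℕ => lH S k i), ?_, ?_⟩
  · unfold lHs
    rw [List.range_succ, List.reverse_append, List.flatMap_append]
    have h1 : ((M + 1 : ℕ) : ℤ) - 1 = M := by push_cast; ring
    have h2 : S.px k ((M + 1 : ℕ) : ℤ) = S.qx k M := by
      rw [S.qx_eq]
      push_cast
      rfl
    rw [h1, h2]
    simp only [List.reverse_cons, List.reverse_nil, List.nil_append, List.flatMap_cons, List.flatMap_nil,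
      List.append_nil]
    unfold lH
    simp
  · intro t ht
    simp only [List.mem_cons, List.mem_flatMap, List.mem_reverse, List.mem_range] at ht
    rcases ht with rfl | rfl | ⟨i, hi, ht⟩
    · exact ⟨by positivity, by push_cast; omega, fun h => by simp at h⟩
    · exact ⟨by positivity, by push_cast; omega, fun h => by simp at h⟩
    · rw [mem_lH] at ht
      rcases ht with rfl | rfl | rfl
      · exact ⟨by positivity, by push_cast; omega, fun _ => ⟨by push_cast; omega, S.io_qx _ _⟩⟩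
      · exact ⟨by positivity, by push_cast; omega, fun h => by simp at h⟩
      · exact ⟨by positivity, by push_cast; omega, fun h => by simp at h⟩

variable {N : ℕ} {hN : 1 ≤ N}

/-- a label that is not on the cylinder. -/
def Bad (N : ℕ) (a : Lab) : Prop := ∃ (x i : ℤ) (d : Pt), (i < 0 ∨ (N : ℤ) ≤ i) ∧ a = hf (V x i, d)

theorem bad_z : Bad N (lX 1) := ⟨0, -1, _, Or.inl (by omega), z_eq⟩

theorem bad_vt {x i : ℤ} (h : i < 0 ∨ (N : ℤ) ≤ i) : Bad N (vt x i) := ⟨x, i, _, h, rfl⟩

theorem Bad.comm_V {a : Lab} (h : Bad N a) (y : K) {w : ℤ × ℤ} (h1 : 0 ≤ w.2) (h2 : w.2 < N) :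
    Commute (PO a : Op Lab K) (vO K y w) := by
  obtain ⟨x, i, d, h3, rfl⟩ := h
  apply PO_Crv_comm
  rw [Ne, V_inj]
  omega

theorem Bad.comm_H {a : Lab} (h : Bad N a) {t : ℤ × ℤ × Bool} (h1 : 0 ≤ t.2.1) (h2 : t.2.1 < N) :
    Commute (PO a : Op Lab K) (CoS ((CyS S N hN).ed (he t))) := by
  obtain ⟨x, i, d, h3, rfl⟩ := h
  obtain ⟨x', i', b⟩ := t
  simp only at h1 h2
  have key : ∀ (x' i' : ℤ) (d' : Pt), 0 ≤ i' → i' < N → (hf (V x i, d) : Lab) ≠ hf (V x' i', d') := by
    intro x' i' d' h1 h2 e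
    rw [Sum.inl.injEq, Prod.mk.injEq, V_inj] at e
    omega
  cases b
  · rw [Ced_false h1 h2]
    exact PO_Co_comm (key _ _ _ h1 h2) (key _ _ _ h1 h2)
  · rw [Ced_true]
    exact PO_Co_comm (key _ _ _ h1 h2) (key _ _ _ (Int.emod_nonneg _ (by omega))
      (Int.emod_lt_of_pos _ (by omega)))

theorem UO_V_comm {a b : Lab} (ha : Bad N a) (hb : Bad N b) (y : K) {w : ℤ × ℤ} (h1 : 0 ≤ w.2)
    (h2 : w.2 < N) : Commute (UO a b : Op Lab K) (vO K y w) := by
  obtain ⟨x, i, d, h3, rfl⟩ := ha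
  obtain ⟨x', i', d', h3', rfl⟩ := hb
  apply UO_Crv_comm
  · simp only
    rw [Ne, V_inj]
    omega
  · simp only
    rw [Ne, V_inj]
    omega

theorem range_mem {k : ℤ} {w : ℤ × ℤ} (h : w ∈ rV S N k ∨ w ∈ lV S N k) : 0 ≤ w.2 ∧ w.2 < N := by
  rw [mem_rV, mem_lV, or_self] at h
  obtain ⟨i, hi, h⟩ := h
  rw [mem_pV] at h
  rcases h with rfl | rfl
  · exact ⟨Int.natCast_nonneg i, Int.ofNat_lt.2 hi⟩
  · exact ⟨Int.natCast_nonneg i, Int.ofNat_lt.2 hi⟩

/-- inner vertical edges of the cylinder are edges of the plane -/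
theorem Ced_in {t : ℤ × ℤ × Bool} (h1 : 0 ≤ t.2.1) (h2 : t.2.1 < N)
    (h3 : t.2.2 = true → 0 ≤ io t.1 t.2.1 ∧ io t.1 t.2.1 < N) :
    (CoS ((CyS S N hN).ed (he t)) : Op Lab K) = CoS (Net.ed (he t)) := by
  obtain ⟨x, i, b⟩ := t
  cases b
  · rw [Ced_false h1 h2, ed_false]
  · obtain ⟨h4, h5⟩ := h3 rfl
    rw [Ced_true, ed_true]
    unfold ux uy
    simp only at h4 h5
    rw [div_zero h4 h5, Int.emod_eq_of_lt h4 h5, mul_zero, sub_zero]

variable (hS : S.Per N)

include hS in
/-- the sorted form of a ring of the right part. -/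
theorem rRing_sort (y : K) (k : ℤ) : rRing S y N k =
    (PO (lX 1) * PO (vt (S.px k 0) (-1))) * ((rV S N k).map (vO K y)).prod *
      ((rHs S N k).map (fun t => (CoS ((CyS S N hN).ed (he t)) : Op Lab K))).prod := by
  obtain ⟨HR, h1, h2⟩ := rHs_cons (S := S) (N := N) hN k
  unfold rRing
  rw [rrows_sort, h1, List.map_cons, List.prod_cons, List.map_cons, List.prod_cons]
  have e1 : (HR.map (fun t => (CoS ((CyS S N hN).ed (he t)) : Op Lab K))) =
      HR.map (fun t => CoS (Net.ed (he t))) := by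
    refine List.map_congr_left (fun t ht => ?_)
    obtain ⟨a1, a2, a3⟩ := h2 t ht
    exact Ced_in a1 a2 fun hb => by
      obtain ⟨a4, a5⟩ := a3 hb
      omega
  have e2 : (CoS (Net.ed (he (S.px k 0, 0, true))) : Op Lab K) = Co (vt (S.px k 0) (-1)) (vt (S.px k 0) 0) := by
    rw [ed_true, S.io_px]
    exact Co_symm _ _
  have e3 : (CoS ((CyS S N hN).ed (he (S.px k 0, 0, true))) : Op Lab K) =
      Co (vt (S.px k 0) 0) (vt (S.px k N) ((N : ℤ) - 1)) := by
    rw [Ced_true]
    rcases up_px (hN := hN) hS (k := k) (i := 0) le_rfl (by omega) with ⟨h, -, -⟩ | ⟨-, h3, h4⟩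
    · omega
    · rw [h3, h4, S.qx_eq, sub_add_cancel]
      rfl
  rw [e1, e2, e3]
  set Vp := ((rV S N k).map (vO K y)).prod with hV
  set H := (HR.map (fun t => (CoS (Net.ed (he t)) : Op Lab K))).prod with hH
  have c1 : Commute (UO (lX 1) (vt (S.px k 0) (-1)) : Op Lab K) Vp := by
    apply commute_list_map
    intro w hw
    obtain ⟨a1, a2⟩ := range_mem (Or.inl hw)
    exact UO_V_comm (N := N) bad_z (bad_vt (Or.inl (by omega))) y a1 a2
  have c3 : Commute (PO (lX 1) : Op Lab K) Vp := by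
    apply commute_list_map
    intro w hw
    obtain ⟨a1, a2⟩ := range_mem (Or.inl hw)
    exact Bad.comm_V (N := N) bad_z y a1 a2
  have c4 : Commute (PO (vt (S.px k 0) (-1)) : Op Lab K) Vp := by
    apply commute_list_map
    intro w hw
    obtain ⟨a1, a2⟩ := range_mem (Or.inl hw)
    exact Bad.comm_V (N := N) (bad_vt (Or.inl (by omega))) y a1 a2
  have hpar : io (S.px k N) ((N : ℤ) - 1) = N := by
    have h5 := S.io_qx k ((N : ℤ) - 1)
    rw [S.qx_eq, sub_add_cancel] at h5
    exact h5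
  have c2 : Commute (Co (lX 1) (vt (S.px k N) ((N : ℤ) - 1)) : Op Lab K) H := by
    apply commute_list_map
    intro t ht
    obtain ⟨a1, a2, a3⟩ := h2 t ht
    obtain ⟨x, i, b⟩ := t
    simp only at a1 a2 a3
    cases b
    · rw [ed_false]
      exact Co_comm (by simp) (by simp) (by simp) (by simp)
    · obtain ⟨a4, a5⟩ := a3 rfl
      rw [ed_true, a5]
      refine Co_comm (by simp) (by simp) ?_ ?_
      · simp only [Ne, vt_inj, not_and]
        intro h3 h4
        rw [← h3, ← h4, hpar] at a5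
        omega
      · simp only [Ne, vt_inj, not_and]
        intro h3 h4
        omega
  have e4 := seam (K := K) (z := lX 1) (s := vt (S.px k 0) (-1)) (a := vt (S.px k 0) 0)
    (n := vt (S.px k N) ((N : ℤ) - 1)) (by
    have h5 := S.px_par k N
    have h6 := S.px_par k 0
    simp
    omega)
  calc _ = (UO (lX 1) (vt (S.px k 0) (-1)) * Vp) * (Co (vt (S.px k 0) (-1)) (vt (S.px k 0) 0) *
        (H * Co (lX 1) (vt (S.px k N) ((N : ℤ) - 1)))) := by
        simp only [mul_assoc]
    _ = Vp * (UO (lX 1) (vt (S.px k 0) (-1)) * Co (vt (S.px k 0) (-1)) (vt (S.px k 0) 0) *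
        Co (lX 1) (vt (S.px k N) ((N : ℤ) - 1))) * H := by
        rw [c1.eq, ← c2.eq]
        simp only [mul_assoc]
    _ = (Vp * (PO (lX 1) * PO (vt (S.px k 0) (-1)))) * (Co (vt (S.px k 0) 0) (vt (S.px k N) ((N : ℤ) - 1)) * H) := by
        rw [e4]
        simp only [mul_assoc]
    _ = _ := by rw [← (c3.mul_left c4).eq]

include hS in
/-- the sorted form of a ring of the left part. -/
theorem lRing_sort (y : K) (k : ℤ) : lRing S y N k =
    (PO (lX 1) * PO (vt (S.px k N) N)) * ((lV S N k).map (vO K y)).prod *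
      ((lHs S N k).map (fun t => (CoS ((CyS S N hN).ed (he t)) : Op Lab K))).prod := by
  obtain ⟨HR, h1, h2⟩ := lHs_cons (S := S) (N := N) hN k
  unfold lRing
  rw [lrows_sort, h1, List.map_cons, List.prod_cons, List.map_cons, List.prod_cons]
  have e1 : (HR.map (fun t => (CoS ((CyS S N hN).ed (he t)) : Op Lab K))) =
      HR.map (fun t => CoS (Net.ed (he t))) := by
    refine List.map_congr_left (fun t ht => ?_)
    obtain ⟨a1, a2, a3⟩ := h2 t ht
    exact Ced_in a1 a2 fun hb => by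
      obtain ⟨a4, a5⟩ := a3 hb
      omega
  have hpar : io (S.px k N) ((N : ℤ) - 1) = N := by
    have h5 := S.io_qx k ((N : ℤ) - 1)
    rw [S.qx_eq, sub_add_cancel] at h5
    exact h5
  have e2 : (CoS (Net.ed (he (S.px k N, (N : ℤ) - 1, true))) : Op Lab K) =
      Co (vt (S.px k N) N) (vt (S.px k N) ((N : ℤ) - 1)) := by
    rw [ed_true, hpar]
    exact Co_symm _ _
  have e3 : (CoS ((CyS S N hN).ed (he (S.px k N, (N : ℤ) - 1, true))) : Op Lab K) =
      Co (vt (S.px k N) ((N : ℤ) - 1)) (vt (S.px k 0) 0) := by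
    rw [Ced_true]
    have h6 : S.px k N = S.qx k ((N : ℤ) - 1) := by rw [S.qx_eq, sub_add_cancel]
    rcases up_qx (hN := hN) hS (k := k) (i := (N : ℤ) - 1) (by omega) (by omega) with ⟨h, -, -⟩ | ⟨-, h3, h4⟩
    · omega
    · rw [h6, h3, h4]
      rfl
  rw [e1, e2, e3]
  set Vp := ((lV S N k).map (vO K y)).prod with hV
  set H := (HR.map (fun t => (CoS (Net.ed (he t)) : Op Lab K))).prod with hH
  have c1 : Commute (UO (lX 1) (vt (S.px k N) N) : Op Lab K) Vp := by
    apply commute_list_map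
    intro w hw
    obtain ⟨a1, a2⟩ := range_mem (Or.inr hw)
    exact UO_V_comm (N := N) bad_z (bad_vt (Or.inr le_rfl)) y a1 a2
  have c3 : Commute (PO (lX 1) : Op Lab K) Vp := by
    apply commute_list_map
    intro w hw
    obtain ⟨a1, a2⟩ := range_mem (Or.inr hw)
    exact Bad.comm_V (N := N) bad_z y a1 a2
  have c4 : Commute (PO (vt (S.px k N) N) : Op Lab K) Vp := by
    apply commute_list_map
    intro w hw
    obtain ⟨a1, a2⟩ := range_mem (Or.inr hw)
    exact Bad.comm_V (N := N) (bad_vt (Or.inr le_rfl)) y a1 a2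
  have c2 : Commute (Co (lX 1) (vt (S.px k 0) 0) : Op Lab K) H := by
    apply commute_list_map
    intro t ht
    obtain ⟨a1, a2, a3⟩ := h2 t ht
    obtain ⟨x, i, b⟩ := t
    simp only at a1 a2 a3
    cases b
    · rw [ed_false]
      exact Co_comm (by simp) (by simp) (by simp) (by simp)
    · obtain ⟨a4, a5⟩ := a3 rfl
      rw [ed_true, a5]
      refine Co_comm (by simp) (by simp) ?_ ?_
      · simp only [Ne, vt_inj, not_and]
        intro h3 h4
        rw [← h3, ← h4, S.io_px] at a5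
        omega
      · simp only [Ne, vt_inj, not_and]
        intro h3 h4
        omega
  have e4 := seam (K := K) (z := lX 1) (s := vt (S.px k N) N) (a := vt (S.px k N) ((N : ℤ) - 1))
    (n := vt (S.px k 0) 0) (by
    have h5 := S.px_par k N
    have h6 := S.px_par k 0
    simp only [List.nodup_cons, List.mem_cons, not_or, List.not_mem_nil, not_false_eq_true, and_true,
      List.nodup_nil, vt_inj]
    refine ⟨⟨by simp, by simp, by simp⟩, ⟨by omega, by omega⟩, by omega⟩)
  calc _ = (UO (lX 1) (vt (S.px k N) N) * Vp) *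
        (Co (vt (S.px k N) N) (vt (S.px k N) ((N : ℤ) - 1)) *
        (H * Co (lX 1) (vt (S.px k 0) 0))) := by
        simp only [mul_assoc]
    _ = Vp * (UO (lX 1) (vt (S.px k N) N) *
        Co (vt (S.px k N) N) (vt (S.px k N) ((N : ℤ) - 1)) * Co (lX 1) (vt (S.px k 0) 0)) * H := by
        rw [c1.eq, ← c2.eq]
        simp only [mul_assoc]
    _ = (Vp * (PO (lX 1) * PO (vt (S.px k N) N))) *
        (Co (vt (S.px k N) ((N : ℤ) - 1)) (vt (S.px k 0) 0) * H) := by
        rw [e4]
        simp only [mul_assoc]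
    _ = _ := by rw [← (c3.mul_left c4).eq]

/-! ### all rings -/

variable (S)

/-- the vertices of the ring k. -/
def vL (N : ℕ) (k : ℤ) : List (ℤ × ℤ) := if 0 ≤ k then rV S N k else lV S N k

/-- the items of the ring k. -/
def cL (N : ℕ) (k : ℤ) : List (ℤ × ℤ × Bool) := if 0 ≤ k then rHs S N k else lHs S N k

/-- the ring k. -/
noncomputable def ring (y : K) (N : ℕ) (k : ℤ) : Op Lab K := if 0 ≤ k then rRing S y N k else lRing S y N k

theorem tot_rings (y : K) (N n m : ℕ) : rTot S y N n * lTot S y N m = ((rings n m).map (ring S y N)).prod := by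
  have h1 : ∀ n : ℕ, rTot S y N n = (((List.range n).reverse.map (fun j : ℕ => (j : ℤ))).map (ring S y N)).prod := by
    intro n
    induction n with
    | zero => rfl
    | succ n ih =>
      have e : rTot S y N (n + 1) = rRing S y N n * rTot S y N n := rfl
      rw [e, ih, List.range_succ, List.reverse_append]
      simp only [List.reverse_cons, List.reverse_nil, List.nil_append, List.cons_append, List.map_cons,
        List.prod_cons]
      have e3 : ring S y N (n : ℤ) = rRing S y N n := by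
        unfold ring
        rw [if_pos (Int.natCast_nonneg n)]
      rw [e3]
  have h2 : ∀ m : ℕ, lTot S y N m =
      (((List.range m).reverse.map (fun j : ℕ => -(j : ℤ) - 1)).map (ring S y N)).prod := by
    intro m
    induction m with
    | zero => rfl
    | succ m ih =>
      have e : lTot S y N (m + 1) = lRing S y N (-(m : ℤ) - 1) * lTot S y N m := rfl
      rw [e, ih, List.range_succ, List.reverse_append]
      simp only [List.reverse_cons, List.reverse_nil, List.nil_append, List.cons_append, List.map_cons,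
        List.prod_cons]
      have e3 : ring S y N (-(m : ℤ) - 1) = lRing S y N (-(m : ℤ) - 1) := by
        unfold ring
        rw [if_neg (by omega)]
      rw [e3]
  unfold rings
  rw [List.map_append, List.prod_append, h1, h2]

variable {S}

theorem mem_vL {k : ℤ} {w : ℤ × ℤ} : w ∈ vL S N k ↔ ∃ i : ℕ, i < N ∧ w ∈ pV S k i := by
  unfold vL
  split_ifs
  · exact mem_rV
  · exact mem_lV

variable (S) in
/-- the projections of a ring. -/
noncomputable def pR (K : Type*) [CommRing K] (N : ℕ) (k : ℤ) : Op Lab K :=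
  if 0 ≤ k then PO (lX 1) * PO (vt (S.px k 0) (-1)) else PO (lX 1) * PO (vt (S.px k N) N)

include hS in
theorem ring_sort (y : K) (k : ℤ) : ring S y N k =
    pR S K N k * ((vL S N k).map (vO K y)).prod *
      ((cL S N k).map (fun t => (CoS ((CyS S N hN).ed (he t)) : Op Lab K))).prod := by
  unfold ring pR vL cL
  by_cases h : 0 ≤ k
  · rw [if_pos h, if_pos h, if_pos h, if_pos h]
    exact rRing_sort hS y k
  · rw [if_neg h, if_neg h, if_neg h, if_neg h]
    exact lRing_sort hS y k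

theorem pR_bad (k : ℤ) : ∃ a b : Lab, Bad N a ∧ Bad N b ∧ pR S K N k = PO a * PO b := by
  unfold pR
  by_cases h : 0 ≤ k
  · rw [if_pos h]
    exact ⟨_, _, bad_z, bad_vt (Or.inl (by omega)), rfl⟩
  · rw [if_neg h]
    exact ⟨_, _, bad_z, bad_vt (Or.inr le_rfl), rfl⟩

theorem mem_cL {k : ℤ} {t : ℤ × ℤ × Bool} : t ∈ cL S N k ↔
    ∃ i : ℕ, i < N ∧ ((0 ≤ k ∧ t ∈ rH S k i) ∨ (k < 0 ∧ t ∈ lH S k i)) := by
  unfold cL
  by_cases h : 0 ≤ k
  · rw [if_pos h, mem_rHs]
    have h' : ¬ k < 0 := by omega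
    simp [h, h']
  · rw [if_neg h, mem_lHs]
    have h' : k < 0 := by omega
    simp [h, h']

theorem cL_range {k : ℤ} {t : ℤ × ℤ × Bool} (h : t ∈ cL S N k) : 0 ≤ t.2.1 ∧ t.2.1 < N := by
  rw [mem_cL] at h
  obtain ⟨i, hi, ⟨-, h⟩ | ⟨-, h⟩⟩ := h
  · rw [mem_rH] at h
    rcases h with rfl | rfl | rfl <;> exact ⟨Int.natCast_nonneg i, Int.ofNat_lt.2 hi⟩
  · rw [mem_lH] at h
    rcases h with rfl | rfl | rfl <;> exact ⟨Int.natCast_nonneg i, Int.ofNat_lt.2 hi⟩

theorem vL_range {k : ℤ} {w : ℤ × ℤ} (h : w ∈ vL S N k) : 0 ≤ w.2 ∧ w.2 < N := by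
  rw [mem_vL] at h
  obtain ⟨i, hi, h⟩ := h
  rw [mem_pV] at h
  rcases h with rfl | rfl <;> exact ⟨Int.natCast_nonneg i, Int.ofNat_lt.2 hi⟩

/-- the vertex lies in the ring k. -/
def InR (S : Stair) (k : ℤ) (w : ℤ × ℤ) : Prop := S.lx k w.2 ≤ w.1 ∧ w.1 ≤ S.lx k w.2 + 1

theorem InR.eq {k k' : ℤ} {w : ℤ × ℤ} (h : InR S k w) (h' : InR S k' w) : k = k' := by
  have := S.lx_sub k k' w.2
  unfold InR at h h'
  omega

theorem InR_vL {k : ℤ} {w : ℤ × ℤ} (h : w ∈ vL S N k) : InR S k w := by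
  rw [mem_vL] at h
  obtain ⟨i, hi, h⟩ := h
  rw [mem_pV] at h
  unfold InR
  rcases h with rfl | rfl
  · exact ⟨le_rfl, by simp⟩
  · exact ⟨by simp, le_rfl⟩

theorem InR_px (k i : ℤ) : InR S k (S.px k i, i) := by
  unfold InR
  rcases S.cases k i with h | h
  · constructor
    · simp only
      omega
    · simp only
      omega
  · constructor
    · simp only
      omega
    · simp only
      omega

theorem InR_qx (k i : ℤ) : InR S k (S.qx k i, i) := by
  unfold InR
  rcases S.cases k i with h | h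
  · constructor
    · simp only
      omega
    · simp only
      omega
  · constructor
    · simp only
      omega
    · simp only
      omega

include hS in
theorem InR_up (hN : 1 ≤ N) {k : ℤ} {i : ℤ} (h1 : 0 ≤ i) (h2 : i < N) :
    InR S k (ux S N (S.px k i) i, uy N (S.px k i) i) := by
  rcases up_px (hN := hN) hS (k := k) h1 h2 with ⟨-, h3, h4⟩ | ⟨-, h3, h4⟩
  · rw [h3, h4]
    exact InR_qx _ _
  · rw [h3, h4]
    exact InR_qx _ _

include hS in
theorem InR_uq (hN : 1 ≤ N) {k : ℤ} {i : ℤ} (h1 : 0 ≤ i) (h2 : i < N) :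
    InR S k (ux S N (S.qx k i) i, uy N (S.qx k i) i) := by
  rcases up_qx (hN := hN) hS (k := k) h1 h2 with ⟨-, h3, h4⟩ | ⟨-, h3, h4⟩
  · rw [h3, h4]
    exact InR_px _ _
  · rw [h3, h4]
    exact InR_px _ _

include hS in
/-- a ring commutes with the vertices of a later ring. -/
theorem later_comm (y : K) {a b : ℤ} (h : (0 ≤ a ∧ b < a) ∨ (a < 0 ∧ a < b ∧ b < 0)) :
    Commute (((cL S N a).map (fun t => (CoS ((CyS S N hN).ed (he t)) : Op Lab K))).prod)
      (((vL S N b).map (vO K y)).prod) := by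
  refine commute_list_map fun w hw => ?_
  refine (commute_list_map fun t ht => ?_).symm
  obtain ⟨a1, a2⟩ := cL_range ht
  have hb := InR_vL hw
  have key : ∀ (x i k : ℤ), InR S k (x, i) → k ≠ b → (x, i) ≠ w := by
    rintro x i k h1 h2 rfl
    exact h2 (h1.eq hb)
  rw [mem_cL] at ht
  obtain ⟨j, hj, ht⟩ := ht
  have hj0 : (0 : ℤ) ≤ j := Int.natCast_nonneg j
  have hj1 : (j : ℤ) < N := Int.ofNat_lt.2 hj
  refine (CoS_vO' y a1 a2 ?_ ?_ ?_).symm
  · rcases ht with ⟨h1, ht⟩ | ⟨h1, ht⟩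
    · rw [mem_rH] at ht
      rcases ht with rfl | rfl | rfl
      · exact key _ _ a (InR_px _ _) (by omega)
      · exact key _ _ a ⟨by simp, by simp⟩ (by omega)
      · exact key _ _ a ⟨by simp, by simp⟩ (by omega)
    · rw [mem_lH] at ht
      rcases ht with rfl | rfl | rfl
      · exact key _ _ a (InR_qx _ _) (by omega)
      · refine key _ _ (a - 1) ⟨?_, ?_⟩ (by omega)
        · simp only [S.lx_pred]
          omega
        · simp only [S.lx_pred]
          omega
      · exact key _ _ a ⟨by simp, by simp⟩ (by omega)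
  · intro hb
    rcases ht with ⟨h1, ht⟩ | ⟨h1, ht⟩
    · rw [mem_rH] at ht
      rcases ht with rfl | rfl | rfl
      · simp at hb
      · refine key _ _ (a + 1) ⟨?_, ?_⟩ (by omega)
        · simp only [S.lx_succ]
          omega
        · simp only [S.lx_succ]
          omega
      · exact key _ _ a ⟨by simp, by simp⟩ (by omega)
    · rw [mem_lH] at ht
      rcases ht with rfl | rfl | rfl
      · simp at hb
      · exact key _ _ a ⟨by simp, by simp⟩ (by omega)
      · exact key _ _ a ⟨by simp, by simp⟩ (by omega)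
  · intro hb
    rcases ht with ⟨h1, ht⟩ | ⟨h1, ht⟩
    · rw [mem_rH] at ht
      rcases ht with rfl | rfl | rfl
      · exact key _ _ a (InR_up hS hN hj0 hj1) (by omega)
      · simp at hb
      · simp at hb
    · rw [mem_lH] at ht
      rcases ht with rfl | rfl | rfl
      · exact key _ _ a (InR_uq hS hN hj0 hj1) (by omega)
      · simp at hb
      · simp at hb

variable (S)

/-- all vertices. -/
def vA (N n m : ℕ) : List (ℤ × ℤ) := (rings n m).flatMap (vL S N)

/-- all items. -/
def cA (N n m : ℕ) : List (ℤ × ℤ × Bool) := (rings n m).flatMap (cL S N)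

variable {S}

include hS in
/-- **The network of all rings, sorted, at the empty state.** -/
theorem tot_sort (y : K) (n m : ℕ) (G : Pat Lab → K) :
    (rTot S y N n * lTot S y N m) G Pat.empty =
      (((vA S N n m).map (vO K y)).prod *
        ((cA S N n m).map (fun t => (CoS ((CyS S N hN).ed (he t)) : Op Lab K))).prod) G Pat.empty := by
  rw [tot_rings]
  have e1 : (rings n m).map (ring S y N) = (rings n m).map (fun k => pR S K N k *
      ((vL S N k).map (vO K y)).prod *
      ((cL S N k).map (fun t => (CoS ((CyS S N hN).ed (he t)) : Op Lab K))).prod) :=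
    List.map_congr_left fun k _ => ring_sort hS y k
  rw [e1, prod_sort3]
  · unfold vA cA
    rw [prod_flatMap', prod_flatMap']
    rw [Module.End.mul_apply]
    have key : ∀ (l : List ℤ) (F : Pat Lab → K), (l.map (pR S K N)).prod F Pat.empty = F Pat.empty := by
      intro l
      induction l with
      | nil => intro F; rfl
      | cons k l ih =>
        intro F
        rw [List.map_cons, List.prod_cons, Module.End.mul_apply]
        obtain ⟨a, b, -, -, e⟩ := pR_bad (S := S) (K := K) (N := N) k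
        rw [e, Module.End.mul_apply, PO_apply, if_pos (show (Pat.empty : Pat Lab).f a = a from rfl), PO_apply,
          if_pos (show (Pat.empty : Pat Lab).f b = b from rfl)]
        exact ih F
    exact key _ _
  · exact (pairwise_rings n m).imp fun {a b} h => later_comm hS y h
  · intro a _ b _
    obtain ⟨c, d, hc, hd, e⟩ := pR_bad (S := S) (K := K) (N := N) a
    rw [e]
    refine commute_list_map fun w hw => ?_
    obtain ⟨a1, a2⟩ := vL_range hw
    exact (hc.comm_V y a1 a2).mul_left (hd.comm_V y a1 a2)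
  · intro a _ b _
    obtain ⟨c, d, hc, hd, e⟩ := pR_bad (S := S) (K := K) (N := N) a
    rw [e]
    refine commute_list_map fun t ht => ?_
    obtain ⟨a1, a2⟩ := cL_range ht
    exact (hc.comm_H a1 a2).mul_left (hd.comm_H a1 a2)

end Pool.Agent.THJ
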