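import Pool.Agent.MXR.Brick

/-!
# THETA, physical side (TH-J): staircases and the cylinders in every direction (helper62)

A staircase `S`: the column coordinate `S.c i` of the bottom leg of the auxiliary line in the row `i`; it increases by 1 in
a normal row and decreases by 1 in a mirrored row.  The cell `k` of the row `i` has the vertices `V (S.lx k i) i`,
`V (S.lx k i + 1) i` of the brick wall (`MXR/Brick`); the auxiliary line enters it at `S.px k i` and leaves it at
`S.qx k i = S.px k (i + 1)`.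

`S.Per N`: the staircase is periodic with `N` rows; `CyS hS hN` = the honeycomb cylinder modulo the translation
`(S.c N, (3 N - S.c N) / 2)` (all directions: `S.c N` = normal rows minus mirrored rows).
-/

set_option autoImplicit false

namespace Pool.Agent.THJ

open Pool.Agent.EXL Pool.Agent.EXL.Net HexObs HexObs.LP
open Pool.Agent.NUF.Cyl (ri Nm)
open Pool.Agent.MXR

/-- a staircase -/
structure Stair where
  /-- the column coordinate of the bottom leg of the auxiliary line -/
  c : ℤ → ℤ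
  c0 : c 0 = 0
  st : ∀ i, c (i + 1) = c i + 1 ∨ c (i + 1) = c i - 1

namespace Stair

variable (S : Stair)

/-- the row is mirrored -/
def m (i : ℤ) : Bool := decide (S.c (i + 1) = S.c i - 1)

/-- the left vertex of the cell -/
def lx (k i : ℤ) : ℤ := 2 * k + if S.m i then S.c i - 1 else S.c i

/-- the bottom vertex of the cell -/
def px (k i : ℤ) : ℤ := 2 * k + S.c i

/-- the top vertex of the cell -/
def qx (k i : ℤ) : ℤ := 2 * k + S.c (i + 1)

theorem cases (k i : ℤ) : (S.m i = false ∧ S.px k i = S.lx k i ∧ S.qx k i = S.lx k i + 1) ∨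
    (S.m i = true ∧ S.px k i = S.lx k i + 1 ∧ S.qx k i = S.lx k i) := by
  unfold px qx lx m
  rcases S.st i with h | h
  · left
    have h1 : ¬ (S.c (i + 1) = S.c i - 1) := by omega
    simp only [h1, decide_false, Bool.false_eq_true, if_false, true_and]
    omega
  · right
    rw [decide_eq_true h]
    simp only [if_true, true_and]
    omega

theorem lx_succ (k i : ℤ) : S.lx (k + 1) i = S.lx k i + 2 := by
  unfold lx
  omega

theorem lx_pred (k i : ℤ) : S.lx (k - 1) i = S.lx k i - 2 := by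
  unfold lx
  omega

theorem lx_sub (k k' i : ℤ) : S.lx k i - S.lx k' i = 2 * (k - k') := by
  unfold lx
  omega

theorem px_zero (k : ℤ) : S.px k 0 = 2 * k := by
  unfold px
  rw [S.c0, add_zero]

theorem qx_eq (k i : ℤ) : S.qx k i = S.px k (i + 1) := rfl

/-- the parity -/
theorem par (i : ℤ) : (S.c i - i) % 2 = 0 := by
  induction i using Int.induction_on with
  | zero => rw [S.c0]; rfl
  | succ i ih =>
    rcases S.st i with h | h <;> rw [h] <;> omega
  | pred i ih =>
    have h1 := S.st (-(i : ℤ) - 1)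
    rw [sub_add_cancel] at h1
    rcases h1 with h | h <;> omega

theorem px_par (k i : ℤ) : (S.px k i - i) % 2 = 0 := by
  have := S.par i
  unfold px
  omega

theorem qx_par (k i : ℤ) : (S.qx k i - i) % 2 = 1 := by
  have := S.px_par k (i + 1)
  rw [← qx_eq] at this
  omega

theorem io_px (k i : ℤ) : io (S.px k i) i = i - 1 := by
  unfold io
  rw [if_pos (S.px_par k i)]

theorem io_qx (k i : ℤ) : io (S.qx k i) i = i + 1 := by
  unfold io
  have := S.qx_par k i
  rw [if_neg (by omega)]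

/-- the cell of a vertex -/
theorem px_of {k x i : ℤ} (h1 : S.lx k i ≤ x) (h2 : x ≤ S.lx k i + 1) (h : (x - i) % 2 = 0) : x = S.px k i := by
  have h3 := S.px_par k i
  rcases S.cases k i with h4 | h4 <;> omega

theorem qx_of {k x i : ℤ} (h1 : S.lx k i ≤ x) (h2 : x ≤ S.lx k i + 1) (h : (x - i) % 2 ≠ 0) : x = S.qx k i := by
  have h3 := S.qx_par k i
  rcases S.cases k i with h4 | h4 <;> omega

/-- the staircase is periodic with N rows -/
def Per (N : ℕ) : Prop := ∀ i, S.c (i + N) = S.c i + S.c N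

variable {S} {N : ℕ}

theorem Per.m (h : S.Per N) (i : ℤ) : S.m (i + N) = S.m i := by
  unfold Stair.m
  have h1 := h i
  have h2 := h (i + 1)
  rw [show i + 1 + (N : ℤ) = i + N + 1 by ring] at h2
  rw [h1, h2]
  congr 1
  rw [eq_iff_iff]
  omega

theorem Per.lx (h : S.Per N) (k i : ℤ) : S.lx k (i + N) = S.lx k i + S.c N := by
  unfold Stair.lx
  rw [h.m, h i]
  split_ifs <;> omega

theorem Per.px (h : S.Per N) (k i : ℤ) : S.px k (i + N) = S.px k i + S.c N := by
  unfold Stair.px
  rw [h i]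
  ring

end Stair

/-! ### the cylinder -/

/-- translation by t turns -/
def trS (S : Stair) (N : ℕ) (t : ℤ) (v : Pt) : Pt := (v.1 + S.c N * t, v.2 + (3 * N - S.c N) / 2 * t)

variable {S : Stair} {N : ℕ}

theorem par2 (S : Stair) (N : ℕ) : 2 * ((3 * (N : ℤ) - S.c N) / 2) = 3 * N - S.c N := by
  have := S.par N
  omega

theorem ri_trS (t : ℤ) (v : Pt) : ri (trS S N t v) = ri v + N * t := by
  simp only [ri, trS]
  have h := par2 S N
  have e : v.1 + S.c N * t + 2 * (v.2 + (3 * N - S.c N) / 2 * t) - 2 = v.1 + 2 * v.2 - 2 + 3 * (N * t) := by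
    have : 2 * ((3 * (N : ℤ) - S.c N) / 2 * t) = (3 * N - S.c N) * t := by rw [← mul_assoc, h]
    linear_combination this
  rw [e]
  omega

theorem trS_V (t x i : ℤ) : trS S N t (V x i) = V (x + S.c N * t) (i + N * t) := by
  simp only [trS, V, Prod.mk.injEq, true_and]
  have h := par2 S N
  have e : 3 * (i + N * t) + 3 - (x + S.c N * t) = 3 * i + 3 - x + 2 * ((3 * N - S.c N) / 2 * t) := by
    have : 2 * ((3 * (N : ℤ) - S.c N) / 2 * t) = (3 * N - S.c N) * t := by rw [← mul_assoc, h]
    linear_combination -this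
  rw [e]
  omega

theorem trS_trS (t t' : ℤ) (v : Pt) : trS S N t (trS S N t' v) = trS S N (t + t') v := by
  simp only [trS, Prod.mk.injEq]
  constructor <;> ring

theorem trS_zero (v : Pt) : trS S N 0 v = v := by
  simp [trS]

/-- the representative on the cylinder -/
def nmS (S : Stair) (N : ℕ) (v : Pt) : Pt := trS S N (-(ri v / N)) v

theorem nmS_trS (hN : 1 ≤ N) (t : ℤ) (v : Pt) : nmS S N (trS S N t v) = nmS S N v := by
  unfold nmS
  rw [ri_trS, trS_trS, Int.add_mul_ediv_left _ _ (by omega : (N : ℤ) ≠ 0)]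
  congr 1
  ring

/-- **the cylinder of the staircase with N rows** -/
def CyS (S : Stair) (N : ℕ) (hN : 1 ≤ N) : Nm where
  nm := nmS S N
  add v d := by
    have : nmS S N v + d = trS S N (-(ri v / N)) (v + d) := by
      simp only [nmS, trS, Prod.ext_iff, Prod.fst_add, Prod.snd_add]
      constructor <;> ring
    rw [this, nmS_trS hN]
  cl v := by
    simp only [nmS, trS, cl]
    have h := par2 S N
    have hp := S.par N
    obtain ⟨q, hq⟩ : ∃ q, S.c N = N + 2 * q := ⟨(S.c N - N) / 2, by omega⟩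
    have e : (3 * (N : ℤ) - S.c N) / 2 = N - q := by omega
    rw [e, hq]
    have e2 : (v.1 + (N + 2 * q) * -(ri v / N) - (v.2 + (N - q) * -(ri v / N)) : ℤ) =
        v.1 - v.2 + 3 * (q * -(ri v / N)) := by ring
    rw [e2]
    push_cast
    have h3 : (3 : ZMod 3) = 0 := by decide
    rw [h3, zero_mul, add_zero]

variable {hN : 1 ≤ N}

theorem nm_Vm (x i : ℤ) : (CyS S N hN).nm (V x i) = V (x - S.c N * (i / N)) (i % N) := by
  show nmS S N (V x i) = _
  unfold nmS
  rw [ri_V, trS_V]
  have := Int.mul_ediv_add_emod i N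
  congr 1
  · ring
  · linarith

theorem div_zero {i : ℤ} (h1 : 0 ≤ i) (h2 : i < N) : i / (N : ℤ) = 0 := Int.ediv_eq_zero_of_lt h1 h2

theorem nm_V {x i : ℤ} (h1 : 0 ≤ i) (h2 : i < N) : (CyS S N hN).nm (V x i) = V x i := by
  rw [nm_Vm, Int.emod_eq_of_lt h1 h2, div_zero h1 h2, mul_zero, sub_zero]

theorem nm_iff {x i : ℤ} : (CyS S N hN).nm (V x i) = V x i ↔ 0 ≤ i ∧ i < N := by
  constructor
  · rw [nm_Vm, V_inj]
    rintro ⟨-, h⟩
    rw [← h]
    exact ⟨Int.emod_nonneg _ (by omega), Int.emod_lt_of_pos _ (by omega)⟩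
  · rintro ⟨h1, h2⟩
    exact nm_V h1 h2

/-- translates -/
theorem nm_iff_tr {v w : Pt} : (CyS S N hN).nm v = (CyS S N hN).nm w ↔ ∃ t : ℤ, v = trS S N t w := by
  constructor
  · intro h
    have h1 : nmS S N v = nmS S N w := h
    unfold nmS at h1
    refine ⟨ri v / N + -(ri w / N), ?_⟩
    have h2 := congrArg (trS S N (ri v / N)) h1
    rw [trS_trS, trS_trS, add_neg_cancel, trS_zero] at h2
    exact h2
  · rintro ⟨t, rfl⟩
    exact nmS_trS hN t w

theorem nb_R {x i : ℤ} (h1 : 0 ≤ i) (h2 : i < N) : (CyS S N hN).nb (V x i, dR x i) = V (x + 1) i := by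
  unfold Nm.nb
  rw [V_dR, nm_V h1 h2]

theorem nb_L {x i : ℤ} (h1 : 0 ≤ i) (h2 : i < N) : (CyS S N hN).nb (V x i, dL x i) = V (x - 1) i := by
  unfold Nm.nb
  rw [V_dL, nm_V h1 h2]

/-- the other end of the vertical edge, column coordinate -/
def ux (S : Stair) (N : ℕ) (x i : ℤ) : ℤ := x - S.c N * (io x i / N)

/-- the other end of the vertical edge, row -/
def uy (N : ℕ) (x i : ℤ) : ℤ := io x i % N

theorem nb_U (x i : ℤ) : (CyS S N hN).nb (V x i, dU x i) = V (ux S N x i) (uy N x i) := by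
  unfold Nm.nb ux uy
  rw [V_dU, nm_Vm]

theorem rv_R {x i : ℤ} (h1 : 0 ≤ i) (h2 : i < N) :
    (CyS S N hN).rv (V x i, dR x i) = (V (x + 1) i, dL (x + 1) i) := by
  unfold Nm.rv
  rw [nb_R h1 h2, neg_dR]

theorem rv_L {x i : ℤ} (h1 : 0 ≤ i) (h2 : i < N) :
    (CyS S N hN).rv (V x i, dL x i) = (V (x - 1) i, dR (x - 1) i) := by
  unfold Nm.rv
  rw [nb_L h1 h2, neg_dL]

theorem upar (x i : ℤ) : (ux S N x i - uy N x i) % 2 = (x - io x i) % 2 := by
  unfold ux uy
  have h1 := Int.mul_ediv_add_emod (io x i) N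
  have h2 := S.par N
  obtain ⟨q, hq⟩ : ∃ q, S.c N = N + 2 * q := ⟨(S.c N - N) / 2, by omega⟩
  rw [hq]
  generalize io x i % (N : ℤ) = r at h1 ⊢
  generalize io x i / (N : ℤ) = s at h1 ⊢
  have h3 : x - (N + 2 * q) * s - r = x - io x i - 2 * (q * s) := by
    rw [← h1]
    ring
  rw [h3]
  omega

theorem dU_mod (x i : ℤ) : dU (ux S N x i) (uy N x i) = dU x (io x i) := by
  unfold dU
  have h := upar (S := S) (N := N) x i
  simp only [h]

theorem rv_U (x i : ℤ) :
    (CyS S N hN).rv (V x i, dU x i) = (V (ux S N x i) (uy N x i), dU (ux S N x i) (uy N x i)) := by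
  unfold Nm.rv
  rw [nb_U, dU_mod, neg_dU]

/-! ### the vertical edges stay in the ring -/

variable (hS : S.Per N)

include hS hN

/-- the bottom vertex of a cell -/
theorem up_px {k i : ℤ} (h1 : 0 ≤ i) (h2 : i < N) : (1 ≤ i ∧ ux S N (S.px k i) i = S.qx k (i - 1) ∧
    uy N (S.px k i) i = i - 1) ∨ (i = 0 ∧ ux S N (S.px k i) i = S.qx k (N - 1) ∧ uy N (S.px k i) i = N - 1) := by
  unfold ux uy
  rw [S.io_px]
  rcases Int.lt_or_le 0 i with h | h
  · left
    rw [div_zero (by omega) (by omega), Int.emod_eq_of_lt (by omega) (by omega)]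
    refine ⟨by omega, ?_, rfl⟩
    rw [S.qx_eq, sub_add_cancel, mul_zero, sub_zero]
  · right
    have h0 : i = 0 := by omega
    subst h0
    have e1 : (0 - 1 : ℤ) / N = -1 := by
      rw [Int.ediv_eq_iff_of_pos (by omega)]
      omega
    have e2 : (0 - 1 : ℤ) % N = N - 1 := by
      have := Int.mul_ediv_add_emod (0 - 1) N
      rw [e1] at this
      linarith
    rw [e1, e2]
    refine ⟨rfl, ?_, rfl⟩
    rw [S.qx_eq, sub_add_cancel]
    have := hS.px k 0
    rw [zero_add] at this
    rw [this]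
    ring

/-- the top vertex of a cell -/
theorem up_qx {k i : ℤ} (h1 : 0 ≤ i) (h2 : i < N) : (i < N - 1 ∧ ux S N (S.qx k i) i = S.px k (i + 1) ∧
    uy N (S.qx k i) i = i + 1) ∨ (i = N - 1 ∧ ux S N (S.qx k i) i = S.px k 0 ∧ uy N (S.qx k i) i = 0) := by
  unfold ux uy
  rw [S.io_qx]
  rcases Int.lt_or_le i (N - 1) with h | h
  · left
    rw [div_zero (by omega) (by omega), Int.emod_eq_of_lt (by omega) (by omega)]
    refine ⟨by omega, ?_, rfl⟩
    rw [S.qx_eq, mul_zero, sub_zero]
  · right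
    have h0 : i = N - 1 := by omega
    subst h0
    have e0 : ((N : ℤ) - 1 + 1) = N := by ring
    rw [e0, Int.ediv_self (by omega), Int.emod_self]
    refine ⟨rfl, ?_, rfl⟩
    rw [S.qx_eq, e0]
    have := hS.px k 0
    rw [zero_add] at this
    rw [this]
    ring

end Pool.Agent.THJ
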