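import Pool.Agent.THJ.Ends
import Pool.Agent.PLN.PubZ

/-!
# TH-J: the symmetries of the two-point function on the triangular lattice (helper62)

`pt j m n = √3 (m u_j + n u_(j+1))`, `u_j = exp (i π (2 j + 1) / 6)`.
* `G_neg`: `G z (-x) = G z x` for the vertices of the class of the origin;
* `G_pt`: `G z (pt j m n) = G z (pt 0 m n)`; `G_swap`: `G z (pt 0 m n) = G z (pt 0 n m)`;
* `norm_pt`; `pt_of`: every vertex of the class of the origin is a `pt j m n`; `near`: every vertex has a neighbour of this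
  class.
-/

set_option autoImplicit false

open scoped Classical

namespace Pool.Agent.THJ

open Pool.Agent.IW.Res Pool.Agent.PLC.Res Finset
open Pool.Agent.PLN (uj uj_norm uj_two uj_conj om om_ne om_three G_om G_conj vert_om vert_conj)
open Pool.Agent.PLC.E1D (rvs rvs_rvs rvs_saw rvs_end pos_cls w3 int_inj)
open NTF (JJ)
open HexObs (Pt)

/-! ### the point reflection -/

theorem G_neg (z : ℝ) {v : Pt} (hv : 3 ∣ v.1 - v.2) : G z (-JJ v) = G z (JJ v) := by
  have hneg : -JJ v = JJ (-v) := by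
    apply Complex.ext
    · rw [Complex.neg_re, NTF.JJ_re, NTF.JJ_re]
      simp only [Prod.fst_neg, Prod.snd_neg]
      push_cast
      ring
    · rw [Complex.neg_im, NTF.JJ_im, NTF.JJ_im]
      simp only [Prod.fst_neg]
      push_cast
      ring
  have key : ∀ (n : ℕ) (s : Fin n → Fin 3), pos s n = JJ v ↔ pos (rvs s) n = -JJ v := by
    intro n s
    constructor
    · intro h
      have h1 := even_end s hv h
      rw [rvs_end, h, h1.neg_one_pow]
      ring
    · intro h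
      have h1 : Even n := even_end (rvs s) (y := -v) (by
        simp only [Prod.fst_neg, Prod.snd_neg]
        omega) (by rw [h, hneg])
      rw [rvs_end, h1.neg_one_pow] at h
      linear_combination -h
  unfold G
  refine tsum_congr fun n => ?_
  congr 2
  refine card_nbij' rvs rvs ?_ ?_ (fun s _ => rvs_rvs s) (fun s _ => rvs_rvs s)
  · intro s hs
    rw [mem_coe, mem_filter] at hs ⊢
    refine ⟨rvs_saw hs.1, (key n (rvs s)).2 ?_⟩
    rw [rvs_rvs]
    exact hs.2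
  · intro s hs
    rw [mem_coe, mem_filter] at hs ⊢
    exact ⟨rvs_saw hs.1, (key n s).1 hs.2⟩

/-! ### the points of a sector -/

/-- the point of the sector j with the coordinates m, n -/
noncomputable def pt (j : ℤ) (m n : ℕ) : ℂ := (Real.sqrt 3 : ℂ) * ((m : ℂ) * uj j + (n : ℂ) * uj (j + 1))

lemma uj_three (j : ℤ) : uj (j + 3) = -uj j := by
  unfold uj
  rw [show Complex.I * (Real.pi : ℂ) * (2 * ((j + 3 : ℤ) : ℂ) + 1) / 6 =
    Complex.I * (Real.pi : ℂ) * (2 * (j : ℂ) + 1) / 6 + (Real.pi : ℂ) * Complex.I by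
      push_cast
      ring, Complex.exp_add, Complex.exp_pi_mul_I]
  ring

lemma uj_zero : uj 0 = ⟨Real.sqrt 3 / 2, 1 / 2⟩ := by
  unfold uj
  rw [show Complex.I * (Real.pi : ℂ) * (2 * ((0 : ℤ) : ℂ) + 1) / 6 = ((Real.pi / 6 : ℝ) : ℂ) * Complex.I by
    push_cast; ring]
  apply Complex.ext
  · rw [Complex.exp_ofReal_mul_I_re, Real.cos_pi_div_six]
  · rw [Complex.exp_ofReal_mul_I_im, Real.sin_pi_div_six]

lemma uj_one : uj 1 = ⟨0, 1⟩ := by
  unfold uj
  rw [show Complex.I * (Real.pi : ℂ) * (2 * ((1 : ℤ) : ℂ) + 1) / 6 = ((Real.pi / 2 : ℝ) : ℂ) * Complex.I by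
    push_cast; ring]
  apply Complex.ext
  · rw [Complex.exp_ofReal_mul_I_re, Real.cos_pi_div_two]
  · rw [Complex.exp_ofReal_mul_I_im, Real.sin_pi_div_two]

lemma uj_pred (j : ℤ) : uj (j + 1) - uj j = uj (j + 2) := by
  have h0 : uj 1 - uj 0 = uj 2 := by
    have h1 := uj_conj (-3)
    have h2 := uj_three (-3)
    have h3 : uj 2 = (starRingEnd ℂ) (-uj 0) := by
      have h4 := uj_conj (-3)
      have h5 := uj_three (-3)
      norm_num at h4 h5
      rw [h4, h5, map_neg, map_neg, neg_neg]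
    rw [h3, uj_one, uj_zero]
    apply Complex.ext
    · simp
    · simp
      norm_num
  have hmul : ∀ i : ℤ, uj (i + j) = uj i * Complex.exp (Complex.I * (Real.pi : ℂ) * (j : ℂ) / 3) := by
    intro i
    unfold uj
    rw [← Complex.exp_add]
    congr 1
    push_cast
    ring
  have e0 := hmul 0
  have e1 := hmul 1
  have e2 := hmul 2
  rw [zero_add] at e0
  rw [add_comm j 1, add_comm j 2, e0, e1, e2, ← h0]
  ring

/-- the points are points of the triangular lattice -/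
lemma JJ_add (v w : Pt) : JJ (v + w) = JJ v + JJ w := NTF.JJ_add v w

/-- the vectors of the lattice -/
def bv (j : ℕ) : Pt := match j with
  | 0 => (-1, 2)
  | 1 => (-2, 1)
  | 2 => (-1, -1)
  | 3 => (1, -2)
  | 4 => (2, -1)
  | _ => (1, 1)

lemma JJ_bv0 : JJ (bv 0) = (Real.sqrt 3 : ℂ) * uj 0 := by
  rw [uj_zero]
  have h3 : (√3 : ℝ) * √3 = 3 := Real.mul_self_sqrt (by norm_num)
  apply Complex.ext
  · rw [NTF.JJ_re, Complex.mul_re]
    simp only [bv, Complex.ofReal_re, Complex.ofReal_im]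
    push_cast
    linear_combination (-1 / 2 : ℝ) * h3
  · rw [NTF.JJ_im, Complex.mul_im]
    simp only [bv, Complex.ofReal_re, Complex.ofReal_im]
    push_cast
    ring

lemma JJ_bv1 : JJ (bv 1) = (Real.sqrt 3 : ℂ) * uj 1 := by
  rw [uj_one]
  apply Complex.ext
  · rw [NTF.JJ_re, Complex.mul_re]
    simp only [bv, Complex.ofReal_re, Complex.ofReal_im]
    push_cast
    ring
  · rw [NTF.JJ_im, Complex.mul_im]
    simp only [bv, Complex.ofReal_re, Complex.ofReal_im]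
    push_cast
    ring

/-- a combination of the vectors 0, 1 -/
lemma JJ_comb (m n : ℤ) : JJ (-m - 2 * n, 2 * m + n) = (Real.sqrt 3 : ℂ) * ((m : ℂ) * uj 0 + (n : ℂ) * uj 1) := by
  have h0 := JJ_bv0
  have h1 := JJ_bv1
  have e : JJ (-m - 2 * n, 2 * m + n) = (m : ℂ) * JJ (bv 0) + (n : ℂ) * JJ (bv 1) := by
    rw [JJ_w3, JJ_w3, JJ_w3]
    simp only [bv]
    push_cast
    ring
  rw [e, h0, h1]
  ring

lemma pt_zero (m n : ℕ) : pt 0 m n = JJ (-(m : ℤ) - 2 * n, 2 * m + n) := by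
  rw [JJ_comb]
  unfold pt
  rw [zero_add]
  push_cast
  rfl

lemma G_two (z : ℝ) (j : ℤ) (m n : ℕ) : G z (pt (j + 2) m n) = G z (pt j m n) := by
  have e : pt (j + 2) m n = om * pt j m n := by
    unfold pt
    rw [show j + 2 + 1 = (j + 1) + 2 by ring, uj_two, uj_two]
    ring
  rw [e, G_om]

lemma G_cj (z : ℝ) (j : ℤ) (m n : ℕ) : G z (pt (-j - 2) n m) = G z (pt j m n) := by
  have e : pt (-j - 2) n m = (starRingEnd ℂ) (pt j m n) := by
    unfold pt
    rw [show -j - 2 = -(j + 1) - 1 by ring, uj_conj, show -(j + 1) - 1 + 1 = -j - 1 by ring, uj_conj, map_mul, map_add,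
      map_mul, map_mul, Complex.conj_ofReal, Complex.conj_natCast, Complex.conj_natCast]
    ring
  rw [e, G_conj]

lemma G_swap (z : ℝ) (m n : ℕ) : G z (pt 0 n m) = G z (pt 0 m n) := by
  have h1 := G_cj z 0 m n
  have h2 := G_two z (-2) n m
  norm_num at h1 h2
  rw [h2, h1]

lemma G_three (z : ℝ) (m n : ℕ) : G z (pt 3 m n) = G z (pt 0 m n) := by
  have e : pt 3 m n = -pt 0 m n := by
    unfold pt
    have h1 := uj_three 0
    have h2 := uj_three 1
    norm_num at h1 h2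
    rw [show (3 : ℤ) + 1 = 4 by norm_num, show (0 : ℤ) + 1 = 1 by norm_num, h1, h2]
    ring
  rw [e, pt_zero, G_neg]
  simp only
  omega

/-- **all sectors are equal** -/
theorem G_pt (z : ℝ) (j : ℤ) (m n : ℕ) : G z (pt j m n) = G z (pt 0 m n) := by
  have he : ∀ (i : ℕ) (j : ℤ), G z (pt (j + 2 * i) m n) = G z (pt j m n) := by
    intro i
    induction i with
    | zero => intro j; simp
    | succ i ih =>
      intro j
      rw [show j + 2 * ((i + 1 : ℕ) : ℤ) = (j + 2 * i) + 2 by push_cast; ring, G_two, ih]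
  have hz : ∀ i j : ℤ, G z (pt (j + 2 * i) m n) = G z (pt j m n) := by
    intro i j
    rcases Int.eq_nat_or_neg i with ⟨k, rfl | rfl⟩
    · exact he k j
    · have := he k (j + 2 * -(k : ℤ))
      rw [show j + 2 * -(k : ℤ) + 2 * (k : ℤ) = j by ring] at this
      exact this.symm
  rcases Int.even_or_odd' j with ⟨i, rfl | rfl⟩
  · have := hz i 0
    rw [zero_add] at this
    exact this
  · have := hz (i - 1) 3
    rw [show 3 + 2 * (i - 1) = 2 * i + 1 by ring] at this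
    rw [this, G_three]

/-! ### norms -/

lemma pt_mul (j : ℤ) (m n : ℕ) : pt j m n = pt 0 m n * Complex.exp (((Real.pi * j / 3 : ℝ) : ℂ) * Complex.I) := by
  unfold pt
  have hmul : ∀ i : ℤ, uj (i + j) = uj i * Complex.exp (((Real.pi * j / 3 : ℝ) : ℂ) * Complex.I) := by
    intro i
    unfold uj
    rw [← Complex.exp_add]
    congr 1
    push_cast
    ring
  have e0 := hmul 0
  have e1 := hmul 1
  rw [zero_add] at e0
  rw [add_comm j 1, e0, e1, zero_add]
  ring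

lemma norm_pt (j : ℤ) (m n : ℕ) : ‖pt j m n‖ = Real.sqrt (3 * ((m : ℝ) ^ 2 + m * n + (n : ℝ) ^ 2)) := by
  rw [pt_mul, norm_mul, Complex.norm_exp_ofReal_mul_I, mul_one, pt_zero]
  have h := JJ_norm_sq (-(m : ℤ) - 2 * n, 2 * m + n)
  rw [← Real.sqrt_sq (norm_nonneg _), h]
  congr 1
  push_cast
  ring

/-! ### every vertex -/

lemma vert_JJ {v : Pt} (hv : 3 ∣ v.1 - v.2) : JJ v ∈ vertices := by
  have hadd : ∀ (x : ℂ) (i j : Fin 3), x ∈ vertices → x + (step 0 i - step 0 j) ∈ vertices := by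
    intro x i j hx
    have h1 := PLC.vert_sub (PLC.vert_sub hx j) i
    rwa [show step 0 i - (step 0 j - x) = x + (step 0 i - step 0 j) by ring] at h1
  have h0 : (0 : ℂ) ∈ vertices := ⟨0, fun i => 0, by simp [pos]⟩
  have f0 : step 0 0 - step 0 2 = (Real.sqrt 3 : ℂ) * uj 0 := by
    rw [PLC.E1D.step_w, PLC.E1D.step_w, ← JJ_bv0, JJ_w3]
    have h := PLC.E1D.w3_rel
    simp only [bv]
    show (-1 : ℂ) ^ 0 * w3 ^ 0 - (-1 : ℂ) ^ 0 * w3 ^ 2 = _
    push_cast
    linear_combination -h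
  have f1 : step 0 1 - step 0 2 = (Real.sqrt 3 : ℂ) * uj 1 := by
    rw [PLC.E1D.step_w, PLC.E1D.step_w, ← JJ_bv1, JJ_w3]
    have h := PLC.E1D.w3_rel
    simp only [bv]
    show (-1 : ℂ) ^ 0 * w3 ^ 1 - (-1 : ℂ) ^ 0 * w3 ^ 2 = _
    push_cast
    linear_combination -h
  have a0 : ∀ x : ℂ, x ∈ vertices → x + (Real.sqrt 3 : ℂ) * uj 0 ∈ vertices := fun x hx => by
    rw [← f0]
    exact hadd x 0 2 hx
  have a1 : ∀ x : ℂ, x ∈ vertices → x + (Real.sqrt 3 : ℂ) * uj 1 ∈ vertices := fun x hx => by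
    rw [← f1]
    exact hadd x 1 2 hx
  have b0 : ∀ x : ℂ, x ∈ vertices → x - (Real.sqrt 3 : ℂ) * uj 0 ∈ vertices := fun x hx => by
    rw [← f0]
    have := hadd x 2 0 hx
    rwa [show x + (step 0 2 - step 0 0) = x - (step 0 0 - step 0 2) by ring] at this
  have b1 : ∀ x : ℂ, x ∈ vertices → x - (Real.sqrt 3 : ℂ) * uj 1 ∈ vertices := fun x hx => by
    rw [← f1]
    have := hadd x 2 1 hx
    rwa [show x + (step 0 2 - step 0 1) = x - (step 0 1 - step 0 2) by ring] at this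
  have hM : ∀ M : ℤ, (Real.sqrt 3 : ℂ) * ((M : ℂ) * uj 0) ∈ vertices := by
    intro M
    induction M using Int.induction_on with
    | zero => simpa using h0
    | succ i ih =>
      have := a0 _ ih
      rwa [show (Real.sqrt 3 : ℂ) * (((i : ℤ) : ℂ) * uj 0) + (Real.sqrt 3 : ℂ) * uj 0 =
        (Real.sqrt 3 : ℂ) * ((((i : ℤ) + 1 : ℤ) : ℂ) * uj 0) by push_cast; ring] at this
    | pred i ih =>
      have := b0 _ ih
      rwa [show (Real.sqrt 3 : ℂ) * (((-(i : ℤ) : ℤ) : ℂ) * uj 0) - (Real.sqrt 3 : ℂ) * uj 0 =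
        (Real.sqrt 3 : ℂ) * (((-(i : ℤ) - 1 : ℤ) : ℂ) * uj 0) by push_cast; ring] at this
  have hN : ∀ M N : ℤ, (Real.sqrt 3 : ℂ) * ((M : ℂ) * uj 0 + (N : ℂ) * uj 1) ∈ vertices := by
    intro M N
    induction N using Int.induction_on with
    | zero => simpa using hM M
    | succ i ih =>
      have := a1 _ ih
      rwa [show (Real.sqrt 3 : ℂ) * ((M : ℂ) * uj 0 + ((i : ℤ) : ℂ) * uj 1) + (Real.sqrt 3 : ℂ) * uj 1 =
        (Real.sqrt 3 : ℂ) * ((M : ℂ) * uj 0 + (((i : ℤ) + 1 : ℤ) : ℂ) * uj 1) by push_cast; ring] at this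
    | pred i ih =>
      have := b1 _ ih
      rwa [show (Real.sqrt 3 : ℂ) * ((M : ℂ) * uj 0 + ((-(i : ℤ) : ℤ) : ℂ) * uj 1) - (Real.sqrt 3 : ℂ) * uj 1 =
        (Real.sqrt 3 : ℂ) * ((M : ℂ) * uj 0 + ((-(i : ℤ) - 1 : ℤ) : ℂ) * uj 1) by push_cast; ring] at this
  obtain ⟨a, b⟩ := v
  obtain ⟨c, hc⟩ := hv
  simp only at hc
  have h1 := hN (b + c) (-b - 2 * c)
  rw [← JJ_comb] at h1
  rwa [show ((-(b + c) - 2 * (-b - 2 * c), 2 * (b + c) + (-b - 2 * c)) : Pt) = (a, b) by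
    rw [Prod.mk.injEq]
    omega] at h1

/-- every vertex of the class of the origin is a point of a sector -/
lemma pt_of {v : Pt} (hv : 3 ∣ v.1 - v.2) : ∃ (j : ℤ) (m n : ℕ), JJ v = pt j m n := by
  obtain ⟨a, b⟩ := v
  obtain ⟨c, hc⟩ := hv
  simp only at hc
  -- JJ v = √3 (M u0 + N u1)
  have h0 : ∃ M N : ℤ, a = -M - 2 * N ∧ b = 2 * M + N := ⟨b + c, -b - 2 * c, by omega, by omega⟩
  obtain ⟨M, N, e1, e2⟩ := h0
  have h1 : JJ (a, b) = (Real.sqrt 3 : ℂ) * ((M : ℂ) * uj 0 + (N : ℂ) * uj 1) := by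
    rw [e1, e2, JJ_comb]
  have h2 := uj_pred 0
  have h3 := uj_three 0
  have h4 := uj_three 1
  have h5 := uj_three 2
  norm_num at h2 h3 h4 h5
  rw [h1]
  rcases le_or_gt 0 M with hM | hM <;> rcases le_or_gt 0 N with hN | hN
  · refine ⟨0, M.toNat, N.toNat, ?_⟩
    unfold pt
    have e3 : ((M.toNat : ℕ) : ℂ) = (M : ℂ) := by exact_mod_cast congrArg (fun x : ℤ => (x : ℂ)) (Int.toNat_of_nonneg hM)
    have e4 : ((N.toNat : ℕ) : ℂ) = (N : ℂ) := by exact_mod_cast congrArg (fun x : ℤ => (x : ℂ)) (Int.toNat_of_nonneg hN)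
    rw [e3, e4, zero_add]
  · rcases le_or_gt 0 (M + N) with hMN | hMN
    · -- (5; -N, M + N)
      refine ⟨-1, (-N).toNat, (M + N).toNat, ?_⟩
      unfold pt
      have e3 : (((-N).toNat : ℕ) : ℂ) = ((-N : ℤ) : ℂ) := by
        exact_mod_cast congrArg (fun x : ℤ => (x : ℂ)) (Int.toNat_of_nonneg (by omega : 0 ≤ -N))
      have e4 : (((M + N).toNat : ℕ) : ℂ) = ((M + N : ℤ) : ℂ) := by
        exact_mod_cast congrArg (fun x : ℤ => (x : ℂ)) (Int.toNat_of_nonneg hMN)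
      have e5 := uj_three (-1)
      norm_num at e5
      rw [e3, e4, show (-1 : ℤ) + 1 = 0 by norm_num]
      push_cast
      linear_combination (Real.sqrt 3 : ℂ) * (N : ℂ) * (h2 + e5)
    · -- (4; -M - N, M)
      refine ⟨-2, (-M - N).toNat, M.toNat, ?_⟩
      unfold pt
      have e3 : (((-M - N).toNat : ℕ) : ℂ) = ((-M - N : ℤ) : ℂ) := by
        exact_mod_cast congrArg (fun x : ℤ => (x : ℂ)) (Int.toNat_of_nonneg (by omega : 0 ≤ -M - N))
      have e4 : ((M.toNat : ℕ) : ℂ) = (M : ℂ) := by exact_mod_cast congrArg (fun x : ℤ => (x : ℂ)) (Int.toNat_of_nonneg hM)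
      have e5 := uj_three (-1)
      have e6 := uj_three (-2)
      norm_num at e5 e6
      rw [e3, e4, show (-2 : ℤ) + 1 = -1 by norm_num]
      push_cast
      linear_combination (Real.sqrt 3 : ℂ) * ((-(M : ℂ)) * h2 - (M : ℂ) * e5 + ((M : ℂ) + N) * e6)
  · rcases le_or_gt 0 (M + N) with hMN | hMN
    · -- (1; N + M, -M)
      refine ⟨1, (M + N).toNat, (-M).toNat, ?_⟩
      unfold pt
      have e3 : (((-M).toNat : ℕ) : ℂ) = ((-M : ℤ) : ℂ) := by
        exact_mod_cast congrArg (fun x : ℤ => (x : ℂ)) (Int.toNat_of_nonneg (by omega : 0 ≤ -M))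
      have e4 : (((M + N).toNat : ℕ) : ℂ) = ((M + N : ℤ) : ℂ) := by
        exact_mod_cast congrArg (fun x : ℤ => (x : ℂ)) (Int.toNat_of_nonneg hMN)
      rw [e3, e4, show (1 : ℤ) + 1 = 2 by norm_num]
      push_cast
      linear_combination (Real.sqrt 3 : ℂ) * (-(M : ℂ)) * h2
    · -- (2; N, -M - N)
      refine ⟨2, N.toNat, (-M - N).toNat, ?_⟩
      unfold pt
      have e3 : (((-M - N).toNat : ℕ) : ℂ) = ((-M - N : ℤ) : ℂ) := by
        exact_mod_cast congrArg (fun x : ℤ => (x : ℂ)) (Int.toNat_of_nonneg (by omega : 0 ≤ -M - N))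
      have e4 : ((N.toNat : ℕ) : ℂ) = (N : ℂ) := by exact_mod_cast congrArg (fun x : ℤ => (x : ℂ)) (Int.toNat_of_nonneg hN)
      rw [e3, e4, show (2 : ℤ) + 1 = 3 by norm_num]
      push_cast
      linear_combination (Real.sqrt 3 : ℂ) * ((N : ℂ) * h2 + ((M : ℂ) + N) * h3)
  · refine ⟨3, (-M).toNat, (-N).toNat, ?_⟩
    unfold pt
    have e3 : (((-M).toNat : ℕ) : ℂ) = ((-M : ℤ) : ℂ) := by
      exact_mod_cast congrArg (fun x : ℤ => (x : ℂ)) (Int.toNat_of_nonneg (by omega : 0 ≤ -M))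
    have e4 : (((-N).toNat : ℕ) : ℂ) = ((-N : ℤ) : ℂ) := by
      exact_mod_cast congrArg (fun x : ℤ => (x : ℂ)) (Int.toNat_of_nonneg (by omega : 0 ≤ -N))
    rw [e3, e4, show (3 : ℤ) + 1 = 4 by norm_num]
    push_cast
    linear_combination (Real.sqrt 3 : ℂ) * ((M : ℂ) * h3 + (N : ℂ) * h4)

/-- every vertex has a neighbour of the class of the origin -/
lemma near {x : ℂ} (hx : x ∈ vertices) : ∃ v : Pt, 3 ∣ v.1 - v.2 ∧ ‖x - JJ v‖ ≤ 1 := by
  obtain ⟨n, s, rfl⟩ := hx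
  obtain ⟨a, b, h1, h2⟩ := pos_cls s n le_rfl
  rw [h1]
  split_ifs at h2 with h3
  · refine ⟨(-b, a), by simp only; omega, ?_⟩
    rw [JJ_w3]
    simp
  · refine ⟨(-b, a - 1), by simp only; omega, ?_⟩
    rw [JJ_w3]
    simp

end Pool.Agent.THJ
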